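import Pool.Agent.Work.MP_8a95ee_gt.Ref.Defs

/-!
# Statements of the items of the block Ref
-/

set_option autoImplicit false

namespace MP8a95ee.Ref

open RA

/-! ## A. The local class -/

/-- A1: a homology manifold is pure -/
def S_A1 : Prop := ∀ (L : Finset (Finset ℕ)) (_ : FlagC L) (n : ℕ) (_ : IsHMfd L n),
  ∀ s ∈ L, s.Nonempty → s.card ≤ n ∧ ∃ t ∈ L, s ⊆ t ∧ t.card = n

/-- A2: exactness of the links with coefficients below the top size -/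
def S_A2 : Prop := ∀ (L : Finset (Finset ℕ)) (_ : FlagC L) (n : ℕ) (_ : IsHMfd L n)
  (N : Type) [AddCommGroup N] [Module ℝ N] (E : Submodule ℝ N) (s : Finset ℕ) (_ : s ∈ L)
  (_ : s.Nonempty) (k : ℕ) (_ : s.card + k ≠ n) (x : Finset ℕ → N), LkN L E s k x →
  bdN L s x = 0 → ∃ y, LkN L E s (k + 1) y ∧ bdN L s y = x

/-- A3: top cycles of the links with coefficients -/
def S_A3 : Prop := ∀ (L : Finset (Finset ℕ)) (_ : FlagC L) (n : ℕ) (_ : IsHMfd L n)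
  (o : (Fin n → ℕ) → ℤ) (_ : IsOrient L n o)
  (N : Type) [AddCommGroup N] [Module ℝ N] (E : Submodule ℝ N) (s : Finset ℕ) (_ : s ∈ L)
  (_ : s.Nonempty) (k : ℕ) (_ : s.card + k = n) (x : Finset ℕ → N), LkN L E s k x →
  bdN L s x = 0 → ∃ y ∈ E, ∀ u, x u = oLk o s u • y

/-- A4: moving a filling to the top size -/
def S_A4 : Prop := ∀ (L : Finset (Finset ℕ)) (_ : FlagC L) (n : ℕ) (_ : IsHMfd L n)
  (N : Type) [AddCommGroup N] [Module ℝ N] (e : ℕ → N →ₗ[ℝ] N) (_ : IdemSys L N e)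
  (x : Finset ℕ → Finset ℕ → N), IsDD L e (verts L) x → (∀ u, x ∅ u = 0) →
  (∀ s u, dD L e x s u ≠ 0 → (s ∪ u).card = n) →
  ∃ x', IsDD L e (verts L) x' ∧ dD L e x' = dD L e x ∧ (∀ u, x' ∅ u = 0) ∧
    ∀ s u, x' s u ≠ 0 → (s ∪ u).card = n

/-- A5: from a filling of `o ∩ φ` without component at `∅` to a primitive of `φ` -/
def S_A5 : Prop := ∀ (L : Finset (Finset ℕ)) (_ : FlagC L) (_ : (verts L).Nonempty) (n : ℕ)
  (_ : IsHMfd L n) (o : (Fin n → ℕ) → ℤ) (_ : IsOrient L n o) (N : Type) [AddCommGroup N]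
  [Module ℝ N] (e : ℕ → N →ₗ[ℝ] N) (_ : IdemSys L N e) (φ : Finset ℕ → N),
  IsCC L e φ → dC L e φ = 0 → ∀ x, IsDD L e (verts L) x → (∀ u, x ∅ u = 0) →
  dD L e x = capU φ (oF o) → ∃ ψ, IsCC L e ψ ∧ dC L e ψ = φ

/-- A6: fillings from `Bounds` -/
def S_A6' : Prop := ∀ (L : Finset (Finset ℕ)) (_ : FlagC L) (m : ℕ)
  (o : (Fin (m + 1) → ℕ) → ℤ) (_ : IsOrient L (m + 1) o) (_ : Bounds L o (KG L fun _ => True))
  (N : Type) [AddCommGroup N] [Module ℝ N] (e : ℕ → N →ₗ[ℝ] N) (_ : IdemSys L N e)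
  (φ : Finset ℕ → N), IsCC L e φ → dC L e φ = 0 →
  ∃ x, IsDD L e (verts L) x ∧ dD L e x = capU φ (oF o)

section

variable (L : Finset (Finset ℕ)) {N : Type} [AddCommGroup N] [Module ℝ N] (e : ℕ → N →ₗ[ℝ] N)

/-- the cochains with coefficients in `N` -/
def CC : Submodule ℝ (Finset ℕ → N) where
  carrier := {φ | IsCC L e φ}
  add_mem' := fun {x y} hx hy s => ⟨fun h => by
    by_cases h0 : x s = 0
    · exact (hy s).1 fun h' => h (by rw [Pi.add_apply, h0, h', add_zero])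
    · exact (hx s).1 h0, (Es e s).add_mem (hx s).2 (hy s).2⟩
  zero_mem' := fun s => ⟨fun h => absurd rfl h, (Es e s).zero_mem⟩
  smul_mem' := fun r x hx s => ⟨fun h => (hx s).1 fun h' => h (by
    rw [Pi.smul_apply, h', smul_zero]), (Es e s).smul_mem r (hx s).2⟩

/-- `dC` as a linear map -/
noncomputable def dCl : (Finset ℕ → N) →ₗ[ℝ] (Finset ℕ → N) where
  toFun := dC L e
  map_add' := fun x y => by
    funext s
    by_cases h : s ∈ L
    · simp only [dC, if_pos h, Pi.add_apply, map_add, smul_add, Finset.sum_add_distrib]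
    · simp only [dC, if_neg h, Pi.add_apply, add_zero]
  map_smul' := fun r x => by
    funext s
    by_cases h : s ∈ L
    · simp only [dC, if_pos h, Pi.smul_apply, map_smul, RingHom.id_apply, Finset.smul_sum]
      exact Finset.sum_congr rfl fun a _ => smul_comm _ _ _
    · simp only [dC, if_neg h, Pi.smul_apply, smul_zero]

variable (N) in
/-- `N`-valued chains of `L`, the empty face included -/
def CR : Submodule ℝ (Finset ℕ → N) where
  carrier := {y | ∀ u, y u ≠ 0 → u ∈ L}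
  add_mem' := fun {x y} hx hy u hu => by
    by_cases h : x u = 0
    · refine hy u fun h' => hu ?_
      rw [Pi.add_apply, h, h', add_zero]
    · exact hx u h
  zero_mem' := fun u hu => absurd rfl hu
  smul_mem' := fun r x hx u hu => hx u fun h' => hu (by rw [Pi.smul_apply, h', smul_zero])

variable (N) in
/-- the reduced boundary operator for `N`-valued chains -/
noncomputable def bNl : (Finset ℕ → N) →ₗ[ℝ] (Finset ℕ → N) where
  toFun := bdN L ∅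
  map_add' := fun x y => by
    funext s
    simp only [bdN, Pi.add_apply, smul_add, Finset.sum_add_distrib]
  map_smul' := fun r x => by
    funext s
    simp only [bdN, Pi.smul_apply, RingHom.id_apply, Finset.smul_sum]
    exact Finset.sum_congr rfl fun a _ => smul_comm _ _ _

end

/-- A7: the cohomology with coefficients is bounded by the homology of `L` -/
def S_A7 : Prop := ∀ (L : Finset (Finset ℕ)) (_ : FlagC L) (_ : (verts L).Nonempty) (m : ℕ)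
  (_ : IsHMfd L (m + 1)) (o : (Fin (m + 1) → ℕ) → ℤ) (_ : IsOrient L (m + 1) o)
  (_ : Bounds L o (KG L fun _ => True)) (N : Type) [AddCommGroup N] [Module ℝ N]
  [FiniteDimensional ℝ N] (e : ℕ → N →ₗ[ℝ] N) (_ : IdemSys L N e),
  Module.finrank ℝ (CC L e ⊓ LinearMap.ker (dCl L e) : Submodule ℝ (Finset ℕ → N)) +
      Module.finrank ℝ ((CR L N).map (bNl L N)) ≤
    Module.finrank ℝ ((CC L e).map (dCl L e)) +
      Module.finrank ℝ (CR L N ⊓ LinearMap.ker (bNl L N) : Submodule ℝ (Finset ℕ → N))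

/-- A8: homology with coefficients -/
def S_A8 : Prop := ∀ (L : Finset (Finset ℕ)) (_ : FlagC L) (_ : (verts L).Nonempty) (N : Type)
  [AddCommGroup N] [Module ℝ N] [FiniteDimensional ℝ N],
  Module.finrank ℝ (CR L N ⊓ LinearMap.ker (bNl L N) : Submodule ℝ (Finset ℕ → N)) ≤
    Module.finrank ℝ ((CR L N).map (bNl L N)) + Module.finrank ℝ N * betti L

/-- A9: Euler characteristic and cohomology with coefficients -/
def S_A9 : Prop := ∀ (L : Finset (Finset ℕ)) (_ : FlagC L) (N : Type) [AddCommGroup N]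
  [Module ℝ N] [FiniteDimensional ℝ N] (e : ℕ → N →ₗ[ℝ] N) (_ : IdemSys L N e),
  |∑ s ∈ L, (-1 : ℤ) ^ s.card * (Module.finrank ℝ (Es e s) : ℤ)| ≤
    (Module.finrank ℝ (CC L e ⊓ LinearMap.ker (dCl L e) : Submodule ℝ (Finset ℕ → N)) : ℤ) -
      (Module.finrank ℝ ((CC L e).map (dCl L e)) : ℤ)

/-- A10: the bound for the curvature -/
def S_A10 : Prop := ∀ (L : Finset (Finset ℕ)) (_ : FlagC L) (_ : (verts L).Nonempty) (m : ℕ)
  (_ : IsHMfd L (m + 1)) (o : (Fin (m + 1) → ℕ) → ℤ) (_ : IsOrient L (m + 1) o)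
  (_ : Bounds L o (KG L fun _ => True)),
  |∑ s ∈ L, (-1 / 2 : ℚ) ^ s.card| ≤ (betti L : ℚ)

/-! ## B. Combinatorics of coverings -/

/-- the pullback of a function on tuples -/
def pb (K' : Finset (Finset ℕ)) (π : ℕ → ℕ) {n : ℕ} (f : (Fin n → ℕ) → ℤ) (t : Fin n → ℕ) : ℤ :=
  if Finset.univ.image t ∈ K' then f (fun i => π (t i)) else 0

/-- B1: coverings of flag complexes are flag -/
def S_B1' : Prop := ∀ (K K' : Finset (Finset ℕ)) (π : ℕ → ℕ) (d : ℕ) (V : Finset ℕ) (_ : IsCx K)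
  (_ : V ⊆ verts K) (_ : IsFlag (sub K V)) (_ : 0 < d) (_ : IsCover K K' π d),
  IsFlag (sub K' (pre K' π V)) ∧ verts (sub K' (pre K' π V)) = pre K' π V ∧
    (V.Nonempty → (pre K' π V).Nonempty) ∧ pre K' π V ⊆ verts K'

/-- B2: coverings of homology manifolds -/
def S_B2' : Prop := ∀ (K K' : Finset (Finset ℕ)) (π : ℕ → ℕ) (d : ℕ) (V : Finset ℕ) (_ : IsCx K)
  (_ : V ⊆ verts K) (n : ℕ) (_ : IsHMfd (sub K V) n) (_ : IsCover K K' π d),
  IsHMfd (sub K' (pre K' π V)) n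

/-- B3: pullback of the orientation -/
def S_B3' : Prop := ∀ (K K' : Finset (Finset ℕ)) (π : ℕ → ℕ) (d : ℕ) (V : Finset ℕ) (_ : IsCx K)
  (_ : V ⊆ verts K) (m : ℕ) (_ : 1 ≤ m) (o : (Fin (m + 1) → ℕ) → ℤ)
  (_ : IsOrient (sub K V) (m + 1) o) (_ : IsCover K K' π d),
  IsOrient (sub K' (pre K' π V)) (m + 1) (pb K' π o)

/-- B4: pullback of the relative cycle -/
def S_B4' : Prop := ∀ (K K' : Finset (Finset ℕ)) (π : ℕ → ℕ) (d : ℕ) (V : Finset ℕ) (_ : IsCx K)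
  (m : ℕ) (o : (Fin (m + 1) → ℕ) → ℤ) (_ : IsOrient (sub K V) (m + 1) o)
  (c : (Fin (m + 2) → ℕ) → ℤ) (_ : IsRelCycle K (m + 1) o c) (_ : IsCover K K' π d),
  IsRelCycle K' (m + 1) (pb K' π o) (pb K' π c)

/-- B5: numbers of faces -/
def S_B5' : Prop := ∀ (K K' : Finset (Finset ℕ)) (π : ℕ → ℕ) (d : ℕ) (V : Finset ℕ) (_ : IsCx K)
  (_ : IsCover K K' π d), chiK K' = d * chiK K ∧
    ∑ s ∈ sub K' (pre K' π V), (-1 / 2 : ℚ) ^ s.card - 1 =
      d * (∑ s ∈ sub K V, (-1 / 2 : ℚ) ^ s.card - 1)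

/-- B6: Euler characteristic of the manifold -/
def S_B6' : Prop := ∀ (K : Finset (Finset ℕ)) (V : Finset ℕ) (_ : IsCx K) (_ : V ⊆ verts K),
  (chiM K V : ℚ) = 2 ^ V.card * ((chiK K : ℚ) + ∑ s ∈ sub K V, (-1 / 2 : ℚ) ^ s.card - 1)

/-- B7: Euler characteristic and Betti numbers -/
def S_B7' : Prop := ∀ (K : Finset (Finset ℕ)) (_ : IsCx K), |chiK K| ≤ (betti K : ℤ)

/-! ## C. Tuples of points and the fundamental cycle -/

/-- the point with coordinates `0` in `σ` and `1` elsewhere -/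
def pts (σ : Finset ℕ) : ℕ → ℝ := fun v => if v ∈ σ then 0 else 1

/-- the first `j` entries -/
def fst {k : ℕ} (s : Fin k → ℕ) (j : Fin (k + 1)) : Finset ℕ :=
  (Finset.univ.filter fun i : Fin k => (i : ℕ) < (j : ℕ)).image s

/-- sign changes at the coordinates in `T` -/
def act (T : Finset ℕ) (p : ℕ → ℝ) : ℕ → ℝ := fun v => cornerPt T v * p v

/-- sign changes for chains of tuples of points -/
noncomputable def actC (T : Finset ℕ) {k : ℕ} : Ch (ℕ → ℝ) k →ₗ[ℝ] Ch (ℕ → ℝ) k :=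
  Finsupp.lmapDomain ℝ ℝ fun p i => act T (p i)

/-- antisymmetrisation -/
noncomputable def Anti (U : Finset ℕ) {k : ℕ} : Ch (ℕ → ℝ) k →ₗ[ℝ] Ch (ℕ → ℝ) k :=
  ∑ T ∈ U.powerset, (-1 : ℝ) ^ T.card • actC T

/-- the chain of the paths through corners -/
noncomputable def muC (U : Finset ℕ) {k : ℕ} (c : (Fin k → ℕ) → ℝ) : Ch (ℕ → ℝ) (k + 1) :=
  ∑ s ∈ Fintype.piFinset (fun _ : Fin k => U), Finsupp.single (fun j => cornerPt (fst s j)) (c s)

/-- the chain of the paths through centers -/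
noncomputable def nuC (U : Finset ℕ) {k : ℕ} (c : (Fin k → ℕ) → ℝ) : Ch (ℕ → ℝ) (k + 1) :=
  ∑ s ∈ Fintype.piFinset (fun _ : Fin k => U), Finsupp.single (fun j => pts (fst s j)) (c s)

/-- the boundary of an alternating function -/
noncomputable def dcap (U : Finset ℕ) {k : ℕ} (c : (Fin (k + 1) → ℕ) → ℝ) (s : Fin k → ℕ) : ℝ :=
  (-1) ^ k * ∑ a ∈ U, c (Fin.snoc (α := fun _ => ℕ) s a)

/-- all entries of the tuple lie in the cube with directions `S` at the corner `1` -/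
def InCube (S : Finset ℕ) {k : ℕ} (p : Fin k → ℕ → ℝ) : Prop :=
  ∀ i v, |p i v| ≤ 1 ∧ (v ∉ S → p i v = 1)

/-- C1: boundaries of `muC` and `nuC` -/
def S_C1 : Prop := ∀ (U : Finset ℕ) (k : ℕ) (c : (Fin (k + 1) → ℕ) → ℝ), IsAlt U c →
  Anti U (bdT (muC U c)) = (-2 : ℝ) • Anti U (muC U (dcap U c)) ∧
  Anti U (bdT (nuC U c)) = (-1 : ℝ) • Anti U (nuC U (dcap U c))

/-- C2: the homotopy between `muC` and `nuC` -/
def S_C2 : Prop := ∃ h : ∀ k, (Fin k → ℕ) → Ch (ℕ → ℝ) (k + 2),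
  (∀ k s, ∀ p ∈ (h k s).support, InCube (Finset.univ.image s) p) ∧
  (∀ s, h 0 s = 0) ∧
  ∀ (U : Finset ℕ) (k : ℕ) (c : (Fin (k + 1) → ℕ) → ℝ), IsAlt U c →
    Anti U (bdT (∑ s ∈ Fintype.piFinset (fun _ : Fin (k + 1) => U), c s • h (k + 1) s)) =
      Anti U ((1 / 2 : ℝ) ^ (k + 1) • muC U c - nuC U c +
        ∑ s ∈ Fintype.piFinset (fun _ : Fin k => U), dcap U c s • h k s)

/-- tuples of points in a common cube of `RZ L` -/
def Gd (L : Finset (Finset ℕ)) {k : ℕ} (p : Fin k → ℕ → ℝ) : Prop :=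
  ∃ σ ∈ L, ∃ T ⊆ verts L, ∀ i v, |p i v| ≤ 1 ∧ (v ∉ σ → p i v = cornerPt T v)

/-- affine simplex -/
noncomputable def affS {k : ℕ} (p : Fin (k + 1) → ℕ → ℝ) (τ : stdSimplex ℝ (Fin (k + 1))) : ℕ → ℝ :=
  fun v => ∑ i, τ i * p i v

theorem continuous_affS {k : ℕ} (p : Fin (k + 1) → ℕ → ℝ) : Continuous (affS p) := by
  unfold affS
  refine continuous_pi fun v => continuous_finsetSum _ fun i _ => ?_
  exact ((continuous_apply i).comp continuous_subtype_val).mul continuous_const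

open Classical in
/-- affine simplices as singular chains -/
noncomputable def affL (L : Finset (Finset ℕ)) {k : ℕ} : Ch (ℕ → ℝ) (k + 1) →ₗ[ℝ] SChain (RZ L) k :=
  Finsupp.linearCombination ℝ fun p =>
    if h : ∀ τ, affS p τ ∈ RZ L then
      Finsupp.single ⟨fun τ => ⟨affS p τ, h τ⟩, (continuous_affS p).subtype_mk _⟩ 1
    else 0

/-- C3: affine simplices: chain map, and the moment cycle -/
def S_C3 : Prop := ∀ (L : Finset (Finset ℕ)) (_ : FlagC L),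
  (∀ (k : ℕ) (p : Fin (k + 1) → ℕ → ℝ), Gd L p → ∀ τ, affS p τ ∈ RZ L) ∧
  (∀ (k : ℕ) (x : Ch (ℕ → ℝ) (k + 2)), (∀ p ∈ x.support, Gd L p) →
    bd (affL L x) = affL L (bdT x)) ∧
  ∀ (n : ℕ) (o : (Fin n → ℕ) → ℤ), momentCycle L n o =
    affL L (Anti (verts L) (muC (verts L) fun s => (o s : ℝ)))

/-- C4: simplices of the space -/
def S_C4 : Prop := ∀ (K : Finset (Finset ℕ)) (V T : Finset ℕ) (_ : IsCx K) (_ : T ⊆ V) (n : ℕ)
  (t : Fin (n + 1) → ℕ) (_ : Finset.univ.image t ∈ K) (τ : stdSimplex ℝ (Fin (n + 1))),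
  simPt K V T t τ ∈ Mf K V

/-- C5: the fundamental chain is a cycle -/
def S_C5 : Prop := ∀ (K : Finset (Finset ℕ)) (V : Finset ℕ) (_ : IsCx K) (_ : V ⊆ verts K)
  (m : ℕ) (o : (Fin (m + 1) → ℕ) → ℤ) (_ : IsOrient (sub K V) (m + 1) o)
  (c : (Fin (m + 2) → ℕ) → ℤ) (_ : IsRelCycle K (m + 1) o c), bd (fundCh K V c) = 0

/-- C6: the projection to `RZ L` and the image of the fundamental cycle -/
def S_C6 : Prop := ∀ (K : Finset (Finset ℕ)) (V : Finset ℕ) (_ : IsCx K) (_ : V ⊆ verts K)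
  (_ : IsFlag (sub K V)) (m : ℕ) (o : (Fin (m + 1) → ℕ) → ℤ)
  (_ : IsOrient (sub K V) (m + 1) o) (c : (Fin (m + 2) → ℕ) → ℤ)
  (_ : IsRelCycle K (m + 1) o c),
  ∃ f : C(Mf K V, RZ (sub K V)), (∀ p, (f p : ℕ → ℝ) = (p : (Finset ℕ → ℝ) × (ℕ → ℝ)).2) ∧
    ∃ (lam : ℝ) (w : SChain (RZ (sub K V)) (m + 2)), lam ≠ 0 ∧
      push f (fundCh K V c) = lam • momentCycle (sub K V) (m + 1) o + bd w

/-! ## D. The covering map and the transfer -/

/-- `q` is the map induced by `π` -/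
def IsQ (K' : Finset (Finset ℕ)) (π : ℕ → ℕ) {A B : Set ((Finset ℕ → ℝ) × (ℕ → ℝ))}
    (q : C(A, B)) : Prop :=
  ∀ p : A, (∀ σ, (q p : (Finset ℕ → ℝ) × (ℕ → ℝ)).1 σ =
      ∑ σ' ∈ K'.filter (fun σ' => σ'.image π = σ), (p : (Finset ℕ → ℝ) × (ℕ → ℝ)).1 σ') ∧
    ∀ i, (q p : (Finset ℕ → ℝ) × (ℕ → ℝ)).2 i =
      ∏ a ∈ (verts K').filter (fun a => π a = i), (p : (Finset ℕ → ℝ) × (ℕ → ℝ)).2 a

/-- D1: the space is a compact Hausdorff space -/
def S_D1 : Prop := ∀ (K : Finset (Finset ℕ)) (V : Finset ℕ), IsCompact (Mf K V)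

/-- D2: the map induced by a covering -/
def S_D2 : Prop := ∀ (K K' : Finset (Finset ℕ)) (π : ℕ → ℕ) (d : ℕ) (V : Finset ℕ) (_ : IsCx K)
  (_ : V ⊆ verts K) (_ : IsCover K K' π d), ∃ q : C(Mf K' (pre K' π V), Mf K V), IsQ K' π q

/-- D3: finite fibres -/
def S_D3 : Prop := ∀ (K K' : Finset (Finset ℕ)) (π : ℕ → ℕ) (d : ℕ) (V : Finset ℕ) (_ : IsCx K)
  (_ : V ⊆ verts K) (_ : IsCover K K' π d) (q : C(Mf K' (pre K' π V), Mf K V)) (_ : IsQ K' π q),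
  ∃ D : ℕ, ∀ y, (q ⁻¹' {y}).Finite ∧ (q ⁻¹' {y}).ncard ≤ D

/-- D4: local sections -/
def S_D4 : Prop := ∀ (K K' : Finset (Finset ℕ)) (π : ℕ → ℕ) (d : ℕ) (V : Finset ℕ) (_ : IsCx K)
  (_ : V ⊆ verts K) (_ : IsCover K K' π d) (q : C(Mf K' (pre K' π V), Mf K V)) (_ : IsQ K' π q)
  (e : Mf K' (pre K' π V)), ∃ φ : OpenPartialHomeomorph (Mf K' (pre K' π V)) (Mf K V),
    e ∈ φ.source ∧ (φ : Mf K' (pre K' π V) → Mf K V) = q

/-- D5: covering map -/
def S_D5 : Prop := ∀ (K K' : Finset (Finset ℕ)) (π : ℕ → ℕ) (d : ℕ) (V : Finset ℕ) (_ : IsCx K)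
  (_ : V ⊆ verts K) (_ : IsCover K K' π d) (q : C(Mf K' (pre K' π V), Mf K V)) (_ : IsQ K' π q),
  IsCoveringMap q

/-- `τ` sends a simplex to the sum of its lifts -/
def IsTransfer {E B : Type} [TopologicalSpace E] [TopologicalSpace B] (q : C(E, B))
    (τ : ∀ k, SChain B k →ₗ[ℝ] SChain E k) : Prop :=
  ∀ (k : ℕ) (σ : SSimplex B k) (S : Finset (SSimplex E k)), (∀ ρ, ρ ∈ S ↔ q.comp ρ = σ) →
    τ k (Finsupp.single σ 1) = ∑ ρ ∈ S, Finsupp.single ρ 1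

/-- D6: the transfer of a finite covering -/
def S_D6 : Prop := ∀ (E B : Type) [TopologicalSpace E] [TopologicalSpace B] (q : C(E, B))
  (_ : IsCoveringMap q) (D : ℕ) (_ : ∀ y, (q ⁻¹' {y}).Finite ∧ (q ⁻¹' {y}).ncard ≤ D),
  ∃ τ : ∀ k, SChain B k →ₗ[ℝ] SChain E k, IsTransfer q τ ∧
    (∀ k z, bd (τ (k + 1) z) = τ k (bd z)) ∧ ∀ k z, l1 (τ k z) ≤ D * l1 z

/-- the vertices with an odd number of preimages in `T'` -/
def par (π : ℕ → ℕ) (V T' : Finset ℕ) : Finset ℕ :=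
  V.filter fun v => Odd (T'.filter fun a => π a = v).card

/-- D7: the induced map on simplices -/
def S_D7 : Prop := ∀ (K K' : Finset (Finset ℕ)) (π : ℕ → ℕ) (d : ℕ) (V : Finset ℕ) (_ : IsCx K)
  (_ : V ⊆ verts K) (_ : IsCover K K' π d) (T' : Finset ℕ) (_ : T' ⊆ pre K' π V) (n : ℕ)
  (t' : Fin (n + 1) → ℕ) (_ : Finset.univ.image t' ∈ K') (τ : stdSimplex ℝ (Fin (n + 1))),
  (∀ σ, (simPt K V (par π V T') (fun i => π (t' i)) τ).1 σ =
    ∑ σ' ∈ K'.filter (fun σ' => σ'.image π = σ), (simPt K' (pre K' π V) T' t' τ).1 σ') ∧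
  ∀ i, (simPt K V (par π V T') (fun i => π (t' i)) τ).2 i =
    ∏ a ∈ (verts K').filter (fun a => π a = i), (simPt K' (pre K' π V) T' t' τ).2 a

/-- the barycenter of the standard simplex -/
noncomputable def bary (n : ℕ) : stdSimplex ℝ (Fin (n + 1)) :=
  ⟨fun _ => 1 / ((n : ℝ) + 1), fun _ => by positivity, by
    rw [Finset.sum_const, Finset.card_univ, Fintype.card_fin, nsmul_eq_mul]
    push_cast
    field_simp⟩

/-- D8: the points over a barycenter -/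
def S_D8 : Prop := ∀ (K K' : Finset (Finset ℕ)) (π : ℕ → ℕ) (d : ℕ) (V : Finset ℕ) (_ : IsCx K)
  (_ : V ⊆ verts K) (_ : IsCover K K' π d) (q : C(Mf K' (pre K' π V), Mf K V)) (_ : IsQ K' π q)
  (T : Finset ℕ) (_ : T ⊆ V) (n : ℕ) (t : Fin (n + 1) → ℕ) (_ : Function.Injective t)
  (_ : Finset.univ.image t ∈ K) (_ : ¬ Finset.univ.image t ⊆ V) (p : Mf K' (pre K' π V)),
  ((q p : (Finset ℕ → ℝ) × (ℕ → ℝ)) = simPt K V T t (bary n)) →
  ∃ (T' : Finset ℕ) (t' : Fin (n + 1) → ℕ), T' ⊆ pre K' π V ∧ par π V T' = T ∧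
    (∀ i, π (t' i) = t i) ∧ Finset.univ.image t' ∈ K' ∧
    (p : (Finset ℕ → ℝ) × (ℕ → ℝ)) = simPt K' (pre K' π V) T' t' (bary n)

/-- D9: the simplices of the space are different -/
def S_D9 : Prop := ∀ (K : Finset (Finset ℕ)) (V T₁ T₂ : Finset ℕ) (_ : IsCx K) (_ : T₁ ⊆ V)
  (_ : T₂ ⊆ V) (n : ℕ) (t₁ t₂ : Fin (n + 1) → ℕ) (_ : Function.Injective t₁)
  (_ : Function.Injective t₂) (_ : Finset.univ.image t₁ ∈ K) (_ : Finset.univ.image t₂ ∈ K)
  (_ : ¬ Finset.univ.image t₁ ⊆ V),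
  simPt K V T₁ t₁ (bary n) = simPt K V T₂ t₂ (bary n) → T₁ = T₂ ∧ t₁ = t₂

/-- D10: the transfer of the fundamental cycle -/
def S_D10 : Prop := ∀ (K K' : Finset (Finset ℕ)) (π : ℕ → ℕ) (d : ℕ) (V : Finset ℕ) (_ : IsCx K)
  (_ : V ⊆ verts K) (_ : IsCover K K' π d) (m : ℕ) (_ : IsFlag (sub K V))
  (_ : IsHMfd (sub K V) (m + 1)) (o : (Fin (m + 1) → ℕ) → ℤ)
  (c : (Fin (m + 2) → ℕ) → ℤ) (_ : IsRelCycle K (m + 1) o c)
  (q : C(Mf K' (pre K' π V), Mf K V)) (_ : IsQ K' π q) (τ : ∀ k, SChain (Mf K V) k →ₗ[ℝ]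
    SChain (Mf K' (pre K' π V)) k) (_ : IsTransfer q τ),
  τ (m + 1) (fundCh K V c) = fundCh K' (pre K' π V) (pb K' π c)

end MP8a95ee.Ref
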