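import Pool.Agent.Work.MP_8a95ee_gt.Ref.Stmts

/-!
# A7: the cohomology with coefficients is bounded by the homology of `L`
-/

set_option autoImplicit false

namespace MP8a95ee.Ref.A7P

open RA

section

variable {L : Finset (Finset ℕ)} {N : Type} [AddCommGroup N] [Module ℝ N]
  {e : ℕ → N →ₗ[ℝ] N}

/-- `capU` as a linear map in the cochain -/
noncomputable def capc (c : Finset ℕ → ℝ) :
    (Finset ℕ → N) →ₗ[ℝ] (Finset ℕ → Finset ℕ → N) where
  toFun := fun φ => capU φ c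
  map_add' := fun x y => by
    funext s u
    simp only [capU, Pi.add_apply]
    split_ifs
    · rw [smul_add]
    · simp
  map_smul' := fun r x => by
    funext s u
    simp only [capU, Pi.smul_apply, RingHom.id_apply]
    split_ifs
    · rw [smul_comm]
    · simp

/-- the function with the value `y` at the empty set -/
def ins (y : Finset ℕ → N) : Finset ℕ → Finset ℕ → N := fun s u => if s = ∅ then y u else 0

theorem isDD_ins {y : Finset ℕ → N} (hy : y ∈ CR L N) : IsDD L e (verts L) (ins y) := by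
  intro s u
  unfold ins
  by_cases h : s = ∅
  · subst h
    rw [if_pos rfl]
    refine ⟨fun h => ⟨Finset.disjoint_empty_left u, ?_, ?_⟩, ?_⟩
    · rw [Finset.empty_union]; exact hy u h
    · rw [Finset.empty_union]
      exact fun v hv => Finset.mem_biUnion.2 ⟨u, hy u h, hv⟩
    · intro a ha
      exact absurd ha (Finset.notMem_empty a)
  · rw [if_neg h]
    exact ⟨fun h => absurd rfl h, (Es e s).zero_mem⟩

theorem ins_empty (y : Finset ℕ → N) : ins y ∅ = y := by
  funext u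
  simp [ins]

theorem dD_empty (x : Finset ℕ → Finset ℕ → N) (u : Finset ℕ) :
    dD L e x ∅ u = - bdN L ∅ (x ∅) u := by
  rw [h61_dDpos e x (Finset.disjoint_empty_left u)]
  simp [bdN]

/-- the reduced chain complex of `L` -/
theorem bd_bd (hf : FlagC L) (he : IdemSys L N e) {y : Finset ℕ → N} (hy : y ∈ CR L N) :
    bdN L ∅ y ∈ CR L N ∧ bdN L ∅ (bdN L ∅ y) = 0 := by
  have h1 := itemB1 L hf N e he (verts L) (ins y) (isDD_ins hy)
  have h2 : (dD L e (ins y)) ∅ = - bdN L ∅ y := by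
    funext u
    rw [dD_empty, ins_empty]
    rfl
  constructor
  · intro u hu
    have h3 := ((h1.1 ∅ u).1 (by
      rw [h2]
      intro h
      exact hu (neg_eq_zero.1 h))).2.1
    rwa [Finset.empty_union] at h3
  · funext u
    have h3 := congrFun (congrFun h1.2 ∅) u
    rw [dD_empty, h2] at h3
    have h4 : bdN L ∅ (- bdN L ∅ y) u = - bdN L ∅ (bdN L ∅ y) u := by
      simp [bdN, Finset.sum_neg_distrib]
    rw [h4, neg_neg] at h3
    exact h3

/-- part (a) -/
theorem partA (hA1 : S_A1) (hf : FlagC L) (hv : (verts L).Nonempty) (m : ℕ)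
    (hM : IsHMfd L (m + 1)) (o : (Fin (m + 1) → ℕ) → ℤ) (ho : IsOrient L (m + 1) o)
    (φ : Finset ℕ → N) (x : Finset ℕ → Finset ℕ → N) (hx : IsDD L e (verts L) x)
    (hdx : dD L e x = capU φ (oF o)) : x ∅ ∈ CR L N ∧ bdN L ∅ (x ∅) = 0 := by
  have hcr : x ∅ ∈ CR L N := by
    intro u hu
    have := ((hx ∅ u).1 hu).2.1
    rwa [Finset.empty_union] at this
  have hcap : ∀ u, dD L e x ∅ u =
      ((-1 : ℝ) ^ (((∅ : Finset ℕ).card + 1) * u.card) * sgg ∅ u * oF o (∅ ∪ u)) • φ ∅ := by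
    intro u
    rw [hdx, capU, if_pos (Finset.disjoint_empty_left u)]
  have hφ : φ ∅ = 0 := by
    obtain ⟨v, hv⟩ := hv
    obtain ⟨σ, hσ, hvσ⟩ := Finset.mem_biUnion.1 hv
    have hvL : ({v} : Finset ℕ) ∈ L := by
      have := (hf σ).1 hσ v hvσ v hvσ
      rwa [Finset.pair_eq_singleton] at this
    obtain ⟨-, t, ht, -, htc⟩ := hA1 L hf (m + 1) hM {v} hvL (Finset.singleton_nonempty v)
    have h1 : dD L e x ∅ t = 0 := by
      rw [dD_empty, neg_eq_zero]
      refine Finset.sum_eq_zero fun a ha => ?_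
      obtain ⟨-, hat⟩ := h61_out ha
      have : x ∅ (insert a t) = 0 := by
        by_contra hc
        have h2 := ((hx ∅ (insert a t)).1 hc).2.1
        rw [Finset.empty_union] at h2
        have h3 := (hA1 L hf (m + 1) hM _ h2 (Finset.insert_nonempty a t)).1
        rw [Finset.card_insert_of_notMem hat, htc] at h3
        omega
      rw [this, smul_zero]
    rw [hcap] at h1
    have h2 : ((-1 : ℝ) ^ (((∅ : Finset ℕ).card + 1) * t.card) * sgg ∅ t * oF o (∅ ∪ t)) ≠ 0 := by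
      refine mul_ne_zero (mul_ne_zero (pow_ne_zero _ (by norm_num)) ?_) ?_
      · simp [sgg]
      · rw [Finset.empty_union]
        exact h61_oF_ne ho ht htc
    exact (smul_eq_zero.1 h1).resolve_left h2
  refine ⟨hcr, funext fun u => ?_⟩
  have h1 := hcap u
  rw [hφ, smul_zero, dD_empty, neg_eq_zero] at h1
  exact h1

/-- part (b) -/
theorem partB (hA5 : S_A5) (hf : FlagC L) (hv : (verts L).Nonempty) (m : ℕ)
    (hM : IsHMfd L (m + 1)) (o : (Fin (m + 1) → ℕ) → ℤ) (ho : IsOrient L (m + 1) o)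
    (he : IdemSys L N e) (φ : Finset ℕ → N) (hφ : IsCC L e φ) (hdφ : dC L e φ = 0)
    (x : Finset ℕ → Finset ℕ → N) (hx : IsDD L e (verts L) x) (hdx : dD L e x = capU φ (oF o))
    (y : Finset ℕ → N) (hy : y ∈ CR L N) (hxy : bdN L ∅ y = x ∅) :
    ∃ ψ, IsCC L e ψ ∧ dC L e ψ = φ := by
  have h1 := itemB1 L hf N e he (verts L) (ins y) (isDD_ins hy)
  refine hA5 L hf hv (m + 1) hM o ho N e he φ hφ hdφ (x + dD L e (ins y))
    (B9.isDD_add hx h1.1) ?_ ?_
  · intro u
    rw [Pi.add_apply, Pi.add_apply, dD_empty, ins_empty, hxy, add_neg_cancel]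
  · have h2 : dD L e (x + dD L e (ins y)) = dD L e x + dD L e (dD L e (ins y)) :=
      (B9.dDl L e).map_add _ _
    rw [h2, h1.2, add_zero, hdx]

/-- finite dimension -/
theorem fin_CR [FiniteDimensional ℝ N] : FiniteDimensional ℝ (CR L N) := by
  let r : CR L N →ₗ[ℝ] (↥L → N) :=
    { toFun := fun y σ => (y : Finset ℕ → N) σ
      map_add' := fun _ _ => rfl
      map_smul' := fun _ _ => rfl }
  refine Module.Finite.of_injective r ?_
  intro y y' h
  apply Subtype.ext
  funext u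
  by_cases hu : u ∈ L
  · exact congrFun h ⟨u, hu⟩
  · have h1 : (y : Finset ℕ → N) u = 0 := by
      by_contra hc
      exact hu (y.2 u hc)
    have h2 : (y' : Finset ℕ → N) u = 0 := by
      by_contra hc
      exact hu (y'.2 u hc)
    rw [h1, h2]

theorem CC_le_CR : CC L e ≤ CR L N := fun _ hφ s h => (hφ s).1 h

end

/-- linear algebra -/
theorem linalg {E F : Type} [AddCommGroup E] [Module ℝ E] [AddCommGroup F] [Module ℝ F]
    (Z B : Submodule ℝ E) (ZR BR : Submodule ℝ F) [FiniteDimensional ℝ Z] [FiniteDimensional ℝ B]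
    [FiniteDimensional ℝ ZR] (hBR : BR ≤ ZR) (W : Submodule ℝ (E × F))
    (h1 : ∀ w ∈ W, w.1 ∈ Z ∧ w.2 ∈ ZR) (h2 : ∀ z ∈ Z, ∃ w ∈ W, w.1 = z)
    (h3 : ∀ w ∈ W, w.2 ∈ BR → w.1 ∈ B) :
    Module.finrank ℝ Z + Module.finrank ℝ BR ≤ Module.finrank ℝ B + Module.finrank ℝ ZR := by
  let p1 : W →ₗ[ℝ] Z := ((LinearMap.fst ℝ E F).comp W.subtype).codRestrict Z
    fun w => (h1 w w.2).1
  let p2 : W →ₗ[ℝ] ZR := ((LinearMap.snd ℝ E F).comp W.subtype).codRestrict ZR
    fun w => (h1 w w.2).2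
  have hs : Function.Surjective p1 := by
    intro z
    obtain ⟨w, hw, hwz⟩ := h2 z z.2
    exact ⟨⟨w, hw⟩, Subtype.ext hwz⟩
  obtain ⟨g, hg⟩ := p1.exists_rightInverse_of_surjective (LinearMap.range_eq_top.2 hs)
  let BR' : Submodule ℝ ZR := BR.comap ZR.subtype
  let τ : Z →ₗ[ℝ] (ZR ⧸ BR') := BR'.mkQ.comp (p2.comp g)
  have hk : (LinearMap.ker τ).map Z.subtype ≤ B := by
    rintro _ ⟨z, hz, rfl⟩
    have hz1 : p2 (g z) ∈ BR' := by
      have : BR'.mkQ (p2 (g z)) = 0 := hz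
      rwa [Submodule.mkQ_apply, Submodule.Quotient.mk_eq_zero] at this
    have hz2 := h3 (g z) (g z).2 hz1
    have hz3 : p1 (g z) = z := LinearMap.congr_fun hg z
    have hz4 : (g z : E × F).1 = (z : E) := congrArg Subtype.val hz3
    rw [hz4] at hz2
    exact hz2
  have e1 : Module.finrank ℝ (LinearMap.ker τ) =
      Module.finrank ℝ ((LinearMap.ker τ).map Z.subtype) :=
    (Submodule.equivMapOfInjective Z.subtype Z.injective_subtype (LinearMap.ker τ)).finrank_eq
  have e2 := Submodule.finrank_mono hk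
  have e3 := LinearMap.finrank_range_add_finrank_ker τ
  have e4 := Submodule.finrank_le (LinearMap.range τ)
  have e5 := Submodule.finrank_quotient_add_finrank BR'
  have e6 : Module.finrank ℝ BR' = Module.finrank ℝ BR :=
    (Submodule.comapSubtypeEquivOfLe hBR).finrank_eq
  omega

theorem prf (hA1 : S_A1) (hA5 : S_A5) (hA6 : S_A6') : S_A7 := by
  intro L hf hv m hM o ho hb N _ _ _ e he
  have hfR : FiniteDimensional ℝ (CR L N) := fin_CR
  have hfC : FiniteDimensional ℝ (CC L e) := Submodule.finiteDimensional_of_le CC_le_CR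
  have hfZ : FiniteDimensional ℝ
      (CC L e ⊓ LinearMap.ker (dCl L e) : Submodule ℝ (Finset ℕ → N)) :=
    Submodule.finiteDimensional_of_le inf_le_left
  have hfZR : FiniteDimensional ℝ
      (CR L N ⊓ LinearMap.ker (bNl L N) : Submodule ℝ (Finset ℕ → N)) :=
    Submodule.finiteDimensional_of_le inf_le_left
  have hBR : (CR L N).map (bNl L N) ≤
      (CR L N ⊓ LinearMap.ker (bNl L N) : Submodule ℝ (Finset ℕ → N)) := by
    rintro _ ⟨y, hy, rfl⟩
    exact ⟨(bd_bd hf he hy).1, (bd_bd hf he hy).2⟩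
  let W : Submodule ℝ ((Finset ℕ → N) × (Finset ℕ → N)) :=
    { carrier := {w | (IsCC L e w.1 ∧ dC L e w.1 = 0) ∧ ∃ x, IsDD L e (verts L) x ∧
        dD L e x = capU w.1 (oF o) ∧ x ∅ = w.2}
      add_mem' := by
        rintro w w' ⟨⟨h1, h2⟩, x, h3, h4, h5⟩ ⟨⟨h1', h2'⟩, x', h3', h4', h5'⟩
        refine ⟨⟨(CC L e).add_mem h1 h1', ?_⟩, x + x', B9.isDD_add h3 h3', ?_, ?_⟩
        · have := (dCl L e).map_add w.1 w'.1
          have h6 : dC L e (w.1 + w'.1) = dC L e w.1 + dC L e w'.1 := this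
          rw [Prod.fst_add, h6, h2, h2', add_zero]
        · have h6 : dD L e (x + x') = dD L e x + dD L e x' := (B9.dDl L e).map_add _ _
          have h7 : capU (w.1 + w'.1) (oF o) = capU w.1 (oF o) + capU w'.1 (oF o) :=
            (capc (oF o)).map_add _ _
          rw [h6, Prod.fst_add, h7, h4, h4']
        · rw [Pi.add_apply, h5, h5', Prod.snd_add]
      zero_mem' := by
        refine ⟨⟨(CC L e).zero_mem, (dCl L e).map_zero⟩, 0, B9.isDD_zero _, ?_, rfl⟩
        have h6 : dD L e (0 : Finset ℕ → Finset ℕ → N) = 0 := (B9.dDl L e).map_zero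
        have h7 : capU (0 : Finset ℕ → N) (oF o) = 0 := (capc (oF o)).map_zero
        rw [h6]
        exact h7.symm
      smul_mem' := by
        rintro r w ⟨⟨h1, h2⟩, x, h3, h4, h5⟩
        refine ⟨⟨(CC L e).smul_mem r h1, ?_⟩, r • x, B9.isDD_smul r h3, ?_, ?_⟩
        · have h6 : dC L e (r • w.1) = r • dC L e w.1 := (dCl L e).map_smul r w.1
          rw [Prod.smul_fst, h6, h2, smul_zero]
        · have h6 : dD L e (r • x) = r • dD L e x := (B9.dDl L e).map_smul r x
          have h7 : capU (r • w.1) (oF o) = r • capU w.1 (oF o) := (capc (oF o)).map_smul r w.1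
          rw [h6, Prod.smul_fst, h7, h4]
        · rw [Pi.smul_apply, h5, Prod.smul_snd] }
  refine linalg _ _ _ _ hBR W ?_ ?_ ?_
  · rintro w ⟨⟨h1, h2⟩, x, h3, h4, h5⟩
    have h6 := partA hA1 hf hv m hM o ho w.1 x h3 h4
    rw [h5] at h6
    exact ⟨⟨h1, h2⟩, h6⟩
  · rintro z ⟨h1, h2⟩
    obtain ⟨x, hx, hdx⟩ := hA6 L hf m o ho hb N e he z h1 h2
    exact ⟨(z, x ∅), ⟨⟨h1, h2⟩, x, hx, hdx, rfl⟩, rfl⟩
  · rintro w ⟨⟨h1, h2⟩, x, h3, h4, h5⟩ ⟨y, hy, hyw⟩
    obtain ⟨ψ, hψ, hdψ⟩ := partB hA5 hf hv m hM o ho he w.1 h1 h2 x h3 h4 y hy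
      (by rw [h5]; exact hyw)
    exact ⟨ψ, hψ, hdψ⟩

end MP8a95ee.Ref.A7P
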