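import Pool.Agent.Work.MP_8a95ee_gt.Ref.Stmts

/-!
# Item A8: homology with coefficients
-/

set_option autoImplicit false

namespace MP8a95ee.Ref.A8P

open RA

/-- rank and nullity for submodules -/
lemma rn {M M' : Type} [AddCommGroup M] [Module ℝ M] [AddCommGroup M'] [Module ℝ M']
    (P : Submodule ℝ M) [FiniteDimensional ℝ P] (f : M →ₗ[ℝ] M') :
    Module.finrank ℝ (P.map f) + Module.finrank ℝ (P ⊓ LinearMap.ker f : Submodule ℝ M) =
      Module.finrank ℝ P := by
  have h := LinearMap.finrank_range_add_finrank_ker (f.domRestrict P)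
  rw [LinearMap.range_domRestrict] at h
  rw [← h]
  congr 1
  rw [LinearMap.ker_domRestrict, ← Submodule.map_comap_subtype,
    Submodule.finrank_map_subtype_eq]

lemma fin_CR (L : Finset (Finset ℕ)) (N : Type) [AddCommGroup N] [Module ℝ N]
    [FiniteDimensional ℝ N] : FiniteDimensional ℝ (CR L N) := by
  let r : CR L N →ₗ[ℝ] (L → N) :=
    { toFun := fun y u => y.1 u
      map_add' := fun _ _ => rfl
      map_smul' := fun _ _ => rfl }
  refine Module.Finite.of_injective r ?_
  intro x y h
  apply Subtype.ext
  funext u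
  by_cases hu : u ∈ L
  · exact congrFun h ⟨u, hu⟩
  · have hx : x.1 u = 0 := by
      by_contra h'
      exact hu (x.2 u h')
    have hy : y.1 u = 0 := by
      by_contra h'
      exact hu (y.2 u h')
    rw [hx, hy]

/-- the evaluation at the empty set -/
def ev : (Finset ℕ → ℝ) →ₗ[ℝ] ℝ where
  toFun := fun y => y ∅
  map_add' := fun _ _ => rfl
  map_smul' := fun _ _ => rfl

/-- the restriction to the nonempty sets -/
def pr : (Finset ℕ → ℝ) →ₗ[ℝ] (Finset ℕ → ℝ) where
  toFun := fun y t => if t.Nonempty then y t else 0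
  map_add' := fun x y => by
    funext t
    by_cases ht : t.Nonempty
    · simp only [if_pos ht, Pi.add_apply]
    · simp only [if_neg ht, Pi.add_apply, add_zero]
  map_smul' := fun r x => by
    funext t
    by_cases ht : t.Nonempty
    · simp only [if_pos ht, Pi.smul_apply, RingHom.id_apply]
    · simp only [if_neg ht, Pi.smul_apply, smul_zero, RingHom.id_apply]

lemma cu_eq (L : Finset (Finset ℕ)) : CR L ℝ ⊓ LinearMap.ker ev = Cu L := by
  ext y
  rw [Submodule.mem_inf, LinearMap.mem_ker]
  constructor
  · rintro ⟨h1, h2⟩ u hu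
    refine ⟨h1 u hu, ?_⟩
    by_contra h'
    rw [Finset.not_nonempty_iff_eq_empty] at h'
    subst h'
    exact hu h2
  · intro h
    refine ⟨fun u hu => (h u hu).1, ?_⟩
    by_contra h'
    have := (h ∅ h').2
    simp at this

lemma dim1 (L : Finset (Finset ℕ)) :
    Module.finrank ℝ (CR L ℝ) ≤ Module.finrank ℝ (Cu L) + 1 := by
  have := fin_CR L ℝ
  have h := rn (CR L ℝ) ev
  rw [cu_eq] at h
  have h2 : Module.finrank ℝ ((CR L ℝ).map ev) ≤ 1 := by
    have := Submodule.finrank_le ((CR L ℝ).map ev)
    rwa [Module.finrank_self] at this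
  omega

lemma pr_bN (L : Finset (Finset ℕ)) (y : Finset ℕ → ℝ) : pr (bNl L ℝ y) = bdu L y := by
  funext t
  show (if t.Nonempty then bdN L ∅ y t else 0) =
    (if t.Nonempty then ∑ a ∈ verts L \ t, RA.sg a t * y (insert a t) else 0)
  unfold bdN
  simp only [Finset.empty_union, smul_eq_mul]

lemma dim2 (L : Finset (Finset ℕ)) (hL : (verts L).Nonempty) (hF : FlagC L) :
    Module.finrank ℝ ((Cu L).map (bdu L)) + 1 ≤
      Module.finrank ℝ ((CR L ℝ).map (bNl L ℝ)) := by
  have hfin := fin_CR L ℝ
  have hfin2 : FiniteDimensional ℝ ((CR L ℝ).map (bNl L ℝ)) := inferInstance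
  have h := rn ((CR L ℝ).map (bNl L ℝ)) pr
  have h1 : (Cu L).map (bdu L) ≤ ((CR L ℝ).map (bNl L ℝ)).map pr := by
    rintro _ ⟨y, hy, rfl⟩
    refine ⟨bNl L ℝ y, ⟨y, fun u hu => (hy u hu).1, rfl⟩, ?_⟩
    exact pr_bN L y
  have h2 := Submodule.finrank_mono h1
  obtain ⟨v, hv⟩ := hL
  have hvL : ({v} : Finset ℕ) ∈ L := by
    unfold verts at hv
    rw [Finset.mem_biUnion] at hv
    obtain ⟨σ, hσ, hvσ⟩ := hv
    have := (hF σ).1 hσ v hvσ v hvσ
    simpa using this
  set y : Finset ℕ → ℝ := Pi.single {v} 1 with hy
  have hyC : y ∈ CR L ℝ := by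
    intro u hu
    by_cases h' : u = {v}
    · rw [h']; exact hvL
    · exact absurd (by rw [hy]; exact Pi.single_eq_of_ne h' _) hu
  have hb0 : bNl L ℝ y ∅ = 1 := by
    show bdN L ∅ y ∅ = 1
    unfold bdN
    simp only [Finset.empty_union, smul_eq_mul, Finset.sdiff_empty]
    rw [Finset.sum_eq_single v]
    · simp [hy, RA.sg]
    · intro a _ hav
      have : (insert a ∅ : Finset ℕ) ≠ {v} := by
        intro h'
        apply hav
        have : a ∈ ({v} : Finset ℕ) := by rw [← h']; simp
        simpa using this
      rw [hy, Pi.single_eq_of_ne this, mul_zero]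
    · intro h'
      exact absurd (by unfold verts; exact Finset.mem_biUnion.2 ⟨{v}, hvL, by simp⟩) h'
  have hb1 : ∀ t : Finset ℕ, t.Nonempty → bNl L ℝ y t = 0 := by
    intro t ht
    show bdN L ∅ y t = 0
    unfold bdN
    apply Finset.sum_eq_zero
    intro a ha
    have hat : a ∉ t := by
      simp only [Finset.empty_union, Finset.mem_sdiff] at ha
      exact ha.2
    have : (insert a t : Finset ℕ) ≠ {v} := by
      intro h'
      have hc := congrArg Finset.card h'
      rw [Finset.card_insert_of_notMem hat, Finset.card_singleton] at hc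
      have := ht.card_pos
      omega
    rw [hy, Pi.single_eq_of_ne this, smul_zero]
  have h3 : 1 ≤ Module.finrank ℝ
      (((CR L ℝ).map (bNl L ℝ)) ⊓ LinearMap.ker pr : Submodule ℝ (Finset ℕ → ℝ)) := by
    have hfin3 : FiniteDimensional ℝ
      (((CR L ℝ).map (bNl L ℝ)) ⊓ LinearMap.ker pr : Submodule ℝ (Finset ℕ → ℝ)) := inferInstance
    rw [Nat.one_le_iff_ne_zero, ← Nat.pos_iff_ne_zero, Module.finrank_pos_iff]
    refine ⟨⟨⟨bNl L ℝ y, ⟨⟨y, hyC, rfl⟩, ?_⟩⟩, 0, ?_⟩⟩
    · rw [SetLike.mem_coe, LinearMap.mem_ker]
      funext t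
      show (if t.Nonempty then bNl L ℝ y t else 0) = 0
      split_ifs with ht
      · exact hb1 t ht
      · rfl
    · intro h'
      have h4 := congrArg (fun z => z.1 ∅) h'
      simp only at h4
      rw [hb0] at h4
      exact one_ne_zero h4
  omega

/-- the real case -/
lemma real_case (L : Finset (Finset ℕ)) (hL : (verts L).Nonempty) (hF : FlagC L) :
    Module.finrank ℝ (CR L ℝ ⊓ LinearMap.ker (bNl L ℝ) : Submodule ℝ (Finset ℕ → ℝ)) ≤
      Module.finrank ℝ ((CR L ℝ).map (bNl L ℝ)) + betti L := by
  have hfin := fin_CR L ℝ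
  have hfinu : FiniteDimensional ℝ (Cu L) := by
    have : FiniteDimensional ℝ (CR L ℝ ⊓ LinearMap.ker ev : Submodule ℝ (Finset ℕ → ℝ)) :=
      inferInstance
    rwa [cu_eq] at this
  have h1 := rn (CR L ℝ) (bNl L ℝ)
  have h2 := rn (Cu L) (bdu L)
  have h3 := dim1 L
  have h4 := dim2 L hL hF
  unfold betti
  omega

theorem prf : S_A8 := by
  intro L hF hL N _ _ _
  have hfinR := fin_CR L ℝ
  have hfinN := fin_CR L N
  obtain ⟨d, hd⟩ : ∃ d, d = Module.finrank ℝ N := ⟨_, rfl⟩
  let b : Module.Basis (Fin (Module.finrank ℝ N)) ℝ N := Module.finBasis ℝ N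
  have hcomm : ∀ (y : Finset ℕ → N) (i : Fin (Module.finrank ℝ N)) (u : Finset ℕ),
      b.coord i (bNl L N y u) = bNl L ℝ (fun u => b.coord i (y u)) u := by
    intro y i u
    show b.coord i (bdN L ∅ y u) = bdN L ∅ (fun u => b.coord i (y u)) u
    unfold bdN
    rw [map_sum]
    simp only [map_smul]
  -- injection of the cycles
  have h1 : Module.finrank ℝ (CR L N ⊓ LinearMap.ker (bNl L N) : Submodule ℝ (Finset ℕ → N)) ≤
      Module.finrank ℝ N *
        Module.finrank ℝ (CR L ℝ ⊓ LinearMap.ker (bNl L ℝ) : Submodule ℝ (Finset ℕ → ℝ)) := by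
    let F : (CR L N ⊓ LinearMap.ker (bNl L N) : Submodule ℝ (Finset ℕ → N)) →ₗ[ℝ]
        (Fin (Module.finrank ℝ N) →
          (CR L ℝ ⊓ LinearMap.ker (bNl L ℝ) : Submodule ℝ (Finset ℕ → ℝ))) :=
      { toFun := fun y i => ⟨fun u => b.coord i (y.1 u), by
          refine ⟨?_, ?_⟩
          · intro u hu
            apply y.2.1 u
            intro h'
            exact hu (by simp only; rw [h', map_zero])
          · rw [SetLike.mem_coe, LinearMap.mem_ker]
            funext u
            rw [← hcomm]
            have h0 : bNl L N y.1 = 0 := y.2.2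
            rw [h0]
            simp⟩
        map_add' := fun x y => by
          funext i
          apply Subtype.ext
          funext u
          simp
        map_smul' := fun r x => by
          funext i
          apply Subtype.ext
          funext u
          simp }
    have hF : Function.Injective F := by
      intro x y hxy
      apply Subtype.ext
      funext u
      apply b.ext_elem
      intro i
      have h2 := congrArg (fun z => (z i).1 u) hxy
      exact h2
    have h2 := LinearMap.finrank_le_finrank_of_injective hF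
    rw [Module.finrank_pi_fintype] at h2
    simpa using h2
  -- injection of the boundaries
  have h2 : Module.finrank ℝ N * Module.finrank ℝ ((CR L ℝ).map (bNl L ℝ)) ≤
      Module.finrank ℝ ((CR L N).map (bNl L N)) := by
    let F : (Fin (Module.finrank ℝ N) → (CR L ℝ).map (bNl L ℝ)) →ₗ[ℝ] (CR L N).map (bNl L N) :=
      { toFun := fun z => ⟨fun u => ∑ i, (z i).1 u • b i, by
          have hz : ∀ i, ∃ y, y ∈ CR L ℝ ∧ bNl L ℝ y = (z i).1 := fun i => (z i).2
          choose y hy1 hy2 using hz
          refine ⟨fun u => ∑ i, y i u • b i, ?_, ?_⟩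
          · intro u hu
            by_contra h'
            apply hu
            apply Finset.sum_eq_zero
            intro i _
            have : y i u = 0 := by
              by_contra h''
              exact h' (hy1 i u h'')
            rw [this, zero_smul]
          · funext u
            show bdN L ∅ (fun u => ∑ i, y i u • b i) u = _
            unfold bdN
            have e1 : ∀ i, (z i).1 u = ∑ a ∈ verts L \ (∅ ∪ u), sg a u • y i (insert a u) := by
              intro i
              rw [← hy2 i]
              rfl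
            simp only [e1, Finset.sum_smul, Finset.smul_sum]
            rw [Finset.sum_comm]
            refine Finset.sum_congr rfl fun i _ => Finset.sum_congr rfl fun a _ => ?_
            rw [smul_smul, smul_eq_mul]⟩
        map_add' := fun x y => by
          apply Subtype.ext
          funext u
          simp [add_smul, Finset.sum_add_distrib]
        map_smul' := fun r x => by
          apply Subtype.ext
          funext u
          simp [Finset.smul_sum, mul_smul] }
    have hF : Function.Injective F := by
      intro x y hxy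
      funext i
      apply Subtype.ext
      funext u
      have h3 : ∑ i, (x i).1 u • b i = ∑ i, (y i).1 u • b i :=
        congrArg (fun z => z.1 u) hxy
      have h4 := congrArg (fun w => b.repr w i) h3
      simpa [map_sum, Finsupp.single_apply] using h4
    have h2 := LinearMap.finrank_le_finrank_of_injective hF
    rw [Module.finrank_pi_fintype] at h2
    simpa using h2
  have h3 := real_case L hL hF
  have h4 := Nat.mul_le_mul_left (Module.finrank ℝ N) h3
  rw [Nat.mul_add] at h4
  omega

end MP8a95ee.Ref.A8P
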