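import Pool.Agent.Work.MP_8a95ee_gt.Bd.B12

/-!
# Item B2: coverings of homology manifolds are homology manifolds
-/

set_option autoImplicit false

namespace MP8a95ee.Ref.B2P

open RA
open B1P (mem_sub mem_verts mem_pre part_lift)

/-- the two clauses of `IsHMfd` -/
def Cl (L : Finset (Finset ℕ)) (s : Finset ℕ) (n : ℕ) : Prop :=
  (∀ k, s.card + k ≠ n → ∀ c, LkChain L s k c → bdS L c = 0 →
      ∃ c', LkChain L s (k + 1) c' ∧ bdS L c' = c) ∧
    (∀ k, s.card + k = n → ∃ z, LkChain L s k z ∧ bdS L z = 0 ∧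
      (¬ ∃ c', LkChain L s (k + 1) c' ∧ bdS L c' = z) ∧
      ∀ c, LkChain L s k c → bdS L c = 0 →
        ∃ (lam : ℝ) (c' : Finset ℕ → ℝ), LkChain L s (k + 1) c' ∧ c = lam • z + bdS L c')

/-- transport of the clauses along an isomorphism of chain complexes -/
theorem transport (L L' : Finset (Finset ℕ)) (s s' : Finset ℕ) (n : ℕ) (hcard : s'.card = s.card)
    (F G : (Finset ℕ → ℝ) → (Finset ℕ → ℝ))
    (hFadd : ∀ x y, F (x + y) = F x + F y) (hFsmul : ∀ (r : ℝ) x, F (r • x) = r • F x)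
    (hF0 : F 0 = 0) (hG0 : G 0 = 0)
    (hFk : ∀ k c, LkChain L s k c → LkChain L' s' k (F c))
    (hGk : ∀ k c, LkChain L' s' k c → LkChain L s k (G c))
    (hGF : ∀ k c, LkChain L s k c → G (F c) = c)
    (hFG : ∀ k c, LkChain L' s' k c → F (G c) = c)
    (hFb : ∀ k c, LkChain L s k c → bdS L' (F c) = F (bdS L c))
    (hGb : ∀ k c, LkChain L' s' k c → bdS L (G c) = G (bdS L' c))
    (h : Cl L s n) : Cl L' s' n := by
  refine ⟨fun k hk c hc hb => ?_, fun k hk => ?_⟩
  · have h1 : bdS L (G c) = 0 := by rw [hGb k c hc, hb, hG0]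
    obtain ⟨y, hy, hyb⟩ := h.1 k (by rw [← hcard]; exact hk) (G c) (hGk k c hc) h1
    exact ⟨F y, hFk _ y hy, by rw [hFb _ y hy, hyb, hFG k c hc]⟩
  · obtain ⟨z, hz, hzb, hzn, hzc⟩ := h.2 k (by rw [← hcard]; exact hk)
    refine ⟨F z, hFk k z hz, by rw [hFb k z hz, hzb, hF0], ?_, ?_⟩
    · rintro ⟨y, hy, hyb⟩
      exact hzn ⟨G y, hGk _ y hy, by rw [hGb _ y hy, hyb, hGF k z hz]⟩
    · intro c hc hb
      have h1 : bdS L (G c) = 0 := by rw [hGb k c hc, hb, hG0]
      obtain ⟨lam, y, hy, hyc⟩ := hzc (G c) (hGk k c hc) h1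
      refine ⟨lam, F y, hFk _ y hy, ?_⟩
      rw [hFb _ y hy, ← hFsmul, ← hFadd, ← hyc, hFG k c hc]

/-! ### signs -/

/-- sign of a pair -/
noncomputable def gg (π : ℕ → ℕ) (b c : ℕ) : ℝ := if b < c then (if π b < π c then 1 else -1) else 1

/-- sign of `π` on `t` -/
noncomputable def ep (π : ℕ → ℕ) (t : Finset ℕ) : ℝ := ∏ b ∈ t, ∏ c ∈ t, gg π b c

lemma gg_self (π : ℕ → ℕ) (b : ℕ) : gg π b b = 1 := by
  unfold gg
  rw [if_neg (lt_irrefl b)]

lemma gg_sq (π : ℕ → ℕ) (b c : ℕ) : gg π b c * gg π b c = 1 := by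
  unfold gg
  split_ifs <;> norm_num

lemma ep_sq (π : ℕ → ℕ) (t : Finset ℕ) : ep π t * ep π t = 1 := by
  unfold ep
  rw [← Finset.prod_mul_distrib]
  apply Finset.prod_eq_one
  intro b _
  rw [← Finset.prod_mul_distrib]
  apply Finset.prod_eq_one
  intro c _
  exact gg_sq π b c

lemma sg_prod (a : ℕ) (t : Finset ℕ) : sg a t = ∏ b ∈ t, (if b < a then (-1 : ℝ) else 1) := by
  unfold sg
  rw [Finset.prod_ite, Finset.prod_const, Finset.prod_const_one, mul_one]

lemma sg_sq (a : ℕ) (t : Finset ℕ) : sg a t * sg a t = 1 := by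
  unfold sg
  rw [← pow_add, ← two_mul, pow_mul]
  norm_num

lemma ep_insert (π : ℕ → ℕ) (a : ℕ) (t : Finset ℕ) (ha : a ∉ t)
    (hinj : Set.InjOn π ((insert a t : Finset ℕ) : Set ℕ)) :
    sg a t * ep π (insert a t) = ep π t * sg (π a) (t.image π) := by
  have e1 : ep π (insert a t) = (∏ c ∈ t, gg π a c) * ((∏ b ∈ t, gg π b a) * ep π t) := by
    unfold ep
    rw [Finset.prod_insert ha, Finset.prod_insert ha, gg_self, one_mul]
    congr 1
    rw [← Finset.prod_mul_distrib]
    apply Finset.prod_congr rfl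
    intro b _
    rw [Finset.prod_insert ha]
  have hinjt : Set.InjOn π (t : Set ℕ) := hinj.mono (by
    intro x hx
    rw [Finset.mem_coe] at hx ⊢
    exact Finset.mem_insert_of_mem hx)
  have e2 : sg (π a) (t.image π) = ∏ b ∈ t, (if π b < π a then (-1 : ℝ) else 1) := by
    rw [sg_prod, Finset.prod_image hinjt]
  rw [e1, e2, sg_prod]
  have e3 : (∏ b ∈ t, (if b < a then (-1 : ℝ) else 1)) *
      ((∏ c ∈ t, gg π a c) * ((∏ b ∈ t, gg π b a) * ep π t)) =
      ep π t * ∏ b ∈ t, ((if b < a then (-1 : ℝ) else 1) * (gg π a b * gg π b a)) := by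
    rw [Finset.prod_mul_distrib, Finset.prod_mul_distrib]
    ring
  rw [e3]
  congr 1
  apply Finset.prod_congr rfl
  intro b hb
  have hab : a ≠ b := fun h => ha (h ▸ hb)
  have hne : π a ≠ π b := fun h => hab (hinj (by simp) (by simp [hb]) h)
  unfold gg
  rcases lt_or_gt_of_ne hab with h | h
  · rw [if_neg (not_lt.mpr h.le), if_pos h, if_neg (not_lt.mpr h.le)]
    rcases lt_or_gt_of_ne hne with h' | h'
    · rw [if_pos h', if_neg (not_lt.mpr h'.le)]
      norm_num
    · rw [if_neg (not_lt.mpr h'.le), if_pos h']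
      norm_num
  · rw [if_pos h, if_neg (not_lt.mpr h.le), if_pos h]
    rcases lt_or_gt_of_ne hne with h' | h'
    · norm_num [h'.le]
    · norm_num [h']

/-! ### faces of the links -/

/-- the faces of the link of `s` -/
def A (L : Finset (Finset ℕ)) (s : Finset ℕ) : Finset (Finset ℕ) :=
  L.filter fun t => Disjoint s t ∧ s ∪ t ∈ L

lemma mem_A {L : Finset (Finset ℕ)} {s t : Finset ℕ} :
    t ∈ A L s ↔ t ∈ L ∧ Disjoint s t ∧ s ∪ t ∈ L := by
  unfold A
  rw [Finset.mem_filter]

lemma lk_iff {L : Finset (Finset ℕ)} {s : Finset ℕ} {k : ℕ} {c : Finset ℕ → ℝ} :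
    LkChain L s k c ↔ ∀ t, c t ≠ 0 → t ∈ A L s ∧ t.card = k := by
  unfold LkChain
  constructor
  · intro h t ht
    obtain ⟨h1, h2, h3, h4⟩ := h t ht
    exact ⟨mem_A.mpr ⟨h1, h2, h3⟩, h4⟩
  · intro h t ht
    obtain ⟨h1, h2⟩ := h t ht
    rw [mem_A] at h1
    exact ⟨h1.1, h1.2.1, h1.2.2, h2⟩

lemma cx_sub {K : Finset (Finset ℕ)} (hK : IsCx K) (V : Finset ℕ) : IsCx (sub K V) := by
  refine ⟨mem_sub.mpr ⟨hK.1, Finset.empty_subset _⟩, fun σ hσ τ hτ => ?_⟩
  rw [mem_sub] at hσ ⊢
  exact ⟨hK.2 σ hσ.1 τ hτ, hτ.trans hσ.2⟩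

lemma A_down {L : Finset (Finset ℕ)} (hL : IsCx L) {s t u : Finset ℕ} (ht : t ∈ A L s)
    (hu : u ⊆ t) : u ∈ A L s := by
  rw [mem_A] at ht ⊢
  exact ⟨hL.2 t ht.1 u hu, Finset.disjoint_of_subset_right hu ht.2.1,
    hL.2 _ ht.2.2 _ (Finset.union_subset_union_right hu)⟩

section cover

variable {K K' : Finset (Finset ℕ)} {π : ℕ → ℕ} {d : ℕ} {V : Finset ℕ}

lemma image_sub (hc : IsCover K K' π d) {σ' : Finset ℕ} (h : σ' ∈ sub K' (pre K' π V)) :
    σ'.image π ∈ sub K V := by
  rw [mem_sub] at h ⊢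
  refine ⟨(hc.simp _ h.1).1, ?_⟩
  intro y hy
  obtain ⟨a, ha, rfl⟩ := Finset.mem_image.mp hy
  exact (mem_pre.mp (h.2 ha)).2

lemma mem_sub_of_image {σ' : Finset ℕ} (h : σ' ∈ K') (h2 : σ'.image π ∈ sub K V) :
    σ' ∈ sub K' (pre K' π V) := by
  rw [mem_sub] at h2 ⊢
  refine ⟨h, fun a ha => mem_pre.mpr ⟨mem_verts.mpr ⟨σ', h, ha⟩, h2.2 (Finset.mem_image_of_mem π ha)⟩⟩

/-- the image of a face of the link -/
lemma image_A (hc : IsCover K K' π d) {s' t' : Finset ℕ}
    (h : t' ∈ A (sub K' (pre K' π V)) s') : t'.image π ∈ A (sub K V) (s'.image π) := by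
  rw [mem_A] at h ⊢
  obtain ⟨h1, h2, h3⟩ := h
  refine ⟨image_sub hc h1, ?_, ?_⟩
  · rw [Finset.disjoint_left]
    intro y hy hy'
    obtain ⟨a, ha, rfl⟩ := Finset.mem_image.mp hy
    obtain ⟨b, hb, hab⟩ := Finset.mem_image.mp hy'
    have hinj := (hc.simp _ (mem_sub.mp h3).1).2
    have hba : b = a := hinj (by simp [hb]) (by simp [ha]) hab
    rw [Finset.disjoint_left] at h2
    exact h2 ha (hba ▸ hb)
  · rw [← Finset.image_union]
    exact image_sub hc h3

lemma card_A (hc : IsCover K K' π d) {s' t' : Finset ℕ}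
    (h : t' ∈ A (sub K' (pre K' π V)) s') : (t'.image π).card = t'.card := by
  rw [mem_A] at h
  exact Finset.card_image_of_injOn (hc.simp _ (mem_sub.mp h.1).1).2

/-- uniqueness of the lifts -/
lemma uniq_A (hc : IsCover K K' π d) {s' t₁ t₂ : Finset ℕ} (hs : s'.Nonempty)
    (h1 : t₁ ∈ A (sub K' (pre K' π V)) s') (h2 : t₂ ∈ A (sub K' (pre K' π V)) s')
    (h : t₁.image π = t₂.image π) : t₁ = t₂ := by
  obtain ⟨w, hw⟩ := hs
  rw [mem_A] at h1 h2
  have hK1 := (mem_sub.mp h1.2.2).1
  have hK2 := (mem_sub.mp h2.2.2).1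
  have hwv : w ∈ verts K' := mem_verts.mpr ⟨_, hK1, Finset.mem_union_left _ hw⟩
  obtain ⟨ρ, -, hρ⟩ := hc.lift w hwv ((s' ∪ t₁).image π) (hc.simp _ hK1).1
    (Finset.mem_image_of_mem π (Finset.mem_union_left _ hw))
  have e1 := hρ (s' ∪ t₁) ⟨hK1, Finset.mem_union_left _ hw, rfl⟩
  have e2 := hρ (s' ∪ t₂) ⟨hK2, Finset.mem_union_left _ hw, by
    rw [Finset.image_union, Finset.image_union, h]⟩
  have e3 : s' ∪ t₁ = s' ∪ t₂ := by rw [e1, e2]
  have e4 : ∀ t : Finset ℕ, Disjoint s' t → (s' ∪ t) \ s' = t := by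
    intro t ht
    rw [Finset.union_sdiff_left, Finset.sdiff_eq_self_of_disjoint ht.symm]
  rw [← e4 t₁ h1.2.1, e3, e4 t₂ h2.2.1]

/-- existence of the lifts -/
lemma ex_A (hc : IsCover K K' π d) {s' t : Finset ℕ} (hs : s'.Nonempty)
    (hs' : s' ∈ sub K' (pre K' π V)) (ht : t ∈ A (sub K V) (s'.image π)) :
    ∃ t' ∈ A (sub K' (pre K' π V)) s', t'.image π = t := by
  obtain ⟨w, hw⟩ := hs
  rw [mem_A] at ht
  obtain ⟨h1, h2, h3⟩ := ht
  have hsK := (mem_sub.mp hs').1
  have hwv : w ∈ verts K' := mem_verts.mpr ⟨_, hsK, hw⟩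
  obtain ⟨ρ, ⟨hρK, hwρ, hρi⟩, -⟩ := hc.lift w hwv (s'.image π ∪ t) (mem_sub.mp h3).1
    (Finset.mem_union_left _ (Finset.mem_image_of_mem π hw))
  -- the part over `s`
  obtain ⟨p1, p2⟩ := part_lift hc hρK (τ := s'.image π) (by
    rw [hρi]
    exact Finset.subset_union_left)
  obtain ⟨p3, p4⟩ := part_lift hc hρK (τ := t) (by
    rw [hρi]
    exact Finset.subset_union_right)
  obtain ⟨ρ', -, hρ'⟩ := hc.lift w hwv (s'.image π) (hc.simp _ hsK).1
    (Finset.mem_image_of_mem π hw)
  have e1 := hρ' s' ⟨hsK, hw, rfl⟩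
  have e2 := hρ' _ ⟨p1, Finset.mem_filter.mpr ⟨hwρ, Finset.mem_image_of_mem π hw⟩, p2⟩
  have e3 : s' = ρ.filter (fun a => π a ∈ s'.image π) := by rw [e2, ← e1]
  have hun : s' ∪ ρ.filter (fun a => π a ∈ t) = ρ := by
    conv_lhs => rw [e3]
    ext a
    rw [Finset.mem_union, Finset.mem_filter, Finset.mem_filter]
    constructor
    · rintro (h | h)
      · exact h.1
      · exact h.1
    · intro ha
      have : π a ∈ s'.image π ∪ t := by
        rw [← hρi]
        exact Finset.mem_image_of_mem π ha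
      rw [Finset.mem_union] at this
      rcases this with h | h
      · left
        exact ⟨ha, h⟩
      · right
        exact ⟨ha, h⟩
  refine ⟨ρ.filter (fun a => π a ∈ t), ?_, p4⟩
  rw [mem_A]
  refine ⟨mem_sub_of_image p3 (by rw [p4]; exact h1), ?_, ?_⟩
  · rw [Finset.disjoint_left]
    intro a ha ha'
    rw [Finset.disjoint_left] at h2
    exact h2 (Finset.mem_image_of_mem π ha) (Finset.mem_filter.mp ha').2
  · rw [hun]
    exact mem_sub_of_image hρK (by rw [hρi]; exact h3)

open Classical in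
/-- the lift of a face of the link -/
noncomputable def gam (K' : Finset (Finset ℕ)) (π : ℕ → ℕ) (V s' t : Finset ℕ) : Finset ℕ :=
  if h : ∃ t' ∈ A (sub K' (pre K' π V)) s', t'.image π = t then h.choose else ∅

lemma gam_spec (hc : IsCover K K' π d) {s' t : Finset ℕ} (hs : s'.Nonempty)
    (hs' : s' ∈ sub K' (pre K' π V)) (ht : t ∈ A (sub K V) (s'.image π)) :
    gam K' π V s' t ∈ A (sub K' (pre K' π V)) s' ∧ (gam K' π V s' t).image π = t := by
  have h := ex_A hc hs hs' ht
  unfold gam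
  rw [dif_pos h]
  exact ⟨h.choose_spec.1, h.choose_spec.2⟩

lemma gam_image (hc : IsCover K K' π d) {s' t' : Finset ℕ} (hs : s'.Nonempty)
    (hs' : s' ∈ sub K' (pre K' π V)) (ht : t' ∈ A (sub K' (pre K' π V)) s') :
    gam K' π V s' (t'.image π) = t' := by
  have h := gam_spec hc hs hs' (image_A hc ht)
  exact uniq_A hc hs h.1 ht h.2

open Classical in
/-- pullback of chains -/
noncomputable def FF (K' : Finset (Finset ℕ)) (π : ℕ → ℕ) (V s' : Finset ℕ)
    (c : Finset ℕ → ℝ) (t' : Finset ℕ) : ℝ :=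
  if t' ∈ A (sub K' (pre K' π V)) s' then ep π t' * c (t'.image π) else 0

open Classical in
/-- push forward of chains -/
noncomputable def GG (K K' : Finset (Finset ℕ)) (π : ℕ → ℕ) (V s' : Finset ℕ)
    (c : Finset ℕ → ℝ) (t : Finset ℕ) : ℝ :=
  if t ∈ A (sub K V) (s'.image π) then
    ep π (gam K' π V s' t) * c (gam K' π V s' t) else 0

lemma FF_lk (hc : IsCover K K' π d) {s' : Finset ℕ} (k : ℕ) (c : Finset ℕ → ℝ)
    (h : LkChain (sub K V) (s'.image π) k c) :
    LkChain (sub K' (pre K' π V)) s' k (FF K' π V s' c) := by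
  rw [lk_iff] at h ⊢
  intro t' ht
  unfold FF at ht
  by_cases hA : t' ∈ A (sub K' (pre K' π V)) s'
  · rw [if_pos hA] at ht
    refine ⟨hA, ?_⟩
    rw [← card_A hc hA]
    exact (h _ (right_ne_zero_of_mul ht)).2
  · rw [if_neg hA] at ht
    exact absurd rfl ht

lemma GG_lk (hc : IsCover K K' π d) {s' : Finset ℕ} (hs : s'.Nonempty)
    (hs' : s' ∈ sub K' (pre K' π V)) (k : ℕ) (c : Finset ℕ → ℝ)
    (h : LkChain (sub K' (pre K' π V)) s' k c) :
    LkChain (sub K V) (s'.image π) k (GG K K' π V s' c) := by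
  rw [lk_iff] at h ⊢
  intro t ht
  unfold GG at ht
  by_cases hA : t ∈ A (sub K V) (s'.image π)
  · rw [if_pos hA] at ht
    refine ⟨hA, ?_⟩
    have h1 := gam_spec hc hs hs' hA
    have h2 := (h _ (right_ne_zero_of_mul ht)).2
    rw [← h2, ← card_A hc h1.1, h1.2]
  · rw [if_neg hA] at ht
    exact absurd rfl ht

lemma GF (hc : IsCover K K' π d) {s' : Finset ℕ} (hs : s'.Nonempty)
    (hs' : s' ∈ sub K' (pre K' π V)) (k : ℕ) (c : Finset ℕ → ℝ)
    (h : LkChain (sub K V) (s'.image π) k c) : GG K K' π V s' (FF K' π V s' c) = c := by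
  rw [lk_iff] at h
  funext t
  unfold GG
  by_cases hA : t ∈ A (sub K V) (s'.image π)
  · rw [if_pos hA]
    have h1 := gam_spec hc hs hs' hA
    unfold FF
    rw [if_pos h1.1, h1.2, ← mul_assoc, ep_sq, one_mul]
  · rw [if_neg hA]
    by_contra hne
    exact hA (h t (Ne.symm hne)).1

lemma FG (hc : IsCover K K' π d) {s' : Finset ℕ} (hs : s'.Nonempty)
    (hs' : s' ∈ sub K' (pre K' π V)) (k : ℕ) (c : Finset ℕ → ℝ)
    (h : LkChain (sub K' (pre K' π V)) s' k c) : FF K' π V s' (GG K K' π V s' c) = c := by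
  rw [lk_iff] at h
  funext t'
  unfold FF
  by_cases hA : t' ∈ A (sub K' (pre K' π V)) s'
  · rw [if_pos hA]
    unfold GG
    rw [if_pos (image_A hc hA), gam_image hc hs hs' hA, ← mul_assoc, ep_sq, one_mul]
  · rw [if_neg hA]
    by_contra hne
    exact hA (h t' (Ne.symm hne)).1

/-- the boundary of a chain supported in the link is supported in the link -/
lemma bd_supp {L : Finset (Finset ℕ)} (hL : IsCx L) {s : Finset ℕ} {c : Finset ℕ → ℝ}
    (h : ∀ t, c t ≠ 0 → t ∈ A L s) (t : Finset ℕ) (ht : bdS L c t ≠ 0) : t ∈ A L s := by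
  unfold bdS at ht
  obtain ⟨a, -, ha⟩ := Finset.exists_ne_zero_of_sum_ne_zero ht
  exact A_down hL (h _ (right_ne_zero_of_mul ha)) (Finset.subset_insert a t)

/-- the pullback commutes with the boundary -/
lemma FF_bd (hc : IsCover K K' π d) {s' : Finset ℕ} (hs : s'.Nonempty)
    (hs' : s' ∈ sub K' (pre K' π V)) (c : Finset ℕ → ℝ)
    (h : ∀ t, c t ≠ 0 → t ∈ A (sub K V) (s'.image π)) :
    bdS (sub K' (pre K' π V)) (FF K' π V s' c) = FF K' π V s' (bdS (sub K V) c) := by
  have hL' : IsCx (sub K' (pre K' π V)) := cx_sub hc.cx _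
  funext t'
  by_cases hA : t' ∈ A (sub K' (pre K' π V)) s'
  · unfold FF
    rw [if_pos hA]
    unfold bdS
    set L' := sub K' (pre K' π V) with hL'def
    set L := sub K V with hLdef
    have hl : ∑ a ∈ verts L' \ t', sg a t' *
        (if insert a t' ∈ A L' s' then ep π (insert a t') * c ((insert a t').image π) else 0) =
        ∑ a ∈ (verts L' \ t').filter (fun a => insert a t' ∈ A L' s'),
          ep π t' * (sg (π a) (t'.image π) * c (insert (π a) (t'.image π))) := by
      rw [Finset.sum_filter]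
      apply Finset.sum_congr rfl
      intro a ha
      rw [Finset.mem_sdiff] at ha
      by_cases hi : insert a t' ∈ A L' s'
      · rw [if_pos hi, if_pos hi]
        have hinj := (hc.simp _ (mem_sub.mp (mem_A.mp hi).1).1).2
        have := ep_insert π a t' ha.2 hinj
        rw [← mul_assoc, this, Finset.image_insert]
        ring
      · rw [if_neg hi, if_neg hi, mul_zero]
    have hr : ∑ x ∈ verts L \ t'.image π, sg x (t'.image π) * c (insert x (t'.image π)) =
        ∑ x ∈ (verts L \ t'.image π).filter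
          (fun x => insert x (t'.image π) ∈ A L (s'.image π)),
          sg x (t'.image π) * c (insert x (t'.image π)) := by
      rw [Finset.sum_filter]
      apply Finset.sum_congr rfl
      intro x _
      by_cases hi : insert x (t'.image π) ∈ A L (s'.image π)
      · rw [if_pos hi]
      · rw [if_neg hi]
        have : c (insert x (t'.image π)) = 0 := by
          by_contra hne
          exact hi (h _ hne)
        rw [this, mul_zero]
    rw [hl, hr, Finset.mul_sum]
    apply Finset.sum_nbij π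
    · intro a ha
      rw [Finset.mem_filter, Finset.mem_sdiff] at ha ⊢
      obtain ⟨⟨ha1, ha2⟩, ha3⟩ := ha
      have hinj := (hc.simp _ (mem_sub.mp (mem_A.mp ha3).1).1).2
      have him := image_A hc ha3
      rw [Finset.image_insert] at him
      refine ⟨⟨mem_verts.mpr ⟨_, (mem_A.mp him).1, Finset.mem_insert_self _ _⟩, ?_⟩, him⟩
      intro hmem
      obtain ⟨b, hb, hab⟩ := Finset.mem_image.mp hmem
      have hba : b = a := hinj (by simp [hb]) (by simp) hab
      exact ha2 (hba ▸ hb)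
    · intro a ha b hb hab
      rw [Finset.mem_coe, Finset.mem_filter, Finset.mem_sdiff] at ha hb
      have e := uniq_A hc hs ha.2 hb.2 (by rw [Finset.image_insert, Finset.image_insert, hab])
      have h1 : a ∈ insert b t' := by
        rw [← e]
        exact Finset.mem_insert_self _ _
      rw [Finset.mem_insert] at h1
      rcases h1 with h1 | h1
      · exact h1
      · exact absurd h1 ha.1.2
    · intro x hx
      rw [Finset.mem_coe, Finset.mem_filter, Finset.mem_sdiff] at hx
      obtain ⟨⟨hx1, hx2⟩, hx3⟩ := hx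
      obtain ⟨u', hu', hu'i⟩ := ex_A hc hs hs' hx3
      have hu'K := (mem_sub.mp (mem_A.mp hu').1).1
      have hinj := (hc.simp _ hu'K).2
      -- the part over `t`
      have hp : (u'.filter (fun a => π a ∈ t'.image π)).image π = t'.image π :=
        (part_lift hc hu'K (τ := t'.image π) (by
          rw [hu'i]
          exact Finset.subset_insert _ _)).2
      have hpA : u'.filter (fun a => π a ∈ t'.image π) ∈ A L' s' :=
        A_down hL' hu' (Finset.filter_subset _ _)
      have hpe := uniq_A hc hs hpA hA hp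
      have htu : t' ⊆ u' := by
        rw [← hpe]
        exact Finset.filter_subset _ _
      have hxim : x ∈ u'.image π := by
        rw [hu'i]
        exact Finset.mem_insert_self _ _
      obtain ⟨a, ha, hax⟩ := Finset.mem_image.mp hxim
      have hat : a ∉ t' := by
        intro hat
        apply hx2
        rw [← hax]
        exact Finset.mem_image_of_mem π hat
      have hins : insert a t' = u' := by
        apply Finset.eq_of_subset_of_card_le
        · exact Finset.insert_subset ha htu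
        · rw [← Finset.card_image_of_injOn hinj, hu'i, Finset.card_insert_of_notMem hx2,
            Finset.card_insert_of_notMem hat]
          have := Finset.card_image_le (s := t') (f := π)
          omega
      refine ⟨a, ?_, hax⟩
      rw [Finset.mem_coe, Finset.mem_filter, Finset.mem_sdiff]
      refine ⟨⟨?_, hat⟩, ?_⟩
      · exact mem_verts.mpr ⟨u', (mem_A.mp hu').1, ha⟩
      · rw [hins]
        exact hu'
    · intro a _
      rfl
  · have h1 : FF K' π V s' (bdS (sub K V) c) t' = 0 := by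
      unfold FF
      rw [if_neg hA]
    rw [h1]
    by_contra hne
    apply hA
    apply bd_supp hL' (c := FF K' π V s' c) _ t' hne
    intro t ht
    unfold FF at ht
    by_contra hA2
    rw [if_neg hA2] at ht
    exact ht rfl

end cover

theorem prf : S_B2' := by
  intro K K' π d V hK hV n hM hc s' hs' hne
  have hL : IsCx (sub K V) := cx_sub hK _
  have hL' : IsCx (sub K' (pre K' π V)) := cx_sub hc.cx _
  have hs : s'.image π ∈ sub K V := image_sub hc hs'
  have hcard : s'.card = (s'.image π).card :=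
    (Finset.card_image_of_injOn (hc.simp _ (mem_sub.mp hs').1).2).symm
  have hGb : ∀ k c, LkChain (sub K' (pre K' π V)) s' k c →
      bdS (sub K V) (GG K K' π V s' c) = GG K K' π V s' (bdS (sub K' (pre K' π V)) c) := by
    intro k c hk
    have h1 := GG_lk hc hne hs' k c hk
    have h2 : ∀ t, GG K K' π V s' c t ≠ 0 → t ∈ A (sub K V) (s'.image π) := fun t ht =>
      (lk_iff.mp h1 t ht).1
    have h3 := FF_bd hc hne hs' _ h2
    rw [FG hc hne hs' k c hk] at h3
    rw [h3]
    funext t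
    unfold GG
    by_cases hA : t ∈ A (sub K V) (s'.image π)
    · rw [if_pos hA]
      have h4 := gam_spec hc hne hs' hA
      unfold FF
      rw [if_pos h4.1, h4.2, ← mul_assoc, ep_sq, one_mul]
    · rw [if_neg hA]
      by_contra hne2
      exact hA (bd_supp hL h2 t hne2)
  exact transport (sub K V) (sub K' (pre K' π V)) (s'.image π) s' n hcard
    (FF K' π V s') (GG K K' π V s')
    (fun x y => by
      funext t
      unfold FF
      simp only [Pi.add_apply]
      split_ifs
      · ring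
      · ring)
    (fun r x => by
      funext t
      unfold FF
      simp only [Pi.smul_apply, smul_eq_mul]
      split_ifs
      · ring
      · ring)
    (by
      funext t
      unfold FF
      simp)
    (by
      funext t
      unfold GG
      simp)
    (FF_lk hc) (GG_lk hc hne hs') (GF hc hne hs') (FG hc hne hs')
    (fun k c hk => FF_bd hc hne hs' c (fun t ht => (lk_iff.mp hk t ht).1)) hGb
    (hM (s'.image π) hs (hne.image π))

end MP8a95ee.Ref.B2P
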