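import Pool.Agent.Work.MP_8a95ee_gt.Ref.Stmts

/-!
# B6: the Euler characteristic of the manifold
-/

set_option autoImplicit false

namespace MP8a95ee.Ref.B6P

open Finset

theorem mem_flags {K : Finset (Finset ℕ)} {F : Finset (Finset ℕ)} :
    F ∈ flags K ↔ (∀ σ ∈ F, σ ∈ K ∧ σ.Nonempty) ∧ F.Nonempty ∧
      ∀ σ ∈ F, ∀ τ ∈ F, σ ⊆ τ ∨ τ ⊆ σ := by
  unfold flags
  rw [mem_filter, mem_powerset]
  constructor
  · rintro ⟨h1, h2, h3⟩
    exact ⟨fun σ hσ => mem_filter.1 (h1 hσ), h2, h3⟩
  · rintro ⟨h1, h2, h3⟩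
    exact ⟨fun σ hσ => mem_filter.2 (h1 σ hσ), h2, h3⟩

theorem sup_mem {F : Finset (Finset ℕ)} (h0 : F.Nonempty)
    (hF : ∀ σ ∈ F, ∀ τ ∈ F, σ ⊆ τ ∨ τ ⊆ σ) : F.sup id ∈ F := by
  obtain ⟨σ, hσ, hmax⟩ := F.exists_max_image card h0
  have : F.sup id = σ := by
    apply le_antisymm
    · apply Finset.sup_le
      intro τ hτ
      rcases hF τ hτ σ hσ with h | h
      · exact h
      · exact (Finset.eq_of_subset_of_card_le h (hmax τ hτ)).ge
    · exact Finset.le_sup (f := id) hσ
  rw [this]; exact hσ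

theorem le_sup' {F : Finset (Finset ℕ)} {σ : Finset ℕ} (h : σ ∈ F) : σ ⊆ F.sup id :=
  Finset.le_sup (f := id) h

/-- chains with union `t` -/
def ch (t : Finset ℕ) : Finset (Finset (Finset ℕ)) :=
  (flags t.powerset).filter fun F => F.sup id = t

theorem mem_ch {t : Finset ℕ} {F : Finset (Finset ℕ)} : F ∈ ch t ↔
    (∀ σ ∈ F, σ.Nonempty) ∧ F.Nonempty ∧ (∀ σ ∈ F, ∀ τ ∈ F, σ ⊆ τ ∨ τ ⊆ σ) ∧
      F.sup id = t := by
  unfold ch
  rw [mem_filter, mem_flags]
  constructor
  · rintro ⟨⟨h1, h2, h3⟩, h4⟩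
    exact ⟨fun σ hσ => (h1 σ hσ).2, h2, h3, h4⟩
  · rintro ⟨h1, h2, h3, h4⟩
    refine ⟨⟨fun σ hσ => ⟨?_, h1 σ hσ⟩, h2, h3⟩, h4⟩
    rw [mem_powerset, ← h4]
    exact le_sup' hσ

/-- the intersection -/
def bot (F : Finset (Finset ℕ)) : Finset ℕ := (F.sup id).filter fun v => ∀ σ ∈ F, v ∈ σ

/-- the signed sum over the chains with union `t` -/
def G (f : Finset ℕ → ℚ) (t : Finset ℕ) : ℚ := ∑ F ∈ ch t, (-1 : ℚ) ^ (F.card + 1) * f (bot F)

/-- nonempty proper subsets -/
def pr (t : Finset ℕ) : Finset (Finset ℕ) := t.ssubsets.filter fun r => r.Nonempty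

theorem mem_pr {t r : Finset ℕ} : r ∈ pr t ↔ r ⊂ t ∧ r.Nonempty := by
  unfold pr
  rw [mem_filter, mem_ssubsets]

theorem G_rec (f : Finset ℕ → ℚ) (t : Finset ℕ) (ht : t.Nonempty) :
    G f t = f t - ∑ r ∈ pr t, G f r := by
  classical
  have hsing : ({t} : Finset (Finset ℕ)) ∈ ch t := by
    rw [mem_ch]
    refine ⟨by simpa using ht, by simp, by simp, by simp⟩
  have hbs : bot ({t} : Finset (Finset ℕ)) = t := by
    unfold bot
    ext v
    simp
  unfold G
  rw [← Finset.add_sum_erase _ _ hsing, hbs]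
  have e1 : (-1 : ℚ) ^ (({t} : Finset (Finset ℕ)).card + 1) * f t = f t := by
    rw [card_singleton]; norm_num
  rw [e1, sub_eq_add_neg, ← Finset.sum_neg_distrib]
  congr 1
  rw [← Finset.sum_fiberwise_of_maps_to (s := (ch t).erase {t}) (t := pr t)
    (g := fun F => (F.erase t).sup id)]
  · apply Finset.sum_congr rfl
    intro r hr
    obtain ⟨hr1, hr2⟩ := mem_pr.1 hr
    rw [← Finset.sum_neg_distrib]
    refine Finset.sum_bij' (fun F _ => F.erase t) (fun F _ => insert t F) ?_ ?_ ?_ ?_ ?_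
    · intro F hF
      simp only [mem_filter, mem_erase, mem_ch] at hF
      obtain ⟨⟨hne, h1, h2, h3, h4⟩, h5⟩ := hF
      rw [mem_ch]
      refine ⟨fun σ hσ => h1 σ (mem_of_mem_erase hσ), ?_, fun σ hσ τ hτ =>
        h3 σ (mem_of_mem_erase hσ) τ (mem_of_mem_erase hτ), h5⟩
      by_contra hcon
      rw [not_nonempty_iff_eq_empty] at hcon
      rw [hcon] at h5
      simp only [sup_empty] at h5
      rw [← h5] at hr2
      exact absurd hr2 (by simp)
    · intro F hF
      rw [mem_ch] at hF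
      obtain ⟨h1, h2, h3, h4⟩ := hF
      have hsub : ∀ σ ∈ F, σ ⊆ r := fun σ hσ => by rw [← h4]; exact le_sup' hσ
      have htF : t ∉ F := fun h => hr1.2 (hsub t h)
      simp only [mem_filter, mem_erase, mem_ch]
      refine ⟨⟨?_, ?_, ⟨t, mem_insert_self _ _⟩, ?_, ?_⟩, ?_⟩
      · intro h
        obtain ⟨σ, hσ⟩ := h2
        have : σ ∈ ({t} : Finset (Finset ℕ)) := by
          rw [← h]; exact mem_insert_of_mem hσ
        rw [mem_singleton] at this
        rw [this] at hσ
        exact htF hσ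
      · intro σ hσ
        rcases mem_insert.1 hσ with rfl | hσ
        · exact ht
        · exact h1 σ hσ
      · intro σ hσ τ hτ
        rcases mem_insert.1 hσ with e1 | hσ'
        · rcases mem_insert.1 hτ with e2 | hτ'
          · left; rw [e1, e2]
          · right; rw [e1]; exact (hsub τ hτ').trans hr1.1
        · rcases mem_insert.1 hτ with e2 | hτ'
          · left; rw [e2]; exact (hsub σ hσ').trans hr1.1
          · exact h3 σ hσ' τ hτ'
      · rw [sup_insert, h4]
        exact sup_eq_left.2 hr1.1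
      · rw [erase_insert htF, h4]
    · intro F hF
      simp only [mem_filter, mem_erase, mem_ch] at hF
      obtain ⟨⟨hne, h1, h2, h3, h4⟩, h5⟩ := hF
      apply insert_erase
      rw [← h4]
      exact sup_mem h2 h3
    · intro F hF
      rw [mem_ch] at hF
      obtain ⟨h1, h2, h3, h4⟩ := hF
      have hsub : ∀ σ ∈ F, σ ⊆ r := fun σ hσ => by rw [← h4]; exact le_sup' hσ
      have htF : t ∉ F := fun h => hr1.2 (hsub t h)
      exact erase_insert htF
    · intro F hF
      simp only [mem_filter, mem_erase, mem_ch] at hF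
      obtain ⟨⟨hne, h1, h2, h3, h4⟩, h5⟩ := hF
      have htF : t ∈ F := by rw [← h4]; exact sup_mem h2 h3
      have hbot : bot F = bot (F.erase t) := by
        unfold bot
        ext v
        simp only [mem_filter, mem_erase, and_imp]
        rw [h5, h4]
        constructor
        · rintro ⟨a, b⟩
          refine ⟨?_, fun σ _ hσ => b σ hσ⟩
          have : r ∈ F.erase t := by
            rw [← h5]
            apply sup_mem
            · by_contra hcon
              rw [not_nonempty_iff_eq_empty] at hcon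
              rw [hcon] at h5
              simp only [sup_empty] at h5
              rw [← h5] at hr2
              exact absurd hr2 (by simp)
            · exact fun σ hσ τ hτ => h3 σ (mem_of_mem_erase hσ) τ (mem_of_mem_erase hτ)
          exact b r (mem_of_mem_erase this)
        · rintro ⟨a, b⟩
          refine ⟨hr1.1 a, fun σ hσ => ?_⟩
          by_cases h : σ = t
          · rw [h]; exact hr1.1 a
          · exact b σ h hσ
      have hcard : F.card = (F.erase t).card + 1 := (card_erase_add_one htF).symm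
      rw [hbot, hcard, pow_succ]
      ring
  · intro F hF
    simp only [mem_erase, mem_ch] at hF
    obtain ⟨hne, h1, h2, h3, h4⟩ := hF
    have htF : t ∈ F := by rw [← h4]; exact sup_mem h2 h3
    have hne2 : (F.erase t).Nonempty := by
      by_contra hcon
      rw [not_nonempty_iff_eq_empty] at hcon
      apply hne
      rw [← insert_erase htF, hcon]
      rfl
    have hm := sup_mem hne2 (fun σ hσ τ hτ => h3 σ (mem_of_mem_erase hσ) τ (mem_of_mem_erase hτ))
    rw [mem_pr]
    refine ⟨?_, h1 _ (mem_of_mem_erase hm)⟩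
    have hm1 := ne_of_mem_erase hm
    have hm2 : (F.erase t).sup id ⊆ t := by
      have := le_sup' (mem_of_mem_erase hm)
      rwa [h4] at this
    exact hm2.ssubset_of_ne hm1

theorem sum_powerset_split (g : Finset ℕ → ℚ) (t : Finset ℕ) (ht : t.Nonempty) :
    ∑ r ∈ t.powerset, g r = g t + g ∅ + ∑ r ∈ pr t, g r := by
  classical
  rw [← Finset.add_sum_erase _ _ (mem_powerset_self t), add_assoc]
  congr 1
  have h0 : (∅ : Finset ℕ) ∈ t.powerset.erase t := by
    rw [mem_erase]
    exact ⟨ht.ne_empty.symm, empty_mem_powerset t⟩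
  rw [← Finset.add_sum_erase _ _ h0]
  congr 1
  apply Finset.sum_congr _ fun _ _ => rfl
  ext r
  rw [mem_pr, mem_erase, mem_erase, mem_powerset, ← nonempty_iff_ne_empty]
  constructor
  · rintro ⟨h1, h2, h3⟩
    exact ⟨h3.ssubset_of_ne h2, h1⟩
  · rintro ⟨h1, h2⟩
    exact ⟨h2, h1.ne, h1.1⟩

theorem sum_pow_powerset (a : ℚ) (t : Finset ℕ) : ∑ r ∈ t.powerset, a ^ r.card = (a + 1) ^ t.card := by
  have := Finset.sum_pow_mul_eq_add_pow a 1 t
  simpa using this

/-- solution of the recursion -/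
theorem G_eq (f g : Finset ℕ → ℚ) (hg : ∀ t : Finset ℕ, t.Nonempty →
    g t + ∑ r ∈ pr t, g r = f t) : ∀ t : Finset ℕ, t.Nonempty → G f t = g t := by
  intro t
  induction t using Finset.strongInduction with
  | H t ih =>
    intro ht
    rw [G_rec f t ht]
    have : ∑ r ∈ pr t, G f r = ∑ r ∈ pr t, g r :=
      Finset.sum_congr rfl fun r hr => ih r (mem_pr.1 hr).1 (mem_pr.1 hr).2
    rw [this, ← hg t ht]
    ring

theorem G_one (t : Finset ℕ) (ht : t.Nonempty) : G (fun _ => 1) t = (-1) ^ (t.card + 1) := by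
  apply G_eq (fun _ => 1) (fun t => (-1) ^ (t.card + 1)) _ t ht
  intro t ht
  have h := sum_powerset_split (fun t => (-1 : ℚ) ^ (t.card + 1)) t ht
  have h2 : ∑ r ∈ t.powerset, (-1 : ℚ) ^ (r.card + 1) = 0 := by
    simp only [pow_succ]
    rw [← Finset.sum_mul, sum_pow_powerset, neg_add_cancel, zero_pow (card_pos.2 ht).ne', zero_mul]
  rw [h2] at h
  simp only [card_empty] at h
  norm_num at h ⊢
  linarith

theorem G_half (t : Finset ℕ) (ht : t.Nonempty) :
    G (fun s => (1 / 2) ^ s.card) t = (-1 / 2) ^ t.card + (-1) ^ (t.card + 1) := by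
  apply G_eq (fun s => (1 / 2) ^ s.card) (fun t => (-1 / 2) ^ t.card + (-1) ^ (t.card + 1)) _ t ht
  intro t ht
  have h := sum_powerset_split (fun t => (-1 / 2 : ℚ) ^ t.card + (-1 : ℚ) ^ (t.card + 1)) t ht
  have h2 : ∑ r ∈ t.powerset, ((-1 / 2 : ℚ) ^ r.card + (-1 : ℚ) ^ (r.card + 1)) =
      (1 / 2) ^ t.card := by
    rw [Finset.sum_add_distrib, sum_pow_powerset]
    simp only [pow_succ]
    rw [← Finset.sum_mul, sum_pow_powerset, neg_add_cancel, zero_pow (card_pos.2 ht).ne', zero_mul]
    norm_num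
  rw [h2] at h
  simp only [card_empty] at h
  linarith

theorem prf : S_B6' := by
  classical
  intro K V hK hV
  unfold chiM
  push_cast
  have h1 : ∀ F ∈ flags K, (-1 : ℚ) ^ (F.card + 1) *
      2 ^ (V.card - (V.filter fun v => ∀ σ ∈ F, σ ⊆ V ∧ v ∈ σ).card) =
      2 ^ V.card * ((-1 : ℚ) ^ (F.card + 1) *
        (if F.sup id ⊆ V then (1 / 2) ^ (bot F).card else 1)) := by
    intro F hF
    obtain ⟨a1, a2, a3⟩ := mem_flags.1 hF
    split_ifs with h
    · have e : (V.filter fun v => ∀ σ ∈ F, σ ⊆ V ∧ v ∈ σ) = bot F := by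
        unfold bot
        ext v
        simp only [mem_filter]
        constructor
        · rintro ⟨b1, b2⟩
          exact ⟨(b2 _ (sup_mem a2 a3)).2, fun σ hσ => (b2 σ hσ).2⟩
        · rintro ⟨b1, b2⟩
          exact ⟨h b1, fun σ hσ => ⟨(le_sup' hσ).trans h, b2 σ hσ⟩⟩
      have hle : (bot F).card ≤ V.card := card_le_card ((filter_subset _ _).trans h)
      rw [e]
      obtain ⟨d, hd⟩ := Nat.exists_eq_add_of_le hle
      rw [hd, Nat.add_sub_cancel_left, pow_add, one_div, inv_pow]
      have h3 : (2 : ℚ) ^ (bot F).card ≠ 0 := by positivity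
      field_simp
      try ring
    · have e : (V.filter fun v => ∀ σ ∈ F, σ ⊆ V ∧ v ∈ σ) = ∅ := by
        rw [filter_eq_empty_iff]
        intro v _ hv
        exact h (hv _ (sup_mem a2 a3)).1
      rw [e, card_empty, Nat.sub_zero]
      ring
  rw [Finset.sum_congr rfl h1, ← Finset.mul_sum]
  congr 1
  rw [← Finset.sum_fiberwise_of_maps_to (s := flags K) (t := K.filter fun σ => σ.Nonempty)
    (g := fun F => F.sup id)]
  · have h2 : ∀ t ∈ K.filter (fun σ => σ.Nonempty),
        ∑ F ∈ (flags K).filter (fun F => F.sup id = t), (-1 : ℚ) ^ (F.card + 1) *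
          (if F.sup id ⊆ V then (1 / 2) ^ (bot F).card else 1) =
        (-1 : ℚ) ^ (t.card + 1) + (if t ⊆ V then (-1 / 2) ^ t.card else 0) := by
      intro t ht
      obtain ⟨ht1, ht2⟩ := mem_filter.1 ht
      have e : (flags K).filter (fun F => F.sup id = t) = ch t := by
        ext F
        rw [mem_filter, mem_flags, mem_ch]
        constructor
        · rintro ⟨⟨b1, b2, b3⟩, b4⟩
          exact ⟨fun σ hσ => (b1 σ hσ).2, b2, b3, b4⟩
        · rintro ⟨b1, b2, b3, b4⟩
          refine ⟨⟨fun σ hσ => ⟨hK.2 t ht1 σ ?_, b1 σ hσ⟩, b2, b3⟩, b4⟩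
          rw [← b4]; exact le_sup' hσ
      rw [e]
      by_cases h : t ⊆ V
      · rw [if_pos h]
        have := G_half t ht2
        rw [add_comm, ← this]
        unfold G
        apply Finset.sum_congr rfl
        intro F hF
        rw [(mem_ch.1 hF).2.2.2, if_pos h]
      · rw [if_neg h, add_zero]
        have := G_one t ht2
        rw [← this]
        unfold G
        apply Finset.sum_congr rfl
        intro F hF
        rw [(mem_ch.1 hF).2.2.2, if_neg h]
    rw [Finset.sum_congr rfl h2, Finset.sum_add_distrib, add_sub_assoc]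
    congr 1
    · unfold chiK
      push_cast
      rfl
    · rw [← Finset.sum_filter, filter_filter]
      have h0 : (∅ : Finset ℕ) ∈ sub K V := by
        unfold sub
        rw [mem_filter]
        exact ⟨hK.1, empty_subset _⟩
      rw [← Finset.add_sum_erase _ _ h0, card_empty, pow_zero, add_sub_cancel_left]
      apply Finset.sum_congr _ fun _ _ => rfl
      ext s
      unfold sub
      rw [mem_filter, mem_erase, mem_filter, nonempty_iff_ne_empty]
      tauto
  · intro F hF
    obtain ⟨a1, a2, a3⟩ := mem_flags.1 hF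
    exact mem_filter.2 (a1 _ (sup_mem a2 a3))

end MP8a95ee.Ref.B6P
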