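import Pool.Agent.Work.MP_8a95ee_gt.Ref.Stmts

/-!
# B7: the Euler characteristic is bounded by the sum of the Betti numbers
-/

set_option autoImplicit false

namespace MP8a95ee.Ref.B7P

open RA

theorem bb (K : Finset (Finset ℕ)) (y : Finset ℕ → ℝ) : bdu K (bdu K y) = 0 := by
  funext t
  show (if t.Nonempty then ∑ a ∈ verts K \ t, sg a t * (bdu K y) (insert a t) else 0) = 0
  by_cases ht : t.Nonempty
  · rw [if_pos ht]
    have h1 : ∀ a ∈ verts K \ t, sg a t * (bdu K y) (insert a t) =
        ∑ b ∈ (verts K \ t).erase a, sg a t * (sg b (insert a t) * y (insert b (insert a t))) := by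
      intro a _
      show sg a t * (if (insert a t).Nonempty then
        ∑ b ∈ verts K \ (insert a t), sg b (insert a t) * y (insert b (insert a t)) else 0) = _
      rw [if_pos (Finset.insert_nonempty a t), Finset.mul_sum]
      refine Finset.sum_congr ?_ fun _ _ => rfl
      ext b
      simp only [Finset.mem_sdiff, Finset.mem_insert, Finset.mem_erase]
      tauto
    rw [Finset.sum_congr rfl h1]
    refine h61_anti (N := ℝ) (verts K \ t)
      (fun a b => sg a t * (sg b (insert a t) * y (insert b (insert a t)))) ?_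
    intro a ha b hb hab
    have h2 := h61_sign3 (a := a) (b := b) (u := t) (Finset.mem_sdiff.1 ha).2
      (Finset.mem_sdiff.1 hb).2 hab
    show sg a t * (sg b (insert a t) * y (insert b (insert a t))) =
      - (sg b t * (sg a (insert b t) * y (insert a (insert b t))))
    rw [← mul_assoc, h2, Finset.insert_comm]
    ring
  · rw [if_neg ht]

/-- functions supported on `S` -/
def W (S : Finset (Finset ℕ)) : Submodule ℝ (Finset ℕ → ℝ) where
  carrier := {y | ∀ u, y u ≠ 0 → u ∈ S}
  add_mem' := fun {x y} hx hy u hu => by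
    by_cases h : x u = 0
    · refine hy u fun h' => hu ?_
      rw [Pi.add_apply, h, h', add_zero]
    · exact hx u h
  zero_mem' := fun u hu => absurd rfl hu
  smul_mem' := fun r x hx u hu => hx u fun h' => hu (by rw [Pi.smul_apply, h', smul_zero])

theorem mem_W {S : Finset (Finset ℕ)} {y : Finset ℕ → ℝ} : y ∈ W S ↔ ∀ u, y u ≠ 0 → u ∈ S :=
  Iff.rfl

noncomputable def eW (S : Finset (Finset ℕ)) : W S ≃ₗ[ℝ] (S → ℝ) where
  toFun y s := y.1 s
  map_add' := fun _ _ => rfl
  map_smul' := fun _ _ => rfl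
  invFun z := ⟨fun u => if h : u ∈ S then z ⟨u, h⟩ else 0, fun u hu => by
    by_contra h
    exact hu (dif_neg h)⟩
  left_inv y := by
    apply Subtype.ext
    funext u
    by_cases h : u ∈ S
    · show (if h : u ∈ S then y.1 u else 0) = y.1 u
      rw [dif_pos h]
    · show (if h : u ∈ S then y.1 u else 0) = y.1 u
      rw [dif_neg h]
      by_contra h2
      exact h (y.2 u fun h3 => h2 h3.symm)
  right_inv z := by
    funext s
    show (if h : s.1 ∈ S then z ⟨s.1, h⟩ else 0) = z s
    rw [dif_pos s.2]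

instance (S : Finset (Finset ℕ)) : FiniteDimensional ℝ (W S) :=
  Module.Finite.equiv (eW S).symm

theorem finrank_W (S : Finset (Finset ℕ)) : Module.finrank ℝ (W S) = S.card := by
  rw [(eW S).finrank_eq, Module.finrank_fintype_fun_eq_card, Fintype.card_coe]

theorem rn (p : Submodule ℝ (Finset ℕ → ℝ)) [FiniteDimensional ℝ p]
    (f : (Finset ℕ → ℝ) →ₗ[ℝ] (Finset ℕ → ℝ)) :
    Module.finrank ℝ (p.map f) +
      Module.finrank ℝ (p ⊓ LinearMap.ker f : Submodule ℝ (Finset ℕ → ℝ)) =
      Module.finrank ℝ p := by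
  have h := LinearMap.finrank_range_add_finrank_ker (f.domRestrict p)
  rw [LinearMap.range_domRestrict, LinearMap.ker_domRestrict] at h
  rw [← h]
  congr 1
  rw [← Submodule.map_comap_subtype, Submodule.finrank_map_subtype_eq]

theorem prf : S_B7' := by
  intro K hK
  classical
  set M := K.filter fun σ : Finset ℕ => σ.Nonempty with hM
  set S0 := M.filter fun σ : Finset ℕ => Even σ.card with hS0
  set S1 := M.filter fun σ : Finset ℕ => ¬ Even σ.card with hS1
  have hchi : chiK K = (S1.card : ℤ) - (S0.card : ℤ) := by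
    unfold chiK
    rw [← hM, ← Finset.sum_filter_add_sum_filter_not M (fun σ : Finset ℕ => Even σ.card)]
    have e0 : ∑ σ ∈ M.filter (fun σ : Finset ℕ => Even σ.card), (-1 : ℤ) ^ (σ.card + 1) =
        -(S0.card : ℤ) := by
      rw [Finset.sum_congr rfl (g := fun _ => (-1 : ℤ))]
      · simp [hS0]
      · intro σ hσ
        rw [pow_succ, (Finset.mem_filter.1 hσ).2.neg_one_pow, one_mul]
    have e1 : ∑ σ ∈ M.filter (fun σ : Finset ℕ => ¬ Even σ.card), (-1 : ℤ) ^ (σ.card + 1) =
        (S1.card : ℤ) := by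
      rw [Finset.sum_congr rfl (g := fun _ => (1 : ℤ))]
      · simp [hS1]
      · intro σ hσ
        rw [pow_succ, (Nat.not_even_iff_odd.1 (Finset.mem_filter.1 hσ).2).neg_one_pow]
        norm_num
    rw [e0, e1]
    ring
  have hCu : Cu K = W M := by
    ext y
    constructor
    · intro h u hu
      exact Finset.mem_filter.2 (h u hu)
    · intro h u hu
      exact Finset.mem_filter.1 (h u hu)
  have hbd : ∀ y ∈ W M, ∀ t, bdu K y t ≠ 0 →
      t ∈ M ∧ ∃ u, y u ≠ 0 ∧ u.card = t.card + 1 := by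
    intro y hy t ht
    have h1 : (if t.Nonempty then ∑ a ∈ verts K \ t, sg a t * y (insert a t) else 0) ≠ 0 := ht
    by_cases hn : t.Nonempty
    · rw [if_pos hn] at h1
      obtain ⟨a, ha, h2⟩ := Finset.exists_ne_zero_of_sum_ne_zero h1
      have h3 : y (insert a t) ≠ 0 := fun h => h2 (by rw [h, mul_zero])
      have h4 := (Finset.mem_filter.1 (hy _ h3)).1
      refine ⟨Finset.mem_filter.2 ⟨hK.2 _ h4 t (Finset.subset_insert a t), hn⟩, insert a t, h3, ?_⟩
      exact Finset.card_insert_of_notMem (Finset.mem_sdiff.1 ha).2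
    · rw [if_neg hn] at h1
      exact absurd rfl h1
  have hW0 : W S0 ≤ W M := fun y hy u hu => (Finset.mem_filter.1 (hy u hu)).1
  have hW1 : W S1 ≤ W M := fun y hy u hu => (Finset.mem_filter.1 (hy u hu)).1
  have hm0 : (W S0).map (bdu K) ≤ W S1 ⊓ LinearMap.ker (bdu K) := by
    rintro _ ⟨y, hy, rfl⟩
    refine ⟨fun t ht => ?_, bb K y⟩
    obtain ⟨h1, u, h2, h3⟩ := hbd y (hW0 hy) t ht
    refine Finset.mem_filter.2 ⟨h1, fun h4 => ?_⟩
    have h5 := (Finset.mem_filter.1 (hy u h2)).2
    rw [h3] at h5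
    exact (Nat.even_add_one.1 h5) h4
  have hm1 : (W S1).map (bdu K) ≤ W S0 ⊓ LinearMap.ker (bdu K) := by
    rintro _ ⟨y, hy, rfl⟩
    refine ⟨fun t ht => ?_, bb K y⟩
    obtain ⟨h1, u, h2, h3⟩ := hbd y (hW1 hy) t ht
    refine Finset.mem_filter.2 ⟨h1, ?_⟩
    have h5 := (Finset.mem_filter.1 (hy u h2)).2
    rw [h3] at h5
    by_contra h4
    exact h5 (Nat.even_add_one.2 h4)
  have hsup : W M ≤ W S0 ⊔ W S1 := by
    intro y hy
    refine Submodule.mem_sup.2 ⟨fun u => if Even u.card then y u else 0, ?_,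
      fun u => if Even u.card then 0 else y u, ?_, ?_⟩
    · intro u hu
      replace hu : (if Even u.card then y u else 0) ≠ 0 := hu
      by_cases h : Even u.card
      · rw [if_pos h] at hu
        exact Finset.mem_filter.2 ⟨hy u hu, h⟩
      · rw [if_neg h] at hu
        exact absurd rfl hu
    · intro u hu
      replace hu : (if Even u.card then 0 else y u) ≠ 0 := hu
      by_cases h : Even u.card
      · rw [if_pos h] at hu
        exact absurd rfl hu
      · rw [if_neg h] at hu
        exact Finset.mem_filter.2 ⟨hy u hu, h⟩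
    · funext u
      show (if Even u.card then y u else 0) + (if Even u.card then 0 else y u) = y u
      by_cases h : Even u.card
      · rw [if_pos h, if_pos h, add_zero]
      · rw [if_neg h, if_neg h, zero_add]
  have hdis : W S0 ⊓ W S1 = ⊥ := by
    rw [eq_bot_iff]
    rintro y ⟨h0, h1⟩
    rw [Submodule.mem_bot]
    funext u
    by_contra h
    exact (Finset.mem_filter.1 (h1 u h)).2 (Finset.mem_filter.1 (h0 u h)).2
  have r0 := rn (W S0) (bdu K)
  have r1 := rn (W S1) (bdu K)
  rw [finrank_W] at r0 r1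
  have i0 : Module.finrank ℝ ((W S0).map (bdu K)) ≤
      Module.finrank ℝ (W S1 ⊓ LinearMap.ker (bdu K) : Submodule ℝ (Finset ℕ → ℝ)) := by
    have : FiniteDimensional ℝ (W S1 ⊓ LinearMap.ker (bdu K) : Submodule ℝ (Finset ℕ → ℝ)) :=
      Submodule.finiteDimensional_of_le inf_le_left
    exact Submodule.finrank_mono hm0
  have i1 : Module.finrank ℝ ((W S1).map (bdu K)) ≤
      Module.finrank ℝ (W S0 ⊓ LinearMap.ker (bdu K) : Submodule ℝ (Finset ℕ → ℝ)) := by
    have : FiniteDimensional ℝ (W S0 ⊓ LinearMap.ker (bdu K) : Submodule ℝ (Finset ℕ → ℝ)) :=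
      Submodule.finiteDimensional_of_le inf_le_left
    exact Submodule.finrank_mono hm1
  have i2 : Module.finrank ℝ (W S0 ⊓ LinearMap.ker (bdu K) : Submodule ℝ (Finset ℕ → ℝ)) +
      Module.finrank ℝ (W S1 ⊓ LinearMap.ker (bdu K) : Submodule ℝ (Finset ℕ → ℝ)) ≤
      Module.finrank ℝ (Cu K ⊓ LinearMap.ker (bdu K) : Submodule ℝ (Finset ℕ → ℝ)) := by
    have : FiniteDimensional ℝ (W S0 ⊓ LinearMap.ker (bdu K) : Submodule ℝ (Finset ℕ → ℝ)) :=
      Submodule.finiteDimensional_of_le inf_le_left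
    have : FiniteDimensional ℝ (W S1 ⊓ LinearMap.ker (bdu K) : Submodule ℝ (Finset ℕ → ℝ)) :=
      Submodule.finiteDimensional_of_le inf_le_left
    have : FiniteDimensional ℝ (Cu K ⊓ LinearMap.ker (bdu K) : Submodule ℝ (Finset ℕ → ℝ)) := by
      rw [hCu]
      exact Submodule.finiteDimensional_of_le inf_le_left
    have h1 := Submodule.finrank_sup_add_finrank_inf_eq
      (W S0 ⊓ LinearMap.ker (bdu K)) (W S1 ⊓ LinearMap.ker (bdu K))
    have h2 : (W S0 ⊓ LinearMap.ker (bdu K)) ⊓ (W S1 ⊓ LinearMap.ker (bdu K)) = ⊥ := by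
      rw [eq_bot_iff, ← hdis]
      exact inf_le_inf inf_le_left inf_le_left
    rw [h2, finrank_bot, add_zero] at h1
    rw [← h1]
    refine Submodule.finrank_mono ?_
    rw [hCu]
    exact sup_le (inf_le_inf_right _ hW0) (inf_le_inf_right _ hW1)
  have i3 : Module.finrank ℝ ((Cu K).map (bdu K)) ≤
      Module.finrank ℝ ((W S0).map (bdu K)) + Module.finrank ℝ ((W S1).map (bdu K)) := by
    refine le_trans (Submodule.finrank_mono (t := (W S0).map (bdu K) ⊔ (W S1).map (bdu K)) ?_)
      (Submodule.finrank_add_le_finrank_add_finrank _ _)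
    rw [hCu, ← Submodule.map_sup]
    exact Submodule.map_mono hsup
  unfold betti
  rw [hchi, abs_le]
  constructor <;> omega

end MP8a95ee.Ref.B7P
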