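import Pool.Agent.Work.MP_8a95ee_gt.Ref.Stmts

/-!
# Item C1: boundaries of `muC` and `nuC`
-/

set_option autoImplicit false

namespace MP8a95ee.Ref.C1P

open RA RA.B7a

theorem fst_eq {k : ℕ} (s : Fin k → ℕ) (j : Fin (k + 1)) : fst s j = flips ∅ s j := by
  unfold fst flips
  exact (bot_symmDiff _).symm

theorem fst_cons {k : ℕ} (a : ℕ) (g : Fin k → ℕ) (j : Fin (k + 1)) :
    fst (Fin.cons (α := fun _ => ℕ) a g : Fin (k + 1) → ℕ) j.succ = insert a (fst g j) := by
  ext x
  simp only [fst, Finset.mem_image, Finset.mem_filter, Finset.mem_univ, true_and,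
    Finset.mem_insert, Fin.exists_fin_succ, Fin.cons_zero, Fin.cons_succ, Fin.val_zero,
    Fin.val_succ, Nat.succ_pos, Nat.add_lt_add_iff_right]
  constructor
  · rintro (h | h)
    · exact Or.inl h.symm
    · exact Or.inr h
  · rintro (h | h)
    · exact Or.inl h.symm
    · exact Or.inr h

theorem fst_snoc {k : ℕ} (a : ℕ) (g : Fin k → ℕ) (j : Fin (k + 1)) :
    fst (Fin.snoc (α := fun _ => ℕ) g a : Fin (k + 1) → ℕ) j.castSucc = fst g j := by
  rw [fst_eq, fst_eq, B5.flips_castSucc, Fin.init_snoc]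

theorem fst_swap {k : ℕ} (s : Fin k → ℕ) (p q : Fin k) (hpq : (q : ℕ) = (p : ℕ) + 1)
    (j : Fin (k + 1)) (hj : (j : ℕ) ≠ (q : ℕ)) : fst (s ∘ Equiv.swap p q) j = fst s j := by
  rw [fst_eq, fst_eq]
  exact B5.flips_swap ∅ s p q hpq j hj

theorem act_act (S T : Finset ℕ) (p : ℕ → ℝ) : act S (act T p) = act (symmDiff S T) p := by
  funext v
  unfold act cornerPt
  by_cases h1 : v ∈ S <;> by_cases h2 : v ∈ T <;> simp [Finset.mem_symmDiff, h1, h2]

theorem actC_single (T : Finset ℕ) {k : ℕ} (p : Fin k → ℕ → ℝ) (r : ℝ) :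
    actC T (Finsupp.single p r) = Finsupp.single (fun i => act T (p i)) r := by
  unfold actC
  rw [Finsupp.lmapDomain_apply, Finsupp.mapDomain_single]

theorem actC_actC (S T : Finset ℕ) {k : ℕ} (x : Ch (ℕ → ℝ) k) :
    actC S (actC T x) = actC (symmDiff S T) x := by
  induction x using Finsupp.induction_linear with
  | zero => simp
  | add x y hx hy => rw [map_add, map_add, map_add, hx, hy]
  | single p r =>
    rw [actC_single, actC_single, actC_single]
    congr 1
    funext i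
    exact act_act _ _ _

theorem anti_apply (U : Finset ℕ) {k : ℕ} (x : Ch (ℕ → ℝ) k) :
    Anti U x = ∑ T ∈ U.powerset, ((-1 : ℝ) ^ T.card) • actC T x := by
  unfold Anti
  rw [LinearMap.sum_apply]
  rfl

theorem anti_actC (U : Finset ℕ) {a : ℕ} (ha : a ∈ U) {k : ℕ} (x : Ch (ℕ → ℝ) k) :
    Anti U (actC {a} x) = - Anti U x := by
  rw [anti_apply, anti_apply, ← B5.sum_shift U a ha]
  refine Finset.sum_congr rfl fun T _ => ?_
  rw [actC_actC]

/-- the chain of paths -/
noncomputable def ch (Q : Finset ℕ → ℕ → ℝ) (U : Finset ℕ) {k : ℕ} (c : (Fin k → ℕ) → ℝ) :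
    Ch (ℕ → ℝ) (k + 1) :=
  ∑ s ∈ Fintype.piFinset (fun _ : Fin k => U), Finsupp.single (fun j => Q (fst s j)) (c s)

/-- a face -/
noncomputable def fc (Q : Finset ℕ → ℕ → ℝ) (U : Finset ℕ) {k : ℕ} (c : (Fin (k + 1) → ℕ) → ℝ)
    (i : Fin (k + 2)) : Ch (ℕ → ℝ) (k + 1) :=
  ∑ s ∈ Fintype.piFinset (fun _ : Fin (k + 1) => U),
    c s • Finsupp.single (fun j => Q (fst s (i.succAbove j))) (1 : ℝ)

theorem bdT_ch (Q : Finset ℕ → ℕ → ℝ) (U : Finset ℕ) {k : ℕ} (c : (Fin (k + 1) → ℕ) → ℝ) :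
    bdT (ch Q U c) = ∑ i : Fin (k + 2), ((-1 : ℝ) ^ (i : ℕ)) • fc Q U c i := by
  unfold ch fc
  simp_rw [Finset.smul_sum]
  rw [Finset.sum_comm, map_sum]
  refine Finset.sum_congr rfl fun s _ => ?_
  rw [bdT_single]

theorem fc_mid (Q : Finset ℕ → ℕ → ℝ) (U : Finset ℕ) {k : ℕ} (c : (Fin (k + 1) → ℕ) → ℝ)
    (hc : AltF c) (i : Fin k) : fc Q U c i.castSucc.succ = 0 := by
  set p : Fin (k + 1) := i.castSucc with hp
  set q : Fin (k + 1) := i.succ with hq
  have hpq : (q : ℕ) = (p : ℕ) + 1 := by rw [hp, hq, Fin.val_succ, Fin.val_castSucc]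
  have hne : p ≠ q := by
    intro h
    rw [h] at hpq
    omega
  have key : fc Q U c p.succ = - fc Q U c p.succ := by
    unfold fc
    rw [← Finset.sum_neg_distrib]
    refine Finset.sum_bij' (fun s _ => s ∘ Equiv.swap p q) (fun s _ => s ∘ Equiv.swap p q)
      ?_ ?_ ?_ ?_ ?_
    · intro s hs
      rw [Fintype.mem_piFinset] at hs ⊢
      exact fun j => hs _
    · intro s hs
      rw [Fintype.mem_piFinset] at hs ⊢
      exact fun j => hs _
    · intro s _
      funext j
      simp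
    · intro s _
      funext j
      simp
    · intro s _
      have h3 : (fun k => Q (fst (s ∘ Equiv.swap p q) (p.succ.succAbove k))) =
          fun k => Q (fst s (p.succ.succAbove k)) := by
        funext k
        congr 1
        refine fst_swap s p q hpq _ ?_
        intro h
        refine Fin.succAbove_ne p.succ k (Fin.ext ?_)
        rw [h, hpq, Fin.val_succ]
      rw [h3, hc s p q hne, neg_smul, neg_neg]
  have h2 : (2 : ℝ) • fc Q U c p.succ = 0 := by
    rw [two_smul]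
    nth_rewrite 1 [key]
    exact neg_add_cancel _
  exact (smul_eq_zero.1 h2).resolve_left two_ne_zero

theorem fc_last (Q : Finset ℕ → ℕ → ℝ) (U : Finset ℕ) {k : ℕ} (c : (Fin (k + 1) → ℕ) → ℝ) :
    fc Q U c (Fin.last (k + 1)) = ((-1 : ℝ) ^ k) • ch Q U (dcap U c) := by
  unfold fc ch
  rw [B5.sum_snoc, Finset.smul_sum]
  refine Finset.sum_congr rfl fun g _ => ?_
  have h1 : ∀ x ∈ U, c (Fin.snoc (α := fun _ => ℕ) g x) • (Finsupp.single (fun j =>
      Q (fst (Fin.snoc (α := fun _ => ℕ) g x : Fin (k + 1) → ℕ)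
        ((Fin.last (k + 1)).succAbove j))) (1 : ℝ) : Ch (ℕ → ℝ) (k + 1)) =
      c (Fin.snoc (α := fun _ => ℕ) g x) • Finsupp.single (fun j => Q (fst g j)) (1 : ℝ) := by
    intro x _
    congr 2
    funext j
    rw [Fin.succAbove_last, fst_snoc]
  rw [Finset.sum_congr rfl h1, ← Finset.sum_smul, Finsupp.smul_single, Finsupp.smul_single,
    smul_eq_mul, smul_eq_mul, mul_one]
  unfold dcap
  congr 1
  rw [← mul_assoc, ← pow_add, ← two_mul, pow_mul]
  norm_num

theorem sum_cons_dcap (U : Finset ℕ) {k : ℕ} (c : (Fin (k + 1) → ℕ) → ℝ) (hc : AltF c)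
    (g : Fin k → ℕ) : ∑ a ∈ U, c (Fin.cons (α := fun _ => ℕ) a g) = dcap U c g := by
  unfold dcap
  rw [Finset.mul_sum]
  refine Finset.sum_congr rfl fun a _ => ?_
  rw [alt_rotate hc, ← mul_assoc, ← pow_add, ← two_mul, pow_mul]
  norm_num

theorem fc_zero_mu (U : Finset ℕ) {k : ℕ} (c : (Fin (k + 1) → ℕ) → ℝ) (hc : IsAlt U c) :
    Anti U (fc cornerPt U c 0) = - Anti U (ch cornerPt U (dcap U c)) := by
  unfold fc ch
  rw [B5.sum_cons, map_sum, map_sum, ← Finset.sum_neg_distrib]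
  refine Finset.sum_congr rfl fun g _ => ?_
  have h1 : ∀ a ∈ U, Anti U (c (Fin.cons (α := fun _ => ℕ) a g) • (Finsupp.single (fun j =>
      cornerPt (fst (Fin.cons (α := fun _ => ℕ) a g : Fin (k + 1) → ℕ)
        ((0 : Fin (k + 2)).succAbove j))) (1 : ℝ) : Ch (ℕ → ℝ) (k + 1))) =
      c (Fin.cons (α := fun _ => ℕ) a g) •
        - Anti U (Finsupp.single (fun j => cornerPt (fst g j)) (1 : ℝ)) := by
    intro a ha
    by_cases h0 : c (Fin.cons (α := fun _ => ℕ) a g) = 0
    · rw [h0, zero_smul, zero_smul, map_zero]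
    · rw [map_smul]
      congr 1
      rw [← anti_actC U ha, actC_single]
      congr 2
      funext j
      rw [Fin.zero_succAbove, fst_cons]
      have hinj := (hc.2 _ h0).1
      have hna : a ∉ fst g j := by
        intro h
        unfold fst at h
        obtain ⟨i, _, hi⟩ := Finset.mem_image.1 h
        have h2 : (Fin.cons (α := fun _ => ℕ) a g : Fin (k + 1) → ℕ) i.succ =
            (Fin.cons (α := fun _ => ℕ) a g : Fin (k + 1) → ℕ) 0 := by
          rw [Fin.cons_succ, Fin.cons_zero, hi]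
        exact Fin.succ_ne_zero i (hinj h2)
      funext v
      unfold act cornerPt
      by_cases hv : v = a
      · subst hv
        simp [hna]
      · simp [hv]
  rw [map_sum, Finset.sum_congr rfl h1, ← Finset.sum_smul, sum_cons_dcap U c hc.1, smul_neg,
    ← map_smul, Finsupp.smul_single, smul_eq_mul, mul_one]

theorem fc_zero_nu (U : Finset ℕ) {k : ℕ} (c : (Fin (k + 1) → ℕ) → ℝ) :
    Anti U (fc pts U c 0) = 0 := by
  unfold fc
  rw [B5.sum_cons, map_sum]
  refine Finset.sum_eq_zero fun g _ => ?_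
  rw [map_sum]
  refine Finset.sum_eq_zero fun a ha => ?_
  rw [map_smul]
  have h1 : actC {a} (Finsupp.single (fun j => pts (fst (Fin.cons (α := fun _ => ℕ) a g :
      Fin (k + 1) → ℕ) ((0 : Fin (k + 2)).succAbove j))) (1 : ℝ) : Ch (ℕ → ℝ) (k + 1)) =
      Finsupp.single (fun j => pts (fst (Fin.cons (α := fun _ => ℕ) a g :
      Fin (k + 1) → ℕ) ((0 : Fin (k + 2)).succAbove j))) (1 : ℝ) := by
    rw [actC_single]
    congr 1
    funext j
    rw [Fin.zero_succAbove, fst_cons]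
    funext v
    unfold act cornerPt pts
    by_cases hv : v = a
    · subst hv
      simp
    · simp [hv]
  have h2 := anti_actC U ha (Finsupp.single (fun j => pts (fst (Fin.cons (α := fun _ => ℕ) a g :
      Fin (k + 1) → ℕ) ((0 : Fin (k + 2)).succAbove j))) (1 : ℝ) : Ch (ℕ → ℝ) (k + 1))
  rw [h1] at h2
  have h3 := self_eq_neg.1 h2
  rw [h3, smul_zero]

theorem bd_all (Q : Finset ℕ → ℕ → ℝ) (U : Finset ℕ) {k : ℕ} (c : (Fin (k + 1) → ℕ) → ℝ)
    (hc : AltF c) : bdT (ch Q U c) = fc Q U c 0 - ch Q U (dcap U c) := by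
  rw [bdT_ch, Fin.sum_univ_succ, Fin.sum_univ_castSucc]
  have h1 : ∀ i : Fin k, ((-1 : ℝ) ^ (i.castSucc.succ : ℕ)) • fc Q U c i.castSucc.succ = 0 := by
    intro i
    rw [fc_mid Q U c hc, smul_zero]
  rw [Finset.sum_eq_zero fun i _ => h1 i, zero_add, Fin.succ_last, fc_last Q U c,
    smul_smul, Fin.val_zero, pow_zero, one_smul, Fin.val_last]
  have h2 : (-1 : ℝ) ^ (k + 1) * (-1) ^ k = -1 := by
    rw [← pow_add, show k + 1 + k = 2 * k + 1 by ring, pow_succ, pow_mul]
    norm_num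
  rw [h2, neg_one_smul, sub_eq_add_neg]

theorem prf : S_C1 := by
  intro U k c hc
  constructor
  · have h : muC U c = ch cornerPt U c := rfl
    have h' : muC U (dcap U c) = ch cornerPt U (dcap U c) := rfl
    rw [h, h', bd_all cornerPt U c hc.1, map_sub, fc_zero_mu U c hc, neg_smul, two_smul]
    abel
  · have h : nuC U c = ch pts U c := rfl
    have h' : nuC U (dcap U c) = ch pts U (dcap U c) := rfl
    rw [h, h', bd_all pts U c hc.1, map_sub, fc_zero_nu U c, neg_one_smul, zero_sub]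

end MP8a95ee.Ref.C1P
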