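import Pool.Agent.Work.MP_8a95ee_gt.Ref.Stmts
import Pool.Agent.Work.MP_8a95ee_gt.R.ItemA2

/-!
# C2: the homotopy between `muC` and `nuC`
-/

set_option autoImplicit false

namespace MP8a95ee.Ref.C2P

open RA RA.ItA2

/-- sum over tuples by the last entry -/
theorem sum_snoc {N : Type} [AddCommMonoid N] (U : Finset ℕ) (k : ℕ)
    (f : (Fin (k + 1) → ℕ) → N) :
    ∑ s ∈ Fintype.piFinset (fun _ : Fin (k + 1) => U), f s =
      ∑ s ∈ Fintype.piFinset (fun _ : Fin k => U), ∑ a ∈ U,
        f (Fin.snoc (α := fun _ => ℕ) s a) := by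
  rw [← Finset.sum_product']
  refine Finset.sum_bij' (fun s _ => ((Fin.init (α := fun _ => ℕ) s : Fin k → ℕ), s (Fin.last k)))
    (fun p _ => Fin.snoc (α := fun _ => ℕ) p.1 p.2) ?_ ?_ ?_ ?_ ?_
  · intro s hs
    rw [Fintype.mem_piFinset] at hs
    rw [Finset.mem_product, Fintype.mem_piFinset]
    exact ⟨fun i => hs i.castSucc, hs (Fin.last k)⟩
  · intro p hp
    rw [Finset.mem_product, Fintype.mem_piFinset] at hp
    rw [Fintype.mem_piFinset]
    intro i
    refine Fin.lastCases ?_ (fun i => ?_) i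
    · rw [Fin.snoc_last]; exact hp.2
    · rw [Fin.snoc_castSucc]; exact hp.1 i
  · intro s _
    exact Fin.snoc_init_self s
  · intro p _
    simp
  · intro s _
    rw [Fin.snoc_init_self]

theorem snoc_swap {k : ℕ} (s : Fin k → ℕ) (a : ℕ) (i j : Fin k) :
    (Fin.snoc (α := fun _ => ℕ) (s ∘ Equiv.swap i j) a : Fin (k + 1) → ℕ) =
      (Fin.snoc (α := fun _ => ℕ) s a : Fin (k + 1) → ℕ) ∘
        Equiv.swap i.castSucc j.castSucc := by
  funext x
  refine Fin.lastCases ?_ (fun x => ?_) x
  · rw [Fin.snoc_last, Function.comp_apply, Equiv.swap_apply_of_ne_of_ne, Fin.snoc_last]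
    · exact (Fin.castSucc_lt_last i).ne'
    · exact (Fin.castSucc_lt_last j).ne'
  · rw [Fin.snoc_castSucc, Function.comp_apply, Function.comp_apply,
      (Fin.castSucc_injective k).swap_apply, Fin.snoc_castSucc]

theorem isAlt_dcap (U : Finset ℕ) (k : ℕ) (c : (Fin (k + 1) → ℕ) → ℝ) (h : IsAlt U c) :
    IsAlt U (dcap U c) := by
  refine ⟨fun s i j hij => ?_, fun s hs => ?_⟩
  · unfold dcap
    rw [← mul_neg, ← Finset.sum_neg_distrib]
    refine congrArg _ (Finset.sum_congr rfl fun a _ => ?_)
    rw [snoc_swap]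
    exact h.1 _ _ _ fun h' => hij (Fin.castSucc_injective k h')
  · unfold dcap at hs
    obtain ⟨a, ha, hca⟩ := Finset.exists_ne_zero_of_sum_ne_zero (right_ne_zero_of_mul hs)
    obtain ⟨h1, h2⟩ := h.2 _ hca
    refine ⟨fun i j hij => ?_, fun i => ?_⟩
    · have := @h1 i.castSucc j.castSucc (by rw [Fin.snoc_castSucc, Fin.snoc_castSucc]; exact hij)
      exact Fin.castSucc_injective k this
    · have := h2 i.castSucc
      rwa [Fin.snoc_castSucc] at this

theorem snoc_snoc_swap {k : ℕ} (s : Fin k → ℕ) (a b : ℕ) :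
    (Fin.snoc (α := fun _ => ℕ) (Fin.snoc (α := fun _ => ℕ) s a : Fin (k + 1) → ℕ) b :
      Fin (k + 2) → ℕ) =
      (Fin.snoc (α := fun _ => ℕ) (Fin.snoc (α := fun _ => ℕ) s b : Fin (k + 1) → ℕ) a :
      Fin (k + 2) → ℕ) ∘ Equiv.swap (Fin.last k).castSucc (Fin.last (k + 1)) := by
  funext x
  refine Fin.lastCases ?_ (fun x => ?_) x
  · rw [Fin.snoc_last, Function.comp_apply, Equiv.swap_apply_right, Fin.snoc_castSucc,
      Fin.snoc_last]
  · refine Fin.lastCases ?_ (fun x => ?_) x
    · rw [Fin.snoc_castSucc, Fin.snoc_last, Function.comp_apply, Equiv.swap_apply_left,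
        Fin.snoc_last]
    · rw [Fin.snoc_castSucc, Fin.snoc_castSucc, Function.comp_apply,
        Equiv.swap_apply_of_ne_of_ne, Fin.snoc_castSucc, Fin.snoc_castSucc]
      · exact fun h => (Fin.castSucc_lt_last x).ne (Fin.castSucc_injective _ h)
      · exact (Fin.castSucc_lt_last _).ne

theorem dcap_dcap (U : Finset ℕ) (k : ℕ) (c : (Fin (k + 2) → ℕ) → ℝ) (h : IsAlt U c)
    (s : Fin k → ℕ) : dcap U (dcap U c) s = 0 := by
  have h1 : ∑ a ∈ U, ∑ b ∈ U, c (Fin.snoc (α := fun _ => ℕ)
      (Fin.snoc (α := fun _ => ℕ) s a : Fin (k + 1) → ℕ) b) = 0 := by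
    have h2 : ∑ a ∈ U, ∑ b ∈ U, c (Fin.snoc (α := fun _ => ℕ)
        (Fin.snoc (α := fun _ => ℕ) s a : Fin (k + 1) → ℕ) b) =
        - ∑ a ∈ U, ∑ b ∈ U, c (Fin.snoc (α := fun _ => ℕ)
        (Fin.snoc (α := fun _ => ℕ) s a : Fin (k + 1) → ℕ) b) := by
      conv_lhs => rw [Finset.sum_comm]
      rw [← Finset.sum_neg_distrib]
      refine Finset.sum_congr rfl fun a _ => ?_
      rw [← Finset.sum_neg_distrib]
      refine Finset.sum_congr rfl fun b _ => ?_
      rw [snoc_snoc_swap, h.1 _ _ _ (Fin.castSucc_lt_last _).ne]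
    linarith
  unfold dcap
  rw [← Finset.mul_sum, h1, mul_zero, mul_zero]

/-- the chain `X` for a given homotopy one level below -/
noncomputable def X0 {k : ℕ} (h : (Fin k → ℕ) → Ch (ℕ → ℝ) (k + 2)) (s : Fin (k + 1) → ℕ) :
    Ch (ℕ → ℝ) (k + 2) :=
  (1 / 2 : ℝ) ^ (k + 1) • Finsupp.single (fun j : Fin (k + 2) => cornerPt (fst s j)) 1 -
    Finsupp.single (fun j : Fin (k + 2) => pts (fst s j)) 1 +
    (-1 : ℝ) ^ k • h (Fin.init (α := fun _ => ℕ) s : Fin k → ℕ)

/-- the homotopy -/
noncomputable def hh : ∀ k, (Fin k → ℕ) → Ch (ℕ → ℝ) (k + 2)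
  | 0 => fun _ => 0
  | k + 1 => fun s => con (pts (Finset.univ.image s)) (X0 (hh k) s)

theorem sum_X (U : Finset ℕ) (k : ℕ) (h : (Fin k → ℕ) → Ch (ℕ → ℝ) (k + 2))
    (c : (Fin (k + 1) → ℕ) → ℝ) :
    ∑ s ∈ Fintype.piFinset (fun _ : Fin (k + 1) => U), c s • X0 h s =
      (1 / 2 : ℝ) ^ (k + 1) • muC U c - nuC U c +
        ∑ s ∈ Fintype.piFinset (fun _ : Fin k => U), dcap U c s • h s := by
  have h1 : ∑ s ∈ Fintype.piFinset (fun _ : Fin k => U), dcap U c s • h s =
      ∑ s ∈ Fintype.piFinset (fun _ : Fin (k + 1) => U),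
        c s • ((-1 : ℝ) ^ k • h (Fin.init (α := fun _ => ℕ) s : Fin k → ℕ)) := by
    rw [sum_snoc]
    refine Finset.sum_congr rfl fun s _ => ?_
    unfold dcap
    rw [Finset.mul_sum, Finset.sum_smul]
    refine Finset.sum_congr rfl fun a _ => ?_
    rw [Fin.init_snoc, smul_smul, mul_comm]
  rw [h1]
  unfold muC nuC
  rw [Finset.smul_sum, ← Finset.sum_sub_distrib, ← Finset.sum_add_distrib]
  refine Finset.sum_congr rfl fun s _ => ?_
  unfold X0
  rw [smul_add, smul_sub]
  congr 1
  congr 1
  · rw [smul_comm, Finsupp.smul_single, smul_eq_mul, mul_one]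
  · rw [Finsupp.smul_single, smul_eq_mul, mul_one]

theorem act_comp (T1 T2 : Finset ℕ) (hd : Disjoint T1 T2) (p : ℕ → ℝ) :
    act (T1 ∪ T2) p = act T1 (act T2 p) := by
  funext v
  unfold act cornerPt
  by_cases h1 : v ∈ T1
  · have h2 : v ∉ T2 := Finset.disjoint_left.1 hd h1
    simp [h1, h2]
  · by_cases h2 : v ∈ T2 <;> simp [h1, h2]

theorem actC_single (T : Finset ℕ) {k : ℕ} (p : Fin k → ℕ → ℝ) (r : ℝ) :
    actC T (Finsupp.single p r : Ch (ℕ → ℝ) k) = Finsupp.single (fun i => act T (p i)) r := by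
  simp [actC]

theorem actC_union (T1 T2 : Finset ℕ) (hd : Disjoint T1 T2) {k : ℕ} (z : Ch (ℕ → ℝ) k) :
    actC (T1 ∪ T2) z = actC T1 (actC T2 z) := by
  have := ext_ch (actC (T1 ∪ T2)) (actC T1 ∘ₗ actC T2 : Ch (ℕ → ℝ) k →ₗ[ℝ] Ch (ℕ → ℝ) k)
    (fun p => by
      rw [LinearMap.comp_apply, actC_single, actC_single, actC_single]
      congr 1
      funext i
      exact act_comp T1 T2 hd (p i)) z
  simpa using this

theorem Anti_apply (U : Finset ℕ) {k : ℕ} (z : Ch (ℕ → ℝ) k) :
    Anti U z = ∑ T ∈ U.powerset, (-1 : ℝ) ^ T.card • actC T z := by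
  unfold Anti
  rw [LinearMap.sum_apply]
  rfl

theorem Anti_union (A B : Finset ℕ) (hd : Disjoint A B) {k : ℕ} (z : Ch (ℕ → ℝ) k) :
    Anti (A ∪ B) z = Anti A (Anti B z) := by
  rw [Anti_apply, Anti_apply A]
  have h1 : ∀ T ∈ A.powerset, (-1 : ℝ) ^ T.card • actC T (Anti B z) =
      ∑ T' ∈ B.powerset, (-1 : ℝ) ^ (T ∪ T').card • actC (T ∪ T') z := by
    intro T hT
    rw [Anti_apply, map_sum, Finset.smul_sum]
    refine Finset.sum_congr rfl fun T' hT' => ?_
    have hd' : Disjoint T T' :=
      Finset.disjoint_of_subset_left (Finset.mem_powerset.1 hT)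
        (Finset.disjoint_of_subset_right (Finset.mem_powerset.1 hT') hd)
    rw [map_smul, smul_smul, ← pow_add, ← Finset.card_union_of_disjoint hd', actC_union T T' hd']
  rw [Finset.sum_congr rfl h1, ← Finset.sum_product']
  symm
  refine Finset.sum_bij' (fun p _ => p.1 ∪ p.2) (fun T _ => (T ∩ A, T ∩ B)) ?_ ?_ ?_ ?_ ?_
  · intro p hp
    rw [Finset.mem_product, Finset.mem_powerset, Finset.mem_powerset] at hp
    rw [Finset.mem_powerset]
    exact Finset.union_subset_union hp.1 hp.2
  · intro T _
    rw [Finset.mem_product, Finset.mem_powerset, Finset.mem_powerset]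
    exact ⟨Finset.inter_subset_right, Finset.inter_subset_right⟩
  · intro p hp
    rw [Finset.mem_product, Finset.mem_powerset, Finset.mem_powerset] at hp
    have hA : p.2 ∩ A = ∅ := by
      rw [← Finset.disjoint_iff_inter_eq_empty]
      exact (Finset.disjoint_of_subset_right hp.2 hd).symm
    have hB : p.1 ∩ B = ∅ := by
      rw [← Finset.disjoint_iff_inter_eq_empty]
      exact Finset.disjoint_of_subset_left hp.1 hd
    refine Prod.ext ?_ ?_
    · show (p.1 ∪ p.2) ∩ A = p.1
      rw [Finset.union_inter_distrib_right, hA, Finset.union_empty,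
        Finset.inter_eq_left.2 hp.1]
    · show (p.1 ∪ p.2) ∩ B = p.2
      rw [Finset.union_inter_distrib_right, hB, Finset.empty_union,
        Finset.inter_eq_left.2 hp.2]
  · intro T hT
    rw [Finset.mem_powerset] at hT
    show T ∩ A ∪ T ∩ B = T
    rw [← Finset.inter_union_distrib_left, Finset.inter_eq_left.2 hT]
  · intro p _
    rfl

theorem actC_con (T : Finset ℕ) (p : ℕ → ℝ) {k : ℕ} (z : Ch (ℕ → ℝ) k) :
    actC T (con p z) = con (act T p) (actC T z) := by
  have := ext_ch (actC T ∘ₗ con p) (con (act T p) ∘ₗ actC T : Ch (ℕ → ℝ) k →ₗ[ℝ] _)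
    (fun q => by
      rw [LinearMap.comp_apply, LinearMap.comp_apply, con_single, actC_single, actC_single,
        con_single]
      congr 1
      funext i
      refine Fin.cases ?_ (fun i => ?_) i
      · simp
      · simp) z
  simpa using this

theorem act_pts (T S : Finset ℕ) (h : T ⊆ S) : act T (pts S) = pts S := by
  funext v
  unfold act cornerPt pts
  by_cases h1 : v ∈ S
  · simp [h1]
  · have h2 : v ∉ T := fun h' => h1 (h h')
    simp [h1, h2]

theorem Anti_con (S : Finset ℕ) {k : ℕ} (z : Ch (ℕ → ℝ) k) :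
    Anti S (con (pts S) z) = con (pts S) (Anti S z) := by
  rw [Anti_apply, Anti_apply, map_sum]
  refine Finset.sum_congr rfl fun T hT => ?_
  rw [actC_con, act_pts T S (Finset.mem_powerset.1 hT), map_smul]

theorem muC_zero_eq (U : Finset ℕ) (c : (Fin 0 → ℕ) → ℝ) : muC U c = nuC U c := by
  unfold muC nuC
  refine Finset.sum_congr rfl fun s _ => ?_
  congr 1

/-- restriction of a function to the tuples in `S` -/
def rs (S : Finset ℕ) {k : ℕ} (c : (Fin k → ℕ) → ℝ) (s : Fin k → ℕ) : ℝ :=
  if ∀ i, s i ∈ S then c s else 0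

theorem isAlt_rs (U S : Finset ℕ) {k : ℕ} (c : (Fin k → ℕ) → ℝ) (h : IsAlt U c) :
    IsAlt S (rs S c) := by
  refine ⟨fun s i j hij => ?_, fun s hs => ?_⟩
  · unfold rs
    by_cases h1 : ∀ l, s l ∈ S
    · rw [if_pos h1, if_pos (show ∀ l, (s ∘ Equiv.swap i j) l ∈ S from fun l => h1 _),
        h.1 s i j hij]
    · rw [if_neg h1, if_neg, neg_zero]
      intro h2
      apply h1
      intro l
      have := h2 (Equiv.swap i j l)
      rwa [Function.comp_apply, Equiv.swap_apply_self] at this
  · unfold rs at hs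
    by_cases h1 : ∀ l, s l ∈ S
    · rw [if_pos h1] at hs
      exact ⟨(h.2 s hs).1, h1⟩
    · rw [if_neg h1] at hs
      exact absurd rfl hs

/-- the statement for `k` -/
def Q (k : ℕ) : Prop := ∀ (U : Finset ℕ) (c : (Fin (k + 1) → ℕ) → ℝ), IsAlt U c →
    Anti U (bdT (∑ s ∈ Fintype.piFinset (fun _ : Fin (k + 1) => U), c s • hh (k + 1) s)) =
      Anti U ((1 / 2 : ℝ) ^ (k + 1) • muC U c - nuC U c +
        ∑ s ∈ Fintype.piFinset (fun _ : Fin k => U), dcap U c s • hh k s)

/-- the statement about `Y` for `k` -/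
def Z (k : ℕ) : Prop := ∀ (U : Finset ℕ) (c : (Fin (k + 1) → ℕ) → ℝ), IsAlt U c →
    Anti U (bdT (∑ s ∈ Fintype.piFinset (fun _ : Fin (k + 1) => U), c s • X0 (hh k) s)) = 0

theorem Q_of_Z (k : ℕ) (hZ : Z k) : Q k := by
  intro U c hc
  rw [← sum_X U k (hh k) c]
  have h1 : bdT (∑ s ∈ Fintype.piFinset (fun _ : Fin (k + 1) => U), c s • hh (k + 1) s) =
      ∑ s ∈ Fintype.piFinset (fun _ : Fin (k + 1) => U), c s • X0 (hh k) s -
        ∑ s ∈ Fintype.piFinset (fun _ : Fin (k + 1) => U),
          c s • con (pts (Finset.univ.image s)) (bdT (X0 (hh k) s)) := by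
    rw [map_sum, ← Finset.sum_sub_distrib]
    refine Finset.sum_congr rfl fun s _ => ?_
    rw [map_smul, ← smul_sub]
    congr 1
    exact bdT_con _ _
  rw [h1, map_sub]
  have h2 : Anti U (∑ s ∈ Fintype.piFinset (fun _ : Fin (k + 1) => U),
          c s • con (pts (Finset.univ.image s)) (bdT (X0 (hh k) s))) = 0 := by
    have hfib : ∑ s ∈ Fintype.piFinset (fun _ : Fin (k + 1) => U),
          c s • con (pts (Finset.univ.image s)) (bdT (X0 (hh k) s)) =
        ∑ S ∈ U.powerset, ∑ s ∈ (Fintype.piFinset (fun _ : Fin (k + 1) => U)).filter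
          (fun s => Finset.univ.image s = S),
          c s • con (pts (Finset.univ.image s)) (bdT (X0 (hh k) s)) := by
      rw [Finset.sum_fiberwise_of_maps_to]
      intro s hs
      rw [Fintype.mem_piFinset] at hs
      rw [Finset.mem_powerset]
      intro v hv
      obtain ⟨i, _, rfl⟩ := Finset.mem_image.1 hv
      exact hs i
    rw [hfib, map_sum]
    refine Finset.sum_eq_zero fun S hS => ?_
    rw [Finset.mem_powerset] at hS
    have h3 : ∑ s ∈ (Fintype.piFinset (fun _ : Fin (k + 1) => U)).filter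
          (fun s => Finset.univ.image s = S),
          c s • con (pts (Finset.univ.image s)) (bdT (X0 (hh k) s)) =
        con (pts S) (bdT (∑ s ∈ (Fintype.piFinset (fun _ : Fin (k + 1) => U)).filter
          (fun s => Finset.univ.image s = S), c s • X0 (hh k) s)) := by
      rw [map_sum, map_sum]
      refine Finset.sum_congr rfl fun s hs => ?_
      rw [(Finset.mem_filter.1 hs).2, map_smul, map_smul]
    rw [h3]
    have h4 : U = (U \ S) ∪ S := (Finset.sdiff_union_of_subset hS).symm
    have h5 : Anti U = (Anti ((U \ S) ∪ S) : Ch (ℕ → ℝ) (k + 2) →ₗ[ℝ] _) := by rw [← h4]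
    rw [h5, Anti_union _ _ Finset.sdiff_disjoint, Anti_con]
    have h6 : Anti S (bdT (∑ s ∈ (Fintype.piFinset (fun _ : Fin (k + 1) => U)).filter
          (fun s => Finset.univ.image s = S), c s • X0 (hh k) s)) = 0 := by
      by_cases hcard : S.card = k + 1
      · have h7 : ∑ s ∈ (Fintype.piFinset (fun _ : Fin (k + 1) => U)).filter
          (fun s => Finset.univ.image s = S), c s • X0 (hh k) s =
            ∑ s ∈ Fintype.piFinset (fun _ : Fin (k + 1) => S), rs S c s • X0 (hh k) s := by
          have h8 : ∑ s ∈ Fintype.piFinset (fun _ : Fin (k + 1) => S), rs S c s • X0 (hh k) s =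
              ∑ s ∈ Fintype.piFinset (fun _ : Fin (k + 1) => S), c s • X0 (hh k) s := by
            refine Finset.sum_congr rfl fun s hs => ?_
            rw [Fintype.mem_piFinset] at hs
            unfold rs
            rw [if_pos hs]
          rw [h8]
          refine Finset.sum_subset ?_ ?_
          · intro s hs
            rw [Finset.mem_filter] at hs
            rw [Fintype.mem_piFinset]
            intro i
            rw [← hs.2]
            exact Finset.mem_image_of_mem _ (Finset.mem_univ i)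
          · intro s hs hns
            rw [Fintype.mem_piFinset] at hs
            have hc0 : c s = 0 := by
              by_contra hne
              apply hns
              rw [Finset.mem_filter, Fintype.mem_piFinset]
              obtain ⟨hinj, hmem⟩ := hc.2 s hne
              refine ⟨hmem, ?_⟩
              refine Finset.eq_of_subset_of_card_le ?_ ?_
              · intro v hv
                obtain ⟨i, _, rfl⟩ := Finset.mem_image.1 hv
                exact hs i
              · rw [Finset.card_image_of_injective _ hinj, Finset.card_univ, Fintype.card_fin,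
                  hcard]
            rw [hc0, zero_smul]
        rw [h7]
        exact hZ S _ (isAlt_rs U S c hc)
      · have h7 : ∑ s ∈ (Fintype.piFinset (fun _ : Fin (k + 1) => U)).filter
          (fun s => Finset.univ.image s = S), c s • X0 (hh k) s = 0 := by
          refine Finset.sum_eq_zero fun s hs => ?_
          rw [Finset.mem_filter] at hs
          have hc0 : c s = 0 := by
            by_contra hne
            apply hcard
            rw [← hs.2, Finset.card_image_of_injective _ (hc.2 s hne).1, Finset.card_univ,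
              Fintype.card_fin]
          rw [hc0, zero_smul]
        rw [h7, map_zero, map_zero]
    rw [h6, map_zero, map_zero]
  rw [h2, sub_zero]

theorem Z_all (h1 : S_C1) : ∀ k, Z k := by
  intro k
  induction k with
  | zero =>
    intro U c hc
    rw [sum_X]
    obtain ⟨e1, e2⟩ := h1 U 0 c hc
    have h3 : ∑ s ∈ Fintype.piFinset (fun _ : Fin 0 => U), dcap U c s • hh 0 s = 0 := by
      refine Finset.sum_eq_zero fun s _ => ?_
      show dcap U c s • (0 : Ch (ℕ → ℝ) 2) = 0
      rw [smul_zero]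
    rw [h3, add_zero, map_sub, map_smul, map_sub, map_smul, e1, e2, muC_zero_eq, smul_smul]
    norm_num
  | succ k ih =>
    intro U c hc
    rw [sum_X]
    obtain ⟨e1, e2⟩ := h1 U (k + 1) c hc
    have e3 := Q_of_Z k ih U (dcap U c) (isAlt_dcap U (k + 1) c hc)
    have h3 : ∑ s ∈ Fintype.piFinset (fun _ : Fin k => U),
        dcap U (dcap U c) s • hh k s = 0 := by
      refine Finset.sum_eq_zero fun s _ => ?_
      rw [dcap_dcap U k c hc, zero_smul]
    rw [h3, add_zero] at e3
    rw [map_add, map_add, e3, map_sub, map_smul, map_sub, map_smul, e1, e2, smul_smul, map_sub,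
      map_smul]
    have h4 : (1 / 2 : ℝ) ^ (k + 1 + 1) * (-2) = - (1 / 2 : ℝ) ^ (k + 1) := by
      rw [pow_succ]; ring
    rw [h4]
    module

theorem InCube.mono {S S' : Finset ℕ} (hS : S ⊆ S') {k : ℕ} {p : Fin k → ℕ → ℝ}
    (h : InCube S p) : InCube S' p :=
  fun i v => ⟨(h i v).1, fun hv => (h i v).2 fun h' => hv (hS h')⟩

theorem inCube_hh : ∀ (k : ℕ) (s : Fin k → ℕ), ∀ p ∈ (hh k s).support,
    InCube (Finset.univ.image s) p := by
  classical
  intro k
  induction k with
  | zero =>
    intro s p hp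
    have : (hh 0 s) = 0 := rfl
    rw [this, Finsupp.support_zero] at hp
    exact absurd hp (Finset.notMem_empty _)
  | succ k ih =>
    intro s p hp
    have h0 : hh (k + 1) s = con (pts (Finset.univ.image s)) (X0 (hh k) s) := rfl
    rw [h0] at hp
    unfold con at hp
    rw [Finsupp.lmapDomain_apply] at hp
    have h1 := Finsupp.mapDomain_support hp
    obtain ⟨q, hq, rfl⟩ := Finset.mem_image.1 h1
    have hq2 : InCube (Finset.univ.image s) q := by
      unfold X0 at hq
      have h2 := Finsupp.support_add hq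
      rcases Finset.mem_union.1 h2 with h3 | h3
      · have h4 := Finsupp.support_sub h3
        rcases Finset.mem_union.1 h4 with h5 | h5
        · have h6 := Finsupp.support_smul h5
          have h7 := Finsupp.support_single_subset h6
          rw [Finset.mem_singleton] at h7
          subst h7
          intro i v
          simp only [cornerPt]
          refine ⟨by split_ifs <;> simp, fun hv => ?_⟩
          rw [if_neg]
          intro h8
          apply hv
          unfold fst at h8
          obtain ⟨j, _, rfl⟩ := Finset.mem_image.1 h8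
          exact Finset.mem_image_of_mem _ (Finset.mem_univ j)
        · have h7 := Finsupp.support_single_subset h5
          rw [Finset.mem_singleton] at h7
          subst h7
          intro i v
          simp only [pts]
          refine ⟨by split_ifs <;> simp, fun hv => ?_⟩
          rw [if_neg]
          intro h8
          apply hv
          unfold fst at h8
          obtain ⟨j, _, rfl⟩ := Finset.mem_image.1 h8
          exact Finset.mem_image_of_mem _ (Finset.mem_univ j)
      · have h4 := Finsupp.support_smul h3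
        refine InCube.mono ?_ (ih _ q h4)
        intro v hv
        obtain ⟨i, _, rfl⟩ := Finset.mem_image.1 hv
        exact Finset.mem_image_of_mem _ (Finset.mem_univ i.castSucc)
    intro i v
    refine Fin.cases ?_ (fun i => ?_) i
    · rw [Fin.cons_zero]
      unfold pts
      refine ⟨by split_ifs <;> simp, fun hv => ?_⟩
      rw [if_neg hv]
    · rw [Fin.cons_succ]
      exact hq2 i v

theorem prf (h1 : S_C1) : S_C2 :=
  ⟨hh, inCube_hh, fun _ => rfl, fun U k c hc => Q_of_Z k (Z_all h1 k) U c hc⟩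

end MP8a95ee.Ref.C2P
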