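import Pool.Agent.Work.MP_8a95ee_gt.Ref.Stmts
import Pool.Agent.Work.MP_8a95ee_gt.R.ItemA2

/-!
# C6: the projection to `RZ L` and the image of the fundamental cycle
-/

set_option autoImplicit false

namespace MP8a95ee.Ref.C6P

open RA RA.ItA2

/-! ### the complex -/

theorem verts_sub {K : Finset (Finset ℕ)} {V : Finset ℕ} (hK : IsCx K) (hV : V ⊆ verts K) :
    verts (sub K V) = V := by
  ext v
  unfold verts
  rw [Finset.mem_biUnion]
  constructor
  · rintro ⟨σ, hσ, hv⟩
    exact (Finset.mem_filter.1 hσ).2 hv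
  · intro hv
    obtain ⟨σ, hσ, hv'⟩ := Finset.mem_biUnion.1 (hV hv)
    refine ⟨{v}, Finset.mem_filter.2 ⟨hK.2 σ hσ {v} ?_, ?_⟩, Finset.mem_singleton_self v⟩
    · exact Finset.singleton_subset_iff.2 hv'
    · exact Finset.singleton_subset_iff.2 hv

theorem proj_mem {K : Finset (Finset ℕ)} {V : Finset ℕ} (hK : IsCx K) (hV : V ⊆ verts K)
    {p : (Finset ℕ → ℝ) × (ℕ → ℝ)} (hp : p ∈ Mf K V) : p.2 ∈ RZ (sub K V) := by
  obtain ⟨⟨h0, hs, hc, h1⟩, h2, h3⟩ := hp
  refine ⟨fun i => ?_, fun i hi => ?_, ?_⟩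
  · have h4 : 0 ≤ ∑ σ ∈ (sub K V).filter (fun σ => i ∈ σ), p.1 σ :=
      Finset.sum_nonneg fun σ _ => h0 σ
    have h5 := h2 i
    linarith
  · rw [verts_sub hK hV] at hi
    exact h3 i hi
  · -- the support in the boundary
    by_cases hne : ((sub K V).filter fun σ => p.1 σ ≠ 0).Nonempty
    · obtain ⟨σ0, hσ0, hmax⟩ := Finset.exists_max_image _ (fun σ => σ.card) hne
      rw [Finset.mem_filter] at hσ0
      refine ⟨σ0, hσ0.1, fun i hi => ?_⟩
      have h5 := h2 i
      have h6 : ∑ σ ∈ (sub K V).filter (fun σ => i ∈ σ), p.1 σ ≠ 0 := by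
        intro h
        rw [h] at h5
        linarith
      obtain ⟨σ, hσ, hσ'⟩ := Finset.exists_ne_zero_of_sum_ne_zero h6
      rw [Finset.mem_filter] at hσ
      have h7 := hmax σ (Finset.mem_filter.2 ⟨hσ.1, hσ'⟩)
      rcases hc σ σ0 hσ' hσ0.2 with h | h
      · exact h hσ.2
      · have h8 := Finset.eq_of_subset_of_card_le h h7
        rw [h8]
        exact hσ.2
    · refine ⟨∅, Finset.mem_filter.2 ⟨hK.1, Finset.empty_subset _⟩, fun i hi => ?_⟩
      exfalso
      have h5 := h2 i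
      have h6 : ∑ σ ∈ (sub K V).filter (fun σ => i ∈ σ), p.1 σ ≠ 0 := by
        intro h
        rw [h] at h5
        linarith
      obtain ⟨σ, hσ, hσ'⟩ := Finset.exists_ne_zero_of_sum_ne_zero h6
      rw [Finset.mem_filter] at hσ
      exact hne ⟨σ, Finset.mem_filter.2 ⟨hσ.1, hσ'⟩⟩

/-! ### the vertices of the simplices -/

/-- the vertices -/
noncomputable def Q (K : Finset (Finset ℕ)) (V : Finset ℕ) {k : ℕ} (t : Fin k → ℕ)
    (j : Fin k) : ℕ → ℝ :=
  if fl t j ∈ sub K V then pts (fl t j) else pts ∅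

theorem Q_apply (K : Finset (Finset ℕ)) (V : Finset ℕ) {k : ℕ} (t : Fin k → ℕ) (j : Fin k)
    (v : ℕ) : Q K V t j v = 1 - if fl t j ∈ sub K V ∧ v ∈ fl t j then 1 else 0 := by
  unfold Q
  by_cases h : fl t j ∈ sub K V
  · rw [if_pos h]
    unfold pts
    by_cases hv : v ∈ fl t j
    · rw [if_pos hv, if_pos ⟨h, hv⟩, sub_self]
    · rw [if_neg hv, if_neg (fun h' => hv h'.2), sub_zero]
  · rw [if_neg h, if_neg (fun h' => h h'.1), sub_zero]
    simp [pts]

theorem simPt_snd (K : Finset (Finset ℕ)) (V T : Finset ℕ) {n : ℕ} (t : Fin (n + 1) → ℕ)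
    (τ : stdSimplex ℝ (Fin (n + 1))) :
    (simPt K V T t τ).2 = affS (fun j => act T (Q K V t j)) τ := by
  funext v
  have h1 : ∑ j, (τ j : ℝ) = 1 := τ.2.2
  unfold simPt affS act
  simp only
  calc cornerPt T v * (1 - ∑ j, if fl t j ∈ sub K V ∧ v ∈ fl t j then τ j else 0)
      = cornerPt T v * (∑ j, (τ j : ℝ) - ∑ j, if fl t j ∈ sub K V ∧ v ∈ fl t j then τ j else 0) := by
        rw [h1]
    _ = ∑ j, τ j * (cornerPt T v * Q K V t j v) := by
        rw [← Finset.sum_sub_distrib, Finset.mul_sum]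
        refine Finset.sum_congr rfl fun j _ => ?_
        rw [Q_apply]
        split_ifs <;> ring

theorem abs_Q (K : Finset (Finset ℕ)) (V : Finset ℕ) {k : ℕ} (t : Fin k → ℕ) (j : Fin k)
    (v : ℕ) : |Q K V t j v| ≤ 1 := by
  rw [Q_apply]
  split_ifs <;> norm_num

theorem abs_corner (T : Finset ℕ) (v : ℕ) : |cornerPt T v| = 1 := by
  unfold cornerPt
  split_ifs <;> norm_num

theorem fl_sub {k : ℕ} (t : Fin k → ℕ) (j : Fin k) : fl t j ⊆ Finset.univ.image t := by
  unfold fl
  exact Finset.image_subset_image (Finset.filter_subset _ _)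

/-- the vertices of a simplex lie in one cube -/
theorem Q_out {K : Finset (Finset ℕ)} {V : Finset ℕ} {k : ℕ} (t : Fin k → ℕ) (j : Fin k)
    {v : ℕ} (hv : v ∉ Finset.univ.image t ∩ V) : Q K V t j v = 1 := by
  rw [Q_apply, if_neg, sub_zero]
  rintro ⟨h1, h2⟩
  exact hv (Finset.mem_inter.2 ⟨fl_sub t j h2, (Finset.mem_filter.1 h1).2 h2⟩)

theorem fl_swap {k : ℕ} (t : Fin (k + 2) → ℕ) (i : Fin (k + 1)) (j : Fin (k + 2))
    (hj : j ≠ i.castSucc) : fl (t ∘ Equiv.swap i.castSucc i.succ) j = fl t j := by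
  have key : ∀ l : Fin (k + 2), l ≤ j → Equiv.swap i.castSucc i.succ l ≤ j := by
    intro l hl
    have hv : (i.castSucc : Fin (k + 2)).val = i.val := rfl
    have hv' : (i.succ : Fin (k + 2)).val = i.val + 1 := rfl
    by_cases h1 : l = i.castSucc
    · rw [h1, Equiv.swap_apply_left]
      rw [h1] at hl
      rw [Fin.le_def] at hl ⊢
      have h3 : j.val ≠ i.castSucc.val := fun h => hj (Fin.ext h)
      omega
    · by_cases h2 : l = i.succ
      · rw [h2, Equiv.swap_apply_right]
        rw [h2] at hl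
        rw [Fin.le_def] at hl ⊢
        omega
      · rw [Equiv.swap_apply_of_ne_of_ne h1 h2]
        exact hl
  ext x
  unfold fl
  simp only [Finset.mem_image, Finset.mem_filter, Finset.mem_univ, true_and, Function.comp]
  constructor
  · rintro ⟨l, hl, rfl⟩
    exact ⟨_, key l hl, rfl⟩
  · rintro ⟨l, hl, rfl⟩
    exact ⟨_, key l hl, by rw [Equiv.swap_apply_self]⟩

theorem fl_castSucc {k : ℕ} (s : Fin k → ℕ) (a : ℕ) (j : Fin k) :
    fl (Fin.snoc (α := fun _ => ℕ) s a) j.castSucc = fl s j := by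
  ext x
  unfold fl
  simp only [Finset.mem_image, Finset.mem_filter, Finset.mem_univ, true_and]
  constructor
  · rintro ⟨l, hl, rfl⟩
    have hlt : l.val < k := lt_of_le_of_lt (Fin.le_def.1 hl) j.2
    refine ⟨⟨l.val, hlt⟩, hl, ?_⟩
    have e : l = (⟨l.val, hlt⟩ : Fin k).castSucc := rfl
    conv_rhs => rw [e]
    rw [Fin.snoc_castSucc (α := fun _ => ℕ)]
  · rintro ⟨l, hl, rfl⟩
    refine ⟨l.castSucc, hl, ?_⟩
    rw [Fin.snoc_castSucc (α := fun _ => ℕ)]

/-! ### the boundary of the chain -/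

/-- the chain of vertices -/
noncomputable def X1 (K : Finset (Finset ℕ)) (V : Finset ℕ) {k : ℕ} (c : (Fin k → ℕ) → ℤ) :
    Ch (ℕ → ℝ) k :=
  ∑ t ∈ Fintype.piFinset (fun _ : Fin k => verts K), Finsupp.single (Q K V t) (c t : ℝ)

theorem eq_zero_of_eq_neg {M : Type} [AddCommGroup M] [Module ℝ M] {x : M} (h : x = -x) :
    x = 0 := by
  have h1 : (2 : ℝ) • x = 0 := by
    rw [two_smul]
    nth_rw 2 [h]
    exact add_neg_cancel x
  rcases smul_eq_zero.1 h1 with h2 | h2
  · norm_num at h2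
  · exact h2

theorem face_cancel (K : Finset (Finset ℕ)) (V : Finset ℕ) {k : ℕ} (c : (Fin (k + 2) → ℕ) → ℤ)
    (hc : ∀ (t : Fin (k + 2) → ℕ) (i j : Fin (k + 2)), i ≠ j → c (t ∘ Equiv.swap i j) = - c t)
    (i : Fin (k + 1)) :
    ∑ t ∈ Fintype.piFinset (fun _ : Fin (k + 2) => verts K),
      (Finsupp.single (fun j => Q K V t (i.castSucc.succAbove j)) (c t : ℝ) :
        Ch (ℕ → ℝ) (k + 1)) = 0 := by
  apply eq_zero_of_eq_neg
  have hne : i.castSucc ≠ i.succ := (Fin.castSucc_lt_succ (i := i)).ne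
  conv_lhs =>
    rw [← Finset.sum_nbij' (i := fun t : Fin (k + 2) → ℕ => t ∘ Equiv.swap i.castSucc i.succ)
      (j := fun t : Fin (k + 2) → ℕ => t ∘ Equiv.swap i.castSucc i.succ)
      (s := Fintype.piFinset (fun _ : Fin (k + 2) => verts K))
      (f := fun t => (Finsupp.single (fun j => Q K V (t ∘ Equiv.swap i.castSucc i.succ)
        (i.castSucc.succAbove j)) (c (t ∘ Equiv.swap i.castSucc i.succ) : ℝ) :
        Ch (ℕ → ℝ) (k + 1)))
      (by
        intro t ht
        rw [Fintype.mem_piFinset] at ht ⊢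
        exact fun j => ht _)
      (by
        intro t ht
        rw [Fintype.mem_piFinset] at ht ⊢
        exact fun j => ht _)
      (by
        intro t _
        funext j
        simp only [Function.comp, Equiv.swap_apply_self])
      (by
        intro t _
        funext j
        simp only [Function.comp, Equiv.swap_apply_self])
      (by
        intro t _
        rfl)]
  rw [← Finset.sum_neg_distrib]
  refine Finset.sum_congr rfl fun t _ => ?_
  have e : (fun j => Q K V (t ∘ Equiv.swap i.castSucc i.succ) (i.castSucc.succAbove j)) =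
      fun j => Q K V t (i.castSucc.succAbove j) := by
    funext j
    unfold Q
    rw [fl_swap t i _ (Fin.succAbove_ne _ _)]
  rw [e, hc t _ _ hne, Int.cast_neg, Finsupp.single_neg]

theorem face_last (K : Finset (Finset ℕ)) (V : Finset ℕ) {k : ℕ} (c : (Fin (k + 1) → ℕ) → ℤ)
    (o : (Fin k → ℕ) → ℤ)
    (hb : ∀ s : Fin k → ℕ, ∑ a ∈ verts K, c (Fin.snoc (α := fun _ => ℕ) s a) = o s) :
    ∑ t ∈ Fintype.piFinset (fun _ : Fin (k + 1) => verts K),
      (Finsupp.single (fun j => Q K V t ((Fin.last k).succAbove j)) (c t : ℝ) :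
        Ch (ℕ → ℝ) k) = X1 K V o := by
  unfold X1
  have h1 : ∑ t ∈ Fintype.piFinset (fun _ : Fin (k + 1) => verts K),
      (Finsupp.single (fun j => Q K V t ((Fin.last k).succAbove j)) (c t : ℝ) :
        Ch (ℕ → ℝ) k) =
      ∑ x ∈ (Fintype.piFinset (fun _ : Fin k => verts K)) ×ˢ verts K,
        (Finsupp.single (Q K V x.1) (c (Fin.snoc (α := fun _ => ℕ) x.1 x.2) : ℝ) :
          Ch (ℕ → ℝ) k) := by
    symm
    refine Finset.sum_nbij' (i := fun x : (Fin k → ℕ) × ℕ => Fin.snoc (α := fun _ => ℕ) x.1 x.2)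
      (j := fun t : Fin (k + 1) → ℕ => (Fin.init (α := fun _ => ℕ) t, t (Fin.last k)))
      ?_ ?_ ?_ ?_ ?_
    · rintro ⟨s, a⟩ hx
      rw [Finset.mem_product, Fintype.mem_piFinset] at hx
      rw [Fintype.mem_piFinset]
      intro j
      refine Fin.lastCases ?_ (fun j => ?_) j
      · simp only [Fin.snoc_last]
        exact hx.2
      · simp only [Fin.snoc_castSucc]
        exact hx.1 j
    · intro t ht
      rw [Fintype.mem_piFinset] at ht
      rw [Finset.mem_product, Fintype.mem_piFinset]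
      exact ⟨fun j => ht _, ht _⟩
    · rintro ⟨s, a⟩ _
      simp only [Fin.init_snoc, Fin.snoc_last]
    · intro t _
      simp only [Fin.snoc_init_self]
    · rintro ⟨s, a⟩ _
      simp only
      have e : (fun j => Q K V (Fin.snoc (α := fun _ => ℕ) s a) ((Fin.last k).succAbove j)) =
          Q K V s := by
        funext j
        unfold Q
        rw [Fin.succAbove_last, fl_castSucc]
      rw [e]
  rw [h1, Finset.sum_product]
  refine Finset.sum_congr rfl fun s _ => ?_
  rw [← hb s, Int.cast_sum, ← Finsupp.smul_single_one, Finset.sum_smul]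
  exact Finset.sum_congr rfl fun a _ => (Finsupp.smul_single_one _ _).symm

theorem bdT_X1 (K : Finset (Finset ℕ)) (V : Finset ℕ) {k : ℕ} (c : (Fin (k + 2) → ℕ) → ℤ)
    (hc : ∀ (t : Fin (k + 2) → ℕ) (i j : Fin (k + 2)), i ≠ j → c (t ∘ Equiv.swap i j) = - c t)
    (o : (Fin (k + 1) → ℕ) → ℤ)
    (hb : ∀ s : Fin (k + 1) → ℕ, ∑ a ∈ verts K, c (Fin.snoc (α := fun _ => ℕ) s a) = o s) :
    bdT (X1 K V c) = (-1 : ℝ) ^ (k + 1) • X1 K V o := by
  have h1 : bdT (X1 K V c) = ∑ i : Fin (k + 2), (-1 : ℝ) ^ (i : ℕ) •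
      ∑ t ∈ Fintype.piFinset (fun _ : Fin (k + 2) => verts K),
      (Finsupp.single (fun j => Q K V t (i.succAbove j)) (c t : ℝ) : Ch (ℕ → ℝ) (k + 1)) := by
    unfold X1
    rw [map_sum]
    simp_rw [Finset.smul_sum]
    rw [Finset.sum_comm]
    refine Finset.sum_congr rfl fun t _ => ?_
    rw [bdT_single]
    unfold bdT0
    rw [Finset.smul_sum]
    refine Finset.sum_congr rfl fun i _ => ?_
    rw [Finsupp.smul_single, Finsupp.smul_single, smul_eq_mul, smul_eq_mul, mul_comm]
  rw [h1, Fin.sum_univ_castSucc]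
  rw [Finset.sum_eq_zero fun i _ => by rw [face_cancel K V c hc i, smul_zero], zero_add,
    face_last K V c o hb, Fin.val_last]

/-! ### antisymmetrisation -/

theorem actC_eq (T : Finset ℕ) {k : ℕ} (x : Ch (ℕ → ℝ) k) : actC T x = mp (act T) x := rfl

theorem Anti_apply (U : Finset ℕ) {k : ℕ} (x : Ch (ℕ → ℝ) k) :
    Anti U x = ∑ T ∈ U.powerset, (-1 : ℝ) ^ T.card • actC T x := by
  unfold Anti
  rw [LinearMap.sum_apply]
  rfl

theorem Anti_bdT (U : Finset ℕ) {k : ℕ} (x : Ch (ℕ → ℝ) (k + 1)) :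
    Anti U (bdT x) = bdT (Anti U x) := by
  rw [Anti_apply, Anti_apply, map_sum]
  refine Finset.sum_congr rfl fun T _ => ?_
  rw [map_smul, actC_eq, actC_eq, mp_bdT]

/-- the tuples which occur in an antisymmetrised chain -/
theorem mem_Anti {U : Finset ℕ} {k : ℕ} {x : Ch (ℕ → ℝ) k} {p : Fin k → ℕ → ℝ}
    (hp : p ∈ (Anti U x).support) : ∃ T ⊆ U, ∃ p' ∈ x.support, p = fun i => act T (p' i) := by
  classical
  rw [Anti_apply] at hp
  have h1 := Finsupp.support_finsetSum hp
  rw [Finset.mem_biUnion] at h1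
  obtain ⟨T, hT, h2⟩ := h1
  have h3 := Finsupp.support_smul h2
  unfold actC at h3
  rw [Finsupp.lmapDomain_apply] at h3
  have h4 := Finsupp.mapDomain_support h3
  rw [Finset.mem_image] at h4
  obtain ⟨p', hp', rfl⟩ := h4
  exact ⟨T, Finset.mem_powerset.1 hT, p', hp', rfl⟩

/-! ### the image of the fundamental chain -/

theorem push_sum {X Y : Type} [TopologicalSpace X] [TopologicalSpace Y] (f : C(X, Y)) {n : ℕ}
    {ι : Type} (s : Finset ι) (g : ι → SChain X n) :
    push f (∑ i ∈ s, g i) = ∑ i ∈ s, push f (g i) := by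
  unfold push
  exact Finsupp.mapDomain_finsetSum

theorem push_smul {X Y : Type} [TopologicalSpace X] [TopologicalSpace Y] (f : C(X, Y)) {n : ℕ}
    (r : ℝ) (c : SChain X n) : push f (r • c) = r • push f c := by
  unfold push
  exact Finsupp.mapDomain_smul _ _

theorem push_simCh (h4 : S_C4) {K : Finset (Finset ℕ)} {V T : Finset ℕ} (hK : IsCx K)
    (hV : V ⊆ verts K) (hT : T ⊆ V) {n : ℕ} (t : Fin (n + 1) → ℕ)
    (ht : Finset.univ.image t ∈ K) (f : C(Mf K V, RZ (sub K V)))
    (hf : ∀ p, (f p : ℕ → ℝ) = (p : (Finset ℕ → ℝ) × (ℕ → ℝ)).2) :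
    push f (simCh K V T t) =
      affL (sub K V) (Finsupp.single (fun j => act T (Q K V t j)) 1) := by
  have h5 := h4 K V T hK hT n t ht
  have h6 : ∀ τ, affS (fun j => act T (Q K V t j)) τ ∈ RZ (sub K V) := by
    intro τ
    rw [← simPt_snd]
    exact proj_mem hK hV (h5 τ)
  unfold simCh affL
  rw [dif_pos h5, Finsupp.linearCombination_single, one_smul, dif_pos h6]
  unfold push
  rw [Finsupp.mapDomain_single]
  congr 1
  apply ContinuousMap.ext
  intro τ
  apply Subtype.ext
  change ((f ⟨simPt K V T t τ, h5 τ⟩ : RZ (sub K V)) : ℕ → ℝ) = _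
  rw [hf]
  exact simPt_snd K V T t τ

theorem push_fund (h4 : S_C4) {K : Finset (Finset ℕ)} {V : Finset ℕ} (hK : IsCx K)
    (hV : V ⊆ verts K) {n : ℕ} (c : (Fin (n + 1) → ℕ) → ℤ)
    (hc : ∀ t, c t ≠ 0 → Finset.univ.image t ∈ K) (f : C(Mf K V, RZ (sub K V)))
    (hf : ∀ p, (f p : ℕ → ℝ) = (p : (Finset ℕ → ℝ) × (ℕ → ℝ)).2) :
    push f (fundCh K V c) = affL (sub K V) (Anti V (X1 K V c)) := by
  unfold fundCh
  rw [push_sum, Anti_apply, map_sum]
  refine Finset.sum_congr rfl fun T hT => ?_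
  rw [push_sum, map_smul]
  unfold X1
  rw [map_sum, map_sum, Finset.smul_sum]
  refine Finset.sum_congr rfl fun t _ => ?_
  rw [push_smul, actC_eq, mp_single]
  by_cases h0 : c t = 0
  · rw [h0, Int.cast_zero, mul_zero, zero_smul, Finsupp.single_zero, map_zero, smul_zero]
  · rw [push_simCh h4 hK hV (Finset.mem_powerset.1 hT) t (hc t h0) f hf, mul_smul,
      ← map_smul (affL (sub K V)) (c t : ℝ), Finsupp.smul_single_one]

/-! ### the theorem -/

theorem prf (h2 : S_C2) (h3 : S_C3) (h4 : S_C4) : S_C6 := by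
  intro K V hK hV hF m o ho c hc
  have hvL : verts (sub K V) = V := verts_sub hK hV
  -- the map
  have hcont : Continuous fun p : Mf K V =>
      (⟨(p : (Finset ℕ → ℝ) × (ℕ → ℝ)).2, proj_mem hK hV p.2⟩ : RZ (sub K V)) :=
    (continuous_snd.comp continuous_subtype_val).subtype_mk _
  refine ⟨⟨_, hcont⟩, fun p => rfl, ?_⟩
  obtain ⟨h, hcube, _, hrel⟩ := h2
  obtain ⟨_, hbd, hmom⟩ := h3 (sub K V) hF
  obtain ⟨ho1, ho2, _, ho4⟩ := ho
  rw [hvL] at ho4
  -- facts on `o`
  have hoV : ∀ s, o s ≠ 0 → ∀ i, s i ∈ V := fun s hs i =>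
    (Finset.mem_filter.1 (ho2 s hs)).2 (Finset.mem_image_of_mem s (Finset.mem_univ i))
  have hAlt : IsAlt V (fun s => (o s : ℝ)) := by
    refine ⟨fun s i j hij => ?_, fun s hs => ⟨?_, hoV s fun h => hs (by simp only [h, Int.cast_zero])⟩⟩
    · simp only
      rw [ho1 s i j hij, Int.cast_neg]
    · intro i j hij
      by_contra hne
      apply hs
      have e : s ∘ Equiv.swap i j = s := by
        funext l
        simp only [Function.comp]
        by_cases h1 : l = i
        · rw [h1, Equiv.swap_apply_left, hij]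
        · by_cases h2 : l = j
          · rw [h2, Equiv.swap_apply_right, hij]
          · rw [Equiv.swap_apply_of_ne_of_ne h1 h2]
      have h5 := ho1 s i j hne
      rw [e] at h5
      have h6 : o s = 0 := by omega
      simp only [h6, Int.cast_zero]
  have hdcap : ∀ s, dcap V (fun s => (o s : ℝ)) (k := m) s = 0 := by
    intro s
    unfold dcap
    have h5 := ho4 (Fin.snoc (α := fun _ => ℕ) s 0) (Fin.last m)
    have h6 : ∑ a ∈ V, o (Fin.snoc (α := fun _ => ℕ) s a) = 0 := by
      rw [← h5]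
      refine Finset.sum_congr rfl fun a _ => ?_
      rw [Fin.update_snoc_last]
    have h7 : ∑ a ∈ V, (o (Fin.snoc (α := fun _ => ℕ) s a) : ℝ) = 0 := by
      rw [← Int.cast_sum, h6, Int.cast_zero]
    rw [h7, mul_zero]
  -- the boundary of the cone
  have hbX : bdT (X1 K V c) = (-1 : ℝ) ^ (m + 1) • X1 K V o :=
    bdT_X1 K V c hc.alt o hc.bdry
  have hcone : con (pts ∅) (X1 K V o) = nuC V (fun s => (o s : ℝ)) := by
    unfold X1 nuC
    rw [map_sum]
    symm
    have hsub : Fintype.piFinset (fun _ : Fin (m + 1) => V) ⊆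
        Fintype.piFinset (fun _ : Fin (m + 1) => verts K) :=
      Fintype.piFinset_subset _ _ fun _ => hV
    rw [← Finset.sum_subset hsub]
    · refine Finset.sum_congr rfl fun s hs => ?_
      rw [con_single]
      by_cases h0 : o s = 0
      · simp only [h0, Int.cast_zero, Finsupp.single_zero]
      · congr 1
        funext j
        refine Fin.cases ?_ (fun j => ?_) j
        · rw [Fin.cons_zero]
          congr 1
          unfold fst
          rw [Finset.image_eq_empty, Finset.filter_eq_empty_iff]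
          intro x _
          simp
        · rw [Fin.cons_succ]
          unfold Q
          have h5 : fst s j.succ = fl s j := by
            unfold fst fl
            congr 1
            ext l
            simp only [Finset.mem_filter, Finset.mem_univ, true_and, Fin.val_succ, Fin.le_def]
            omega
          have h6 : fl s j ∈ sub K V := by
            have h7 := ho2 s h0
            refine Finset.mem_filter.2 ⟨hK.2 _ (Finset.mem_filter.1 h7).1 _ (fl_sub s j), ?_⟩
            exact (fl_sub s j).trans (Finset.mem_filter.1 h7).2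
          rw [if_pos h6, h5]
    · intro s _ hs
      have h0 : o s = 0 := by
        by_contra h0
        exact hs (Fintype.mem_piFinset.2 fun i => hoV s h0 i)
      rw [con_single, h0, Int.cast_zero, Finsupp.single_zero]
  obtain ⟨Y, hY⟩ : ∃ Y, Y = con (pts ∅) (X1 K V c) := ⟨_, rfl⟩
  have hbY : bdT Y = X1 K V c - (-1 : ℝ) ^ (m + 1) • nuC V (fun s => (o s : ℝ)) := by
    rw [hY, bdT_con, hbX, map_smul, hcone]
  obtain ⟨H, hH⟩ : ∃ H : Ch (ℕ → ℝ) (m + 3), H =
      ∑ s ∈ Fintype.piFinset (fun _ : Fin (m + 1) => V), (o s : ℝ) • h (m + 1) s := ⟨_, rfl⟩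
  have hbH : bdT (Anti V H) = (1 / 2 : ℝ) ^ (m + 1) • Anti V (muC V (fun s => (o s : ℝ))) -
      Anti V (nuC V (fun s => (o s : ℝ))) := by
    have h5 := hrel V m (fun s => (o s : ℝ)) hAlt
    rw [← hH] at h5
    rw [← Anti_bdT, h5]
    rw [Finset.sum_eq_zero fun s _ => by rw [hdcap s, zero_smul], add_zero, map_sub, map_smul]
  obtain ⟨Z, hZ⟩ : ∃ Z, Z = Y - (-1 : ℝ) ^ (m + 1) • H := ⟨_, rfl⟩
  have hmain : Anti V (X1 K V c) = ((-1 : ℝ) ^ (m + 1) * (1 / 2) ^ (m + 1)) •
      Anti V (muC V (fun s => (o s : ℝ))) + bdT (Anti V Z) := by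
    have h5 : X1 K V c = bdT Y + (-1 : ℝ) ^ (m + 1) • nuC V (fun s => (o s : ℝ)) := by
      rw [hbY]
      abel
    rw [h5, map_add, Anti_bdT, map_smul, hZ, map_sub, map_smul, map_sub, map_smul, hbH, smul_sub,
      smul_smul]
    abel
  -- good tuples
  have hgood : ∀ p ∈ (Anti V Z).support, Gd (sub K V) p := by
    classical
    intro p hp
    obtain ⟨T, hT, p', hp', rfl⟩ := mem_Anti hp
    have hcase : ∃ σ ∈ sub K V, ∀ i v, |p' i v| ≤ 1 ∧ (v ∉ σ → p' i v = 1) := by
      rw [hZ] at hp'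
      have h5 := Finsupp.support_sub hp'
      rw [Finset.mem_union] at h5
      rcases h5 with h5 | h5
      · -- cone
        have h6 : ∃ t, c t ≠ 0 ∧ p' = Fin.cons (pts ∅) (Q K V t) := by
          rw [hY] at h5
          unfold X1 at h5
          rw [map_sum] at h5
          have h7 := Finsupp.support_finsetSum h5
          rw [Finset.mem_biUnion] at h7
          obtain ⟨t, _, h8⟩ := h7
          rw [con_single] at h8
          have h9 : c t ≠ 0 := by
            intro h0
            rw [h0, Int.cast_zero, Finsupp.single_zero] at h8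
            simp at h8
          refine ⟨t, h9, ?_⟩
          have h10 := Finsupp.support_single_subset h8
          exact Finset.mem_singleton.1 h10
        obtain ⟨t, ht, rfl⟩ := h6
        have h7 := hc.supp t ht
        refine ⟨Finset.univ.image t ∩ V, Finset.mem_filter.2
          ⟨hK.2 _ h7 _ Finset.inter_subset_left, Finset.inter_subset_right⟩, fun i v => ?_⟩
        refine Fin.cases ?_ (fun i => ?_) i
        · rw [Fin.cons_zero]
          simp [pts]
        · rw [Fin.cons_succ]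
          exact ⟨abs_Q K V t i v, fun hv => Q_out t i hv⟩
      · -- homotopy
        have h6 := Finsupp.support_smul h5
        rw [hH] at h6
        have h7 := Finsupp.support_finsetSum h6
        rw [Finset.mem_biUnion] at h7
        obtain ⟨s, _, h8⟩ := h7
        have h9 : o s ≠ 0 := by
          intro h0
          rw [h0, Int.cast_zero, zero_smul] at h8
          simp at h8
        have h10 := Finsupp.support_smul h8
        exact ⟨_, ho2 s h9, hcube (m + 1) s p' h10⟩
    obtain ⟨σ, hσ, hq⟩ := hcase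
    refine ⟨σ, hσ, T, ?_, fun i v => ⟨?_, fun hv => ?_⟩⟩
    · rw [hvL]
      exact hT
    · change |cornerPt T v * p' i v| ≤ 1
      rw [abs_mul, abs_corner, one_mul]
      exact (hq i v).1
    · change cornerPt T v * p' i v = cornerPt T v
      rw [(hq i v).2 hv, mul_one]
  refine ⟨(-1 : ℝ) ^ (m + 1) * (1 / 2) ^ (m + 1), affL (sub K V) (Anti V Z), ?_, ?_⟩
  · exact mul_ne_zero (pow_ne_zero _ (by norm_num)) (pow_ne_zero _ (by norm_num))
  · rw [push_fund h4 hK hV c hc.supp _ (fun p => rfl), hmain, map_add, map_smul,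
      hmom (m + 1) o, hvL, hbd (m + 1) _ hgood]

end MP8a95ee.Ref.C6P
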