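import Pool.Agent.Work.MP_8a95ee_gt.Ref.Stmts

/-!
# D4: the map induced by a covering is a local homeomorphism
-/

set_option autoImplicit false

namespace MP8a95ee.Ref.D4P

theorem mem_vt {L : Finset (Finset ℕ)} {x : ℕ} : x ∈ verts L ↔ ∃ σ ∈ L, x ∈ σ := by
  simp [verts]

/-- faces comparable with `s0` -/
def Cp (K : Finset (Finset ℕ)) (s0 s : Finset ℕ) : Prop :=
  s ∈ K ∧ s.Nonempty ∧ (s ⊆ s0 ∨ s0 ⊆ s)

section comb

variable {K K' : Finset (Finset ℕ)} {π : ℕ → ℕ} {d : ℕ}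

theorem uniq (hc : IsCover K K' π d) {w : ℕ} {s₁ s₂ : Finset ℕ} (h₁ : s₁ ∈ K') (h₂ : s₂ ∈ K')
    (w₁ : w ∈ s₁) (w₂ : w ∈ s₂) (h : s₁.image π = s₂.image π) : s₁ = s₂ := by
  obtain ⟨t, -, ht⟩ := hc.lift w (mem_vt.mpr ⟨s₁, h₁, w₁⟩) (s₁.image π) (hc.simp s₁ h₁).1
    (Finset.mem_image_of_mem π w₁)
  exact (ht s₁ ⟨h₁, w₁, rfl⟩).trans (ht s₂ ⟨h₂, w₂, h.symm⟩).symm

theorem sub_of_common (hc : IsCover K K' π d) {w : ℕ} {s₁ s₂ : Finset ℕ} (h₁ : s₁ ∈ K')
    (h₂ : s₂ ∈ K') (w₁ : w ∈ s₁) (w₂ : w ∈ s₂) (h : s₁.image π ⊆ s₂.image π) : s₁ ⊆ s₂ := by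
  have e : s₁ = s₂.filter (fun a => π a ∈ s₁.image π) := by
    refine uniq hc (w := w) h₁ (hc.cx.2 _ h₂ _ (Finset.filter_subset _ _)) w₁
      (Finset.mem_filter.mpr ⟨w₂, Finset.mem_image_of_mem π w₁⟩) ?_
    ext y
    constructor
    · intro hy
      obtain ⟨b, hb, rfl⟩ := Finset.mem_image.mp (h hy)
      exact Finset.mem_image.mpr ⟨b, Finset.mem_filter.mpr ⟨hb, hy⟩, rfl⟩
    · intro hy
      obtain ⟨b, hb, rfl⟩ := Finset.mem_image.mp hy
      exact (Finset.mem_filter.mp hb).2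
  rw [e]
  exact Finset.filter_subset _ _

theorem mono (hc : IsCover K K' π d) {s0 s₁ s₂ : Finset ℕ} (h0 : s0 ∈ K') (hne : s0.Nonempty)
    (h₁ : Cp K' s0 s₁) (h₂ : Cp K' s0 s₂) (h : s₁.image π ⊆ s₂.image π) : s₁ ⊆ s₂ := by
  obtain ⟨w, hw⟩ := hne
  have both : s₁ ⊆ s0 → s₂ ⊆ s0 → s₁ ⊆ s₂ := by
    intro a1 a2 x hx
    obtain ⟨b, hb, hbx⟩ := Finset.mem_image.mp (h (Finset.mem_image_of_mem π hx))
    have : b = x := (hc.simp s0 h0).2 (a2 hb) (a1 hx) hbx
    rwa [← this]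
  rcases h₁.2.2 with a1 | a1 <;> rcases h₂.2.2 with a2 | a2
  · exact both a1 a2
  · exact a1.trans a2
  · refine both ?_ a2
    exact sub_of_common hc h₁.1 h0 (a1 hw) hw (h.trans (Finset.image_subset_image a2))
  · exact sub_of_common hc h₁.1 h₂.1 (a1 hw) (a2 hw) h

theorem inj (hc : IsCover K K' π d) {s0 s₁ s₂ : Finset ℕ} (h0 : s0 ∈ K') (hne : s0.Nonempty)
    (h₁ : Cp K' s0 s₁) (h₂ : Cp K' s0 s₂) (h : s₁.image π = s₂.image π) : s₁ = s₂ :=
  (mono hc h0 hne h₁ h₂ h.subset).antisymm (mono hc h0 hne h₂ h₁ h.symm.subset)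

theorem cp_image (hc : IsCover K K' π d) {s0 s : Finset ℕ} (h : Cp K' s0 s) :
    Cp K (s0.image π) (s.image π) :=
  ⟨(hc.simp s h.1).1, h.2.1.image π, h.2.2.imp (fun h => Finset.image_subset_image h)
    fun h => Finset.image_subset_image h⟩

theorem surj (hc : IsCover K K' π d) {s0 s : Finset ℕ} (h0 : s0 ∈ K') (hne : s0.Nonempty)
    (h : Cp K (s0.image π) s) : ∃ s', Cp K' s0 s' ∧ s'.image π = s := by
  rcases h.2.2 with h1 | h1
  · have e : (s0.filter (fun a => π a ∈ s)).image π = s := by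
      ext y
      constructor
      · intro hy
        obtain ⟨b, hb, rfl⟩ := Finset.mem_image.mp hy
        exact (Finset.mem_filter.mp hb).2
      · intro hy
        obtain ⟨b, hb, rfl⟩ := Finset.mem_image.mp (h1 hy)
        exact Finset.mem_image.mpr ⟨b, Finset.mem_filter.mpr ⟨hb, hy⟩, rfl⟩
    refine ⟨s0.filter (fun a => π a ∈ s), ⟨hc.cx.2 _ h0 _ (Finset.filter_subset _ _), ?_,
      Or.inl (Finset.filter_subset _ _)⟩, e⟩
    have : ((s0.filter (fun a => π a ∈ s)).image π).Nonempty := by rw [e]; exact h.2.1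
    exact Finset.image_nonempty.mp this
  · obtain ⟨w, hw⟩ := hne
    obtain ⟨s', ⟨h1', h2', h3'⟩, -⟩ := hc.lift w (mem_vt.mpr ⟨s0, h0, hw⟩) s h.1
      (h1 (Finset.mem_image_of_mem π hw))
    exact ⟨s', ⟨h1', ⟨w, h2'⟩, Or.inr (sub_of_common hc h0 h1' hw h2' (by rw [h3']; exact h1))⟩,
      h3'⟩

theorem cp_ins {s0 : Finset ℕ} {a : ℕ} (h : insert a s0 ∈ K') : Cp K' s0 (insert a s0) :=
  ⟨h, Finset.insert_nonempty _ _, Or.inr (Finset.subset_insert _ _)⟩

theorem ins_of (hc : IsCover K K' π d) {s0 s : Finset ℕ} (h0 : s0 ∈ K') (hs : Cp K' s0 s) {a : ℕ}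
    (ha : a ∈ s) : insert a s0 ∈ K' := by
  rcases hs.2.2 with h | h
  · rw [Finset.insert_eq_of_mem (h ha)]; exact h0
  · exact hc.cx.2 _ hs.1 _ (Finset.insert_subset ha h)

theorem mem_of (hc : IsCover K K' π d) {s0 s : Finset ℕ} (h0 : s0 ∈ K') (hne : s0.Nonempty)
    (hs : Cp K' s0 s) {a : ℕ} (ha : insert a s0 ∈ K') (h : π a ∈ s.image π) : a ∈ s := by
  rcases hs.2.2 with h1 | h1
  · obtain ⟨b, hb, hba⟩ := Finset.mem_image.mp h
    have : b = a := (hc.simp _ ha).2 (Finset.mem_insert_of_mem (h1 hb))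
      (Finset.mem_insert_self _ _) hba
    rwa [← this]
  · refine mono hc h0 hne (cp_ins ha) hs ?_ (Finset.mem_insert_self _ _)
    rw [Finset.image_insert]
    exact Finset.insert_subset h (Finset.image_subset_image h1)

theorem ins_inj (hc : IsCover K K' π d) {s0 : Finset ℕ} (h0 : s0 ∈ K') (hne : s0.Nonempty)
    {a b : ℕ} (ha : insert a s0 ∈ K') (hb : insert b s0 ∈ K') (h : π a = π b) : a = b := by
  have e : insert a s0 = insert b s0 := inj hc h0 hne (cp_ins ha) (cp_ins hb) (by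
    rw [Finset.image_insert, Finset.image_insert, h])
  exact (hc.simp _ ha).2 (Finset.mem_insert_self _ _) (by
    rw [e]; exact Finset.mem_insert_self _ _) h

end comb

/-- the vertices of the boundary which can be added to `s0` -/
def AA (K' : Finset (Finset ℕ)) (V' s0 : Finset ℕ) : Finset ℕ :=
  V'.filter fun a => insert a s0 ∈ K'

theorem supp_cp {K : Finset (Finset ℕ)} {V s0 s : Finset ℕ} {p : (Finset ℕ → ℝ) × (ℕ → ℝ)}
    (hp : p ∈ Mf K V) (h : 0 < p.1 s0) (hs : p.1 s ≠ 0) : Cp K s0 s :=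
  ⟨(hp.1.2.1 s hs).1, (hp.1.2.1 s hs).2, hp.1.2.2.1 s s0 hs h.ne'⟩

theorem abs_eq_one' {K K' : Finset (Finset ℕ)} {π : ℕ → ℕ} {d : ℕ} (hc : IsCover K K' π d)
    {V' s0 : Finset ℕ} (h0 : s0 ∈ K') {p : (Finset ℕ → ℝ) × (ℕ → ℝ)} (hp : p ∈ Mf K' V')
    (h : 0 < p.1 s0) {a : ℕ} (ha : a ∉ AA K' V' s0) : |p.2 a| = 1 := by
  have h1 := hp.2.1 a
  rw [Finset.sum_eq_zero, add_zero] at h1
  · exact h1
  intro s hs
  obtain ⟨hs1, has⟩ := Finset.mem_filter.mp hs
  obtain ⟨hsK, hsV⟩ := Finset.mem_filter.mp hs1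
  by_contra hne
  exact ha (Finset.mem_filter.mpr ⟨hsV has, ins_of hc h0 (supp_cp hp h hne) has⟩)

/-- the signs -/
noncomputable def cc (K' : Finset (Finset ℕ)) (π : ℕ → ℕ) (V' s0 : Finset ℕ) (x0 : ℕ → ℝ)
    (v : ℕ) : ℝ :=
  ∏ b ∈ (V' \ AA K' V' s0).filter (fun b => π b = v), x0 b

open Classical in
/-- the formula of the inverse -/
noncomputable def RR (K' : Finset (Finset ℕ)) (π : ℕ → ℕ) (V' s0 : Finset ℕ) (x0 : ℕ → ℝ)
    (y : (Finset ℕ → ℝ) × (ℕ → ℝ)) : (Finset ℕ → ℝ) × (ℕ → ℝ) :=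
  (fun s => if Cp K' s0 s then y.1 (s.image π) else 0,
   fun a => if a ∈ AA K' V' s0 then y.2 (π a) * cc K' π V' s0 x0 (π a)
     else if a ∈ V' then x0 a else 1)

theorem continuous_RR (K' : Finset (Finset ℕ)) (π : ℕ → ℕ) (V' s0 : Finset ℕ) (x0 : ℕ → ℝ) :
    Continuous (RR K' π V' s0 x0) := by
  unfold RR
  refine Continuous.prodMk ?_ ?_
  · refine continuous_pi fun s => ?_
    split_ifs
    · exact (continuous_apply _).comp continuous_fst
    · exact continuous_const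
  · refine continuous_pi fun a => ?_
    split_ifs
    · exact ((continuous_apply _).comp continuous_snd).mul continuous_const
    · exact continuous_const
    · exact continuous_const

section main

variable {K K' : Finset (Finset ℕ)} {π : ℕ → ℕ} {d : ℕ} {V : Finset ℕ} {s0 : Finset ℕ}
  {x0 : ℕ → ℝ}

theorem cc_sq (hx0 : ∀ a ∈ pre K' π V, a ∉ AA K' (pre K' π V) s0 → |x0 a| = 1) (v : ℕ) :
    cc K' π (pre K' π V) s0 x0 v * cc K' π (pre K' π V) s0 x0 v = 1 := by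
  unfold cc
  rw [← Finset.prod_mul_distrib]
  apply Finset.prod_eq_one
  intro b hb
  obtain ⟨hb1, -⟩ := Finset.mem_filter.mp hb
  obtain ⟨hb2, hb3⟩ := Finset.mem_sdiff.mp hb1
  have := hx0 b hb2 hb3
  rw [← abs_mul_abs_self, this, one_mul]

theorem prod_split (x : ℕ → ℝ) {v : ℕ} (hv : v ∈ V) :
    ∏ a ∈ (verts K').filter (fun a => π a = v), x a =
      (∏ a ∈ (AA K' (pre K' π V) s0).filter (fun a => π a = v), x a) *
        ∏ a ∈ ((pre K' π V) \ AA K' (pre K' π V) s0).filter (fun a => π a = v), x a := by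
  rw [← Finset.prod_union]
  · congr 1
    ext a
    simp only [Finset.mem_union, Finset.mem_filter, Finset.mem_sdiff, AA, pre]
    constructor
    · rintro ⟨h1, h2⟩
      by_cases h : insert a s0 ∈ K'
      · exact Or.inl ⟨⟨⟨h1, by rw [h2]; exact hv⟩, h⟩, h2⟩
      · exact Or.inr ⟨⟨⟨h1, by rw [h2]; exact hv⟩, fun h' => h h'.2⟩, h2⟩
    · rintro (⟨⟨⟨h1, -⟩, -⟩, h2⟩ | ⟨⟨⟨h1, -⟩, -⟩, h2⟩)
      · exact ⟨h1, h2⟩
      · exact ⟨h1, h2⟩
  · rw [Finset.disjoint_left]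
    intro a h1 h2
    exact (Finset.mem_sdiff.mp (Finset.mem_filter.mp h2).1).2 (Finset.mem_filter.mp h1).1

theorem filter_AA (hc : IsCover K K' π d) (h0 : s0 ∈ K') (hne : s0.Nonempty) {a : ℕ}
    (ha : a ∈ AA K' (pre K' π V) s0) :
    (AA K' (pre K' π V) s0).filter (fun b => π b = π a) = {a} := by
  ext b
  rw [Finset.mem_filter, Finset.mem_singleton]
  constructor
  · rintro ⟨h1, h2⟩
    exact ins_inj hc h0 hne (Finset.mem_filter.mp h1).2 (Finset.mem_filter.mp ha).2 h2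
  · rintro rfl
    exact ⟨ha, rfl⟩

theorem abs_cc (hx0 : ∀ a ∈ pre K' π V, a ∉ AA K' (pre K' π V) s0 → |x0 a| = 1) (v : ℕ) :
    |cc K' π (pre K' π V) s0 x0 v| = 1 := by
  have h := cc_sq hx0 v
  have h1 : |cc K' π (pre K' π V) s0 x0 v| * |cc K' π (pre K' π V) s0 x0 v| = 1 := by
    rw [abs_mul_abs_self, h]
  nlinarith [abs_nonneg (cc K' π (pre K' π V) s0 x0 v)]

/-- the source -/
def UU (K' : Finset (Finset ℕ)) (V' s0 : Finset ℕ) (x0 : ℕ → ℝ)
    (p : (Finset ℕ → ℝ) × (ℕ → ℝ)) : Prop :=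
  0 < p.1 s0 ∧ ∀ a ∈ V', a ∉ AA K' V' s0 → 0 < p.2 a * x0 a

/-- the target -/
def WW (K' : Finset (Finset ℕ)) (π : ℕ → ℕ) (V V' s0 : Finset ℕ) (x0 : ℕ → ℝ)
    (y : (Finset ℕ → ℝ) × (ℕ → ℝ)) : Prop :=
  0 < y.1 (s0.image π) ∧
    ∀ v ∈ V, (∀ a ∈ AA K' V' s0, π a ≠ v) → 0 < y.2 v * cc K' π V' s0 x0 v

theorem eq_of_sign {x y : ℝ} (hx : |x| = 1) (hy : |y| = 1) (h : 0 < x * y) : x = y := by
  rcases (abs_eq zero_le_one).mp hx with rfl | rfl <;>
    rcases (abs_eq zero_le_one).mp hy with rfl | rfl <;> first | rfl | (norm_num at h)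

theorem U_eq (hc : IsCover K K' π d) (h0 : s0 ∈ K')
    (hx0 : ∀ a ∈ pre K' π V, a ∉ AA K' (pre K' π V) s0 → |x0 a| = 1)
    {p : (Finset ℕ → ℝ) × (ℕ → ℝ)} (hp : p ∈ Mf K' (pre K' π V))
    (hU : UU K' (pre K' π V) s0 x0 p) {a : ℕ} (ha : a ∈ pre K' π V)
    (ha' : a ∉ AA K' (pre K' π V) s0) : p.2 a = x0 a :=
  eq_of_sign (abs_eq_one' hc h0 hp hU.1 ha') (hx0 a ha ha') (hU.2 a ha ha')

theorem q_one (hc : IsCover K K' π d) (h0 : s0 ∈ K') (hne : s0.Nonempty) {V' : Finset ℕ}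
    {p : (Finset ℕ → ℝ) × (ℕ → ℝ)} (hp : p ∈ Mf K' V')
    (hU : 0 < p.1 s0) {s : Finset ℕ} (hs : Cp K' s0 s) :
    ∑ σ' ∈ K'.filter (fun σ' => σ'.image π = s.image π), p.1 σ' = p.1 s := by
  rw [Finset.sum_eq_single s]
  · intro t ht hts
    by_contra hne'
    exact hts (inj hc h0 hne (supp_cp hp hU hne') hs (Finset.mem_filter.mp ht).2)
  · intro h
    have h' : s ∈ K'.filter (fun σ' => σ'.image π = s.image π) :=
      Finset.mem_filter.mpr ⟨hs.1, rfl⟩
    exact absurd h' h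

theorem RR_one_mem {y : (Finset ℕ → ℝ) × (ℕ → ℝ)} {V' : Finset ℕ} {s : Finset ℕ}
    (h : (RR K' π V' s0 x0 y).1 s ≠ 0) : Cp K' s0 s ∧ y.1 (s.image π) ≠ 0 := by
  classical
  by_cases hs : Cp K' s0 s
  · refine ⟨hs, ?_⟩
    simp only [RR] at h
    rwa [if_pos hs] at h
  · exact absurd (by simp only [RR]; rw [if_neg hs]) h

theorem RR_one {y : (Finset ℕ → ℝ) × (ℕ → ℝ)} {V' : Finset ℕ} {s : Finset ℕ}
    (h : Cp K' s0 s) : (RR K' π V' s0 x0 y).1 s = y.1 (s.image π) := by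
  classical
  simp only [RR]; rw [if_pos h]

theorem RR_zero {y : (Finset ℕ → ℝ) × (ℕ → ℝ)} {V' : Finset ℕ} {s : Finset ℕ}
    (h : ¬ Cp K' s0 s) : (RR K' π V' s0 x0 y).1 s = 0 := by
  classical
  simp only [RR]; rw [if_neg h]

/-- reindexing of a sum over faces -/
theorem sum_reindex (hc : IsCover K K' π d) (h0 : s0 ∈ K') (hne : s0.Nonempty)
    {y : (Finset ℕ → ℝ) × (ℕ → ℝ)} (hy : y ∈ Mf K V) (hW : 0 < y.1 (s0.image π)) {V' : Finset ℕ}
    (A : Finset (Finset ℕ)) (B : Finset (Finset ℕ))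
    (h1 : ∀ s ∈ A, Cp K' s0 s → s.image π ∈ B)
    (h2 : ∀ s, Cp K' s0 s → s.image π ∈ B → s ∈ A) :
    ∑ s ∈ A, (RR K' π V' s0 x0 y).1 s = ∑ s ∈ B, y.1 s := by
  classical
  have e1 : ∑ s ∈ A, (RR K' π V' s0 x0 y).1 s =
      ∑ s ∈ A.filter (fun s => Cp K' s0 s), y.1 (s.image π) := by
    rw [Finset.sum_filter]
    apply Finset.sum_congr rfl
    intro s _
    by_cases hs : Cp K' s0 s
    · rw [RR_one hs, if_pos hs]
    · rw [RR_zero hs, if_neg hs]
  have e2 : ∑ s ∈ B, y.1 s = ∑ s ∈ B.filter (fun s => Cp K (s0.image π) s), y.1 s := by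
    rw [Finset.sum_filter]
    apply Finset.sum_congr rfl
    intro s _
    by_cases hs : Cp K (s0.image π) s
    · rw [if_pos hs]
    · rw [if_neg hs]
      by_contra hne'
      exact hs (supp_cp hy hW hne')
  rw [e1, e2]
  refine Finset.sum_bij (fun s _ => s.image π) ?_ ?_ ?_ ?_
  · intro s hs
    obtain ⟨hs1, hs2⟩ := Finset.mem_filter.mp hs
    exact Finset.mem_filter.mpr ⟨h1 s hs1 hs2, cp_image hc hs2⟩
  · intro s hs t ht hst
    exact inj hc h0 hne (Finset.mem_filter.mp hs).2 (Finset.mem_filter.mp ht).2 hst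
  · intro t ht
    obtain ⟨ht1, ht2⟩ := Finset.mem_filter.mp ht
    obtain ⟨s, hs, rfl⟩ := surj hc h0 hne ht2
    exact ⟨s, Finset.mem_filter.mpr ⟨h2 s hs ht1, hs⟩, rfl⟩
  · intro s _
    rfl

theorem RR_mem (hc : IsCover K K' π d) (h0 : s0 ∈ K') (hne : s0.Nonempty)
    (hx0 : ∀ a ∈ pre K' π V, a ∉ AA K' (pre K' π V) s0 → |x0 a| = 1)
    {y : (Finset ℕ → ℝ) × (ℕ → ℝ)} (hy : y ∈ Mf K V) (hW : 0 < y.1 (s0.image π)) :
    RR K' π (pre K' π V) s0 x0 y ∈ Mf K' (pre K' π V) := by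
  classical
  refine ⟨⟨?_, ?_, ?_, ?_⟩, ?_, ?_⟩
  · intro s
    by_cases hs : Cp K' s0 s
    · rw [RR_one hs]; exact hy.1.1 _
    · rw [RR_zero hs]
  · intro s hs
    obtain ⟨h1, -⟩ := RR_one_mem hs
    exact ⟨h1.1, h1.2.1⟩
  · intro s t hs ht
    obtain ⟨hs1, hs2⟩ := RR_one_mem hs
    obtain ⟨ht1, ht2⟩ := RR_one_mem ht
    exact (hy.1.2.2.1 _ _ hs2 ht2).imp (mono hc h0 hne hs1 ht1) (mono hc h0 hne ht1 hs1)
  · rw [sum_reindex hc h0 hne hy hW K' K (fun s hs _ => (hc.simp s hs).1)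
      (fun s hs _ => hs.1)]
    exact hy.1.2.2.2
  · intro i
    by_cases hi : i ∈ AA K' (pre K' π V) s0
    · obtain ⟨hi1, hi2⟩ := Finset.mem_filter.mp hi
      have e1 : |(RR K' π (pre K' π V) s0 x0 y).2 i| = |y.2 (π i)| := by
        simp only [RR]
        rw [if_pos hi, abs_mul, abs_cc hx0, mul_one]
      have e2 : ∑ σ ∈ (sub K' (pre K' π V)).filter (fun σ => i ∈ σ),
          (RR K' π (pre K' π V) s0 x0 y).1 σ =
          ∑ σ ∈ (sub K V).filter (fun σ => π i ∈ σ), y.1 σ := by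
        apply sum_reindex hc h0 hne hy hW
        · intro s hs hcp
          obtain ⟨hs1, hs2⟩ := Finset.mem_filter.mp hs
          obtain ⟨hs3, hs4⟩ := Finset.mem_filter.mp hs1
          refine Finset.mem_filter.mpr ⟨Finset.mem_filter.mpr ⟨(hc.simp s hs3).1, ?_⟩,
            Finset.mem_image_of_mem π hs2⟩
          intro v hv
          obtain ⟨b, hb, rfl⟩ := Finset.mem_image.mp hv
          exact (Finset.mem_filter.mp (hs4 hb)).2
        · intro s hcp hs
          obtain ⟨hs1, hs2⟩ := Finset.mem_filter.mp hs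
          obtain ⟨hs3, hs4⟩ := Finset.mem_filter.mp hs1
          refine Finset.mem_filter.mpr ⟨Finset.mem_filter.mpr ⟨hcp.1, ?_⟩,
            mem_of hc h0 hne hcp hi2 hs2⟩
          intro b hb
          exact Finset.mem_filter.mpr ⟨mem_vt.mpr ⟨s, hcp.1, hb⟩,
            hs4 (Finset.mem_image_of_mem π hb)⟩
      rw [e1, e2]
      exact hy.2.1 (π i)
    · have e1 : |(RR K' π (pre K' π V) s0 x0 y).2 i| = 1 := by
        simp only [RR]
        rw [if_neg hi]
        split_ifs with h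
        · exact hx0 i h hi
        · exact _root_.abs_one
      rw [e1, Finset.sum_eq_zero, add_zero]
      intro s hs
      obtain ⟨hs1, hs2⟩ := Finset.mem_filter.mp hs
      obtain ⟨hs3, hs4⟩ := Finset.mem_filter.mp hs1
      apply RR_zero
      intro hcp
      exact hi (Finset.mem_filter.mpr ⟨hs4 hs2, ins_of hc h0 hcp hs2⟩)
  · intro i hi
    simp only [RR]
    have hi' : i ∉ AA K' (pre K' π V) s0 := fun h => hi (Finset.mem_filter.mp h).1
    rw [if_neg hi', if_neg hi]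

theorem RR_U (h0 : s0 ∈ K') (hne : s0.Nonempty)
    (hx0 : ∀ a ∈ pre K' π V, a ∉ AA K' (pre K' π V) s0 → |x0 a| = 1)
    {y : (Finset ℕ → ℝ) × (ℕ → ℝ)} (hW : 0 < y.1 (s0.image π)) :
    UU K' (pre K' π V) s0 x0 (RR K' π (pre K' π V) s0 x0 y) := by
  classical
  refine ⟨?_, ?_⟩
  · rw [RR_one ⟨h0, hne, Or.inl (Finset.Subset.refl _)⟩]
    exact hW
  · intro a ha ha'
    simp only [RR]
    rw [if_neg ha', if_pos ha, ← abs_mul_abs_self, hx0 a ha ha', one_mul]
    exact one_pos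

/-- `q` of the inverse -/
theorem q_RR (hc : IsCover K K' π d) (h0 : s0 ∈ K')
    (hne : s0.Nonempty)
    (hx0 : ∀ a ∈ pre K' π V, a ∉ AA K' (pre K' π V) s0 → |x0 a| = 1)
    {y : (Finset ℕ → ℝ) × (ℕ → ℝ)} (hy : y ∈ Mf K V) (hW : WW K' π V (pre K' π V) s0 x0 y) :
    (∀ σ, ∑ σ' ∈ K'.filter (fun σ' => σ'.image π = σ),
        (RR K' π (pre K' π V) s0 x0 y).1 σ' = y.1 σ) ∧
      ∀ i, ∏ a ∈ (verts K').filter (fun a => π a = i),
        (RR K' π (pre K' π V) s0 x0 y).2 a = y.2 i := by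
  classical
  refine ⟨?_, ?_⟩
  · intro σ
    by_cases hσ : σ ∈ K
    · rw [sum_reindex hc h0 hne hy hW.1 (K'.filter (fun σ' => σ'.image π = σ)) {σ},
        Finset.sum_singleton]
      · intro s hs _
        exact Finset.mem_singleton.mpr (Finset.mem_filter.mp hs).2
      · intro s hs h
        exact Finset.mem_filter.mpr ⟨hs.1, Finset.mem_singleton.mp h⟩
    · have e1 : y.1 σ = 0 := by
        by_contra h
        exact hσ (hy.1.2.1 σ h).1
      rw [e1]
      apply Finset.sum_eq_zero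
      intro s hs
      obtain ⟨hs1, hs2⟩ := Finset.mem_filter.mp hs
      exact absurd (by rw [← hs2]; exact (hc.simp s hs1).1) hσ
  · intro v
    by_cases hv : v ∈ V
    · rw [prod_split (s0 := s0) _ hv]
      have e2 : ∏ a ∈ ((pre K' π V) \ AA K' (pre K' π V) s0).filter (fun a => π a = v),
          (RR K' π (pre K' π V) s0 x0 y).2 a = cc K' π (pre K' π V) s0 x0 v := by
        unfold cc
        apply Finset.prod_congr rfl
        intro a ha
        obtain ⟨ha1, -⟩ := Finset.mem_filter.mp ha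
        obtain ⟨ha2, ha3⟩ := Finset.mem_sdiff.mp ha1
        simp only [RR]
        rw [if_neg ha3, if_pos ha2]
      rw [e2]
      by_cases hex : ∃ a ∈ AA K' (pre K' π V) s0, π a = v
      · obtain ⟨a, ha, rfl⟩ := hex
        rw [filter_AA hc h0 hne ha, Finset.prod_singleton]
        simp only [RR]
        rw [if_pos ha, mul_assoc, cc_sq hx0, mul_one]
      · push Not at hex
        have e3 : (AA K' (pre K' π V) s0).filter (fun a => π a = v) = ∅ := by
          apply Finset.filter_eq_empty_iff.mpr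
          intro a ha
          exact hex a ha
        rw [e3, Finset.prod_empty, one_mul]
        have h1 : |y.2 v| = 1 := by
          have h1 := hy.2.1 v
          rw [Finset.sum_eq_zero, add_zero] at h1
          · exact h1
          intro s hs
          obtain ⟨hs1, hs2⟩ := Finset.mem_filter.mp hs
          obtain ⟨hs3, hs4⟩ := Finset.mem_filter.mp hs1
          by_contra hne'
          obtain ⟨s', hs', rfl⟩ := surj hc h0 hne (supp_cp hy hW.1 hne')
          obtain ⟨a, ha, hav⟩ := Finset.mem_image.mp hs2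
          refine hex a (Finset.mem_filter.mpr ⟨Finset.mem_filter.mpr
            ⟨mem_vt.mpr ⟨s', hs'.1, ha⟩, ?_⟩, ins_of hc h0 hs' ha⟩) hav
          rw [hav]; exact hv
        exact (eq_of_sign h1 (abs_cc hx0 v) (hW.2 v hv hex)).symm
    · rw [hy.2.2 v hv]
      apply Finset.prod_eq_one
      intro a ha
      obtain ⟨-, ha2⟩ := Finset.mem_filter.mp ha
      have : a ∉ pre K' π V := by
        intro h
        exact hv (by rw [← ha2]; exact (Finset.mem_filter.mp h).2)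
      simp only [RR]
      have this' : a ∉ AA K' (pre K' π V) s0 := fun h => this (Finset.mem_filter.mp h).1
      rw [if_neg this', if_neg this]

/-- the inverse of `q` -/
theorem RR_q (hc : IsCover K K' π d) (h0 : s0 ∈ K')
    (hne : s0.Nonempty)
    (hx0 : ∀ a ∈ pre K' π V, a ∉ AA K' (pre K' π V) s0 → |x0 a| = 1)
    {p : (Finset ℕ → ℝ) × (ℕ → ℝ)} (hp : p ∈ Mf K' (pre K' π V))
    (hU : UU K' (pre K' π V) s0 x0 p) {y : (Finset ℕ → ℝ) × (ℕ → ℝ)}
    (hy1 : ∀ σ, y.1 σ = ∑ σ' ∈ K'.filter (fun σ' => σ'.image π = σ), p.1 σ')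
    (hy2 : ∀ i, y.2 i = ∏ a ∈ (verts K').filter (fun a => π a = i), p.2 a) :
    WW K' π V (pre K' π V) s0 x0 y ∧ RR K' π (pre K' π V) s0 x0 y = p := by
  classical
  have hs0 : Cp K' s0 s0 := ⟨h0, hne, Or.inl (Finset.Subset.refl _)⟩
  have e2 : ∀ v, ∏ a ∈ ((pre K' π V) \ AA K' (pre K' π V) s0).filter (fun a => π a = v),
      p.2 a = cc K' π (pre K' π V) s0 x0 v := by
    intro v
    unfold cc
    apply Finset.prod_congr rfl
    intro a ha
    obtain ⟨ha1, -⟩ := Finset.mem_filter.mp ha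
    obtain ⟨ha2, ha3⟩ := Finset.mem_sdiff.mp ha1
    exact U_eq hc h0 hx0 hp hU ha2 ha3
  refine ⟨⟨?_, ?_⟩, ?_⟩
  · rw [hy1, q_one hc h0 hne hp hU.1 hs0]
    exact hU.1
  · intro v hv hex
    have e3 : (AA K' (pre K' π V) s0).filter (fun a => π a = v) = ∅ := by
      apply Finset.filter_eq_empty_iff.mpr
      intro a ha
      exact hex a ha
    rw [hy2, prod_split (s0 := s0) _ hv, e3, Finset.prod_empty, one_mul, e2, cc_sq hx0]
    exact one_pos
  · refine Prod.ext ?_ ?_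
    · funext s
      by_cases hs : Cp K' s0 s
      · rw [RR_one hs, hy1, q_one hc h0 hne hp hU.1 hs]
      · rw [RR_zero hs]
        by_contra h
        exact hs (supp_cp hp hU.1 (Ne.symm h))
    · funext a
      simp only [RR]
      by_cases ha : a ∈ AA K' (pre K' π V) s0
      · rw [if_pos ha, hy2, prod_split (s0 := s0) (V := V) _
          (Finset.mem_filter.mp (Finset.mem_filter.mp ha).1).2, filter_AA hc h0 hne ha,
          Finset.prod_singleton, e2, mul_assoc, cc_sq hx0, mul_one]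
      · rw [if_neg ha]
        by_cases ha' : a ∈ pre K' π V
        · rw [if_pos ha']
          exact (U_eq hc h0 hx0 hp hU ha' ha).symm
        · rw [if_neg ha']
          exact (hp.2.2 a ha').symm

end main

open Classical in
theorem prf : S_D4 := by
  intro K K' π d V hK hV hc q hq e
  have hsum := e.2.1.2.2.2
  obtain ⟨s0, hs0K, hs0⟩ : ∃ s0 ∈ K', (e : (Finset ℕ → ℝ) × (ℕ → ℝ)).1 s0 ≠ 0 := by
    by_contra h
    push Not at h
    rw [Finset.sum_eq_zero h] at hsum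
    exact zero_ne_one hsum
  have hne : s0.Nonempty := (e.2.1.2.1 s0 hs0).2
  have hpos : 0 < (e : (Finset ℕ → ℝ) × (ℕ → ℝ)).1 s0 := lt_of_le_of_ne (e.2.1.1 s0) hs0.symm
  set x0 := (e : (Finset ℕ → ℝ) × (ℕ → ℝ)).2 with hx0d
  have hx0 : ∀ a ∈ (pre K' π V), a ∉ AA K' (pre K' π V) s0 → |x0 a| = 1 := fun a _ ha' =>
    abs_eq_one' hc hs0K e.2 hpos ha'
  have hcx : ∀ (A : Set ((Finset ℕ → ℝ) × (ℕ → ℝ))) (s : Finset ℕ),
      Continuous fun p : A => (p : (Finset ℕ → ℝ) × (ℕ → ℝ)).1 s := fun A s =>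
    (continuous_apply s).comp (continuous_fst.comp continuous_subtype_val)
  have hcy : ∀ (A : Set ((Finset ℕ → ℝ) × (ℕ → ℝ))) (i : ℕ),
      Continuous fun p : A => (p : (Finset ℕ → ℝ) × (ℕ → ℝ)).2 i := fun A s =>
    (continuous_apply s).comp (continuous_snd.comp continuous_subtype_val)
  let r : Mf K V → Mf K' (pre K' π V) := fun y =>
    if h : RR K' π (pre K' π V) s0 x0 y ∈ Mf K' (pre K' π V) then ⟨RR K' π (pre K' π V) s0 x0 y, h⟩ else e
  have hr : ∀ y : Mf K V, WW K' π V (pre K' π V) s0 x0 y →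
      ((r y : Mf K' (pre K' π V)) : (Finset ℕ → ℝ) × (ℕ → ℝ)) = RR K' π (pre K' π V) s0 x0 y := by
    intro y hy
    have : RR K' π (pre K' π V) s0 x0 y ∈ Mf K' (pre K' π V) := RR_mem hc hs0K hne hx0 y.2 hy.1
    simp only [r]
    rw [dif_pos this]
  refine ⟨{ toFun := q
            invFun := r
            source := {p | UU K' (pre K' π V) s0 x0 p}
            target := {y | WW K' π V (pre K' π V) s0 x0 y}
            map_source' := fun p hp => (RR_q hc hs0K hne hx0 p.2 hp (hq p).1 (hq p).2).1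
            map_target' := fun y hy => ?_
            left_inv' := fun p hp => ?_
            right_inv' := fun y hy => ?_
            open_source := ?_
            open_target := ?_
            continuousOn_toFun := q.continuous.continuousOn
            continuousOn_invFun := ?_ }, ?_, rfl⟩
  · change UU K' (pre K' π V) s0 x0 (r y)
    rw [hr y hy]
    exact RR_U hs0K hne hx0 hy.1
  · have h := RR_q hc hs0K hne hx0 p.2 hp (hq p).1 (hq p).2
    apply Subtype.ext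
    rw [hr (q p) h.1]
    exact h.2
  · have h := q_RR hc hs0K hne hx0 y.2 hy
    apply Subtype.ext
    refine Prod.ext ?_ ?_
    · funext σ
      rw [(hq (r y)).1 σ, hr y hy]
      exact h.1 σ
    · funext i
      rw [(hq (r y)).2 i, hr y hy]
      exact h.2 i
  · rw [Topology.IsInducing.subtypeVal.continuousOn_iff]
    refine ((continuous_RR K' π (pre K' π V) s0 x0).comp continuous_subtype_val).continuousOn.congr ?_
    intro y hy
    exact hr y hy
  · have e1 : {p : Mf K' (pre K' π V) | UU K' (pre K' π V) s0 x0 p} =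
        {p : Mf K' (pre K' π V) | 0 < (p : (Finset ℕ → ℝ) × (ℕ → ℝ)).1 s0} ∩
          ⋂ a ∈ (pre K' π V) \ AA K' (pre K' π V) s0,
            {p : Mf K' (pre K' π V) | 0 < (p : (Finset ℕ → ℝ) × (ℕ → ℝ)).2 a * x0 a} := by
      ext p
      simp only [UU, Set.mem_ofPred_eq, Set.mem_inter_iff, Set.mem_iInter, Finset.mem_sdiff,
        and_imp]
    rw [e1]
    refine (isOpen_lt continuous_const (hcx _ _)).inter ?_
    exact isOpen_biInter_finset fun a _ => isOpen_lt continuous_const ((hcy _ _).mul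
      continuous_const)
  · have e1 : {y : Mf K V | WW K' π V (pre K' π V) s0 x0 y} =
        {y : Mf K V | 0 < (y : (Finset ℕ → ℝ) × (ℕ → ℝ)).1 (s0.image π)} ∩
          ⋂ v ∈ V.filter (fun v => ∀ a ∈ AA K' (pre K' π V) s0, π a ≠ v),
            {y : Mf K V | 0 < (y : (Finset ℕ → ℝ) × (ℕ → ℝ)).2 v * cc K' π (pre K' π V) s0 x0 v} := by
      ext p
      simp only [WW, Set.mem_ofPred_eq, Set.mem_inter_iff, Set.mem_iInter, Finset.mem_filter,
        and_imp]
    rw [e1]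
    refine (isOpen_lt continuous_const (hcx _ _)).inter ?_
    exact isOpen_biInter_finset fun a _ => isOpen_lt continuous_const ((hcy _ _).mul
      continuous_const)
  · exact ⟨hpos, fun a ha ha' => by
      rw [← abs_mul_abs_self, hx0 a ha ha', one_mul]; exact one_pos⟩

end MP8a95ee.Ref.D4P
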