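import Pool.Agent.Work.MP_8a95ee_gt.Bd.B13
import Pool.Agent.Work.MP_8a95ee_gt.Bd.B12
import Pool.Agent.Work.MP_8a95ee_gt.Ref.I_A7
import Pool.Agent.Work.MP_8a95ee_gt.Ref.I_A8
import Pool.Agent.Work.MP_8a95ee_gt.Ref.I_B2
import Pool.Agent.Work.MP_8a95ee_gt.Ref.I_B6
import Pool.Agent.Work.MP_8a95ee_gt.Ref.I_B7
import Pool.Agent.Work.MP_8a95ee_gt.Ref.I_C1
import Pool.Agent.Work.MP_8a95ee_gt.Ref.I_C2
import Pool.Agent.Work.MP_8a95ee_gt.Ref.I_C5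
import Pool.Agent.Work.MP_8a95ee_gt.Ref.I_C6
import Pool.Agent.Work.MP_8a95ee_gt.Ref.I_D4
import Pool.Agent.Work.MP_8a95ee_gt.Bd.B14

/-!
# The main theorem of the block Ref, without hypotheses
-/

set_option autoImplicit false

namespace MP8a95ee.Ref

theorem pA1 : S_A1 := A1P.prf
theorem pA2 : S_A2 := A2P.prf
theorem pA3 : S_A3 := A3P.prf pA1
theorem pA4 : S_A4 := A4P.prf pA1 pA2
theorem pA5 : S_A5 := A5P.prf pA1 pA3 pA4
theorem pA6 : S_A6' := A6P.prf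
theorem pA7 : S_A7 := A7P.prf pA1 pA5 pA6
theorem pA8 : S_A8 := A8P.prf
theorem pA9 : S_A9 := A9P.prf
theorem pA10 : S_A10 := A10P.prf pA7 pA8 pA9
theorem pC2 : S_C2 := C2P.prf C1P.prf
theorem pC5 : S_C5 := C5P.prf C4P.prf
theorem pC6 : S_C6 := C6P.prf pC2 C3P.prf C4P.prf
theorem pD5 : S_D5 := D5P.prf D1P.prf D4P.prf
theorem pD10 : S_D10 := D10P.prf pA1 C4P.prf pD5 D7P.prf D8P.prf D9P.prf

theorem mainAll : S_Main :=
  Asm.asm pA10 B1P.prf B2P.prf B3P.prf B4P.prf B5P.prf B6P.prf B7P.prf pC5 pC6 D2P.prf D3P.prf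
    pD5 D6P.prf pD10

end MP8a95ee.Ref
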