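import Pool.Agent.Work.MP_8a95ee_gt.Bd.B06

/-!
# Gromov's question for the manifolds of the reflection trick of Davis: definitions

`K` is a finite simplicial complex on natural numbers and `V` a set of vertices of `K`; the full
subcomplex `sub K V` on `V` is the boundary of `K`.  The space `Mf K V` is obtained from
`2 ^ |V|` copies of the geometric realisation of the barycentric subdivision of `K` by the
reflection trick: the mirror of the vertex `v ∈ V` is the dual cell of `v` in the boundary.
-/

set_option autoImplicit false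

namespace MP8a95ee.Ref

/-! ### simplicial complexes -/

/-- `K` is a simplicial complex: it contains the empty face and is closed under subsets. -/
def IsCx (K : Finset (Finset ℕ)) : Prop := ∅ ∈ K ∧ ∀ σ ∈ K, ∀ τ ⊆ σ, τ ∈ K

/-- The full subcomplex of `K` on the vertices in `V`. -/
def sub (K : Finset (Finset ℕ)) (V : Finset ℕ) : Finset (Finset ℕ) := K.filter fun σ => σ ⊆ V

/-- `L` is a closed real homology manifold of dimension `n - 1`: the link of every nonempty face
`s` has the reduced real homology of a sphere of dimension `n - 1 - |s|`. -/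
def IsHMfd (L : Finset (Finset ℕ)) (n : ℕ) : Prop :=
  ∀ s ∈ L, s.Nonempty →
    (∀ k, s.card + k ≠ n → ∀ c, RA.LkChain L s k c → RA.bdS L c = 0 →
      ∃ c', RA.LkChain L s (k + 1) c' ∧ RA.bdS L c' = c) ∧
    (∀ k, s.card + k = n → ∃ z, RA.LkChain L s k z ∧ RA.bdS L z = 0 ∧
      (¬ ∃ c', RA.LkChain L s (k + 1) c' ∧ RA.bdS L c' = z) ∧
      ∀ c, RA.LkChain L s k c → RA.bdS L c = 0 →
        ∃ (lam : ℝ) (c' : Finset ℕ → ℝ), RA.LkChain L s (k + 1) c' ∧ c = lam • z + RA.bdS L c')

/-- `c` is an integral simplicial `n`-chain of `K` whose boundary is `o`, an `(n - 1)`-chain: `c` is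
written as an alternating function on ordered `(n + 1)`-tuples of vertices which vanishes unless
the entries form a face, and for every `n`-tuple `s` the sum of `c` over all values of an
additional last entry is `o s`. -/
structure IsRelCycle (K : Finset (Finset ℕ)) (n : ℕ) (o : (Fin n → ℕ) → ℤ)
    (c : (Fin (n + 1) → ℕ) → ℤ) : Prop where
  alt : ∀ (t : Fin (n + 1) → ℕ) (i j : Fin (n + 1)), i ≠ j → c (t ∘ Equiv.swap i j) = - c t
  supp : ∀ t : Fin (n + 1) → ℕ, c t ≠ 0 → Finset.univ.image t ∈ K
  bdry : ∀ s : Fin n → ℕ, ∑ a ∈ verts K, c (Fin.snoc (α := fun _ => ℕ) s a) = o s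

/-- `π : K' → K` is a covering of simplicial complexes with `d` sheets: `π` maps every face of `K'`
injectively onto a face of `K`, every face of `K` which contains `π v`, `v` a vertex of `K'`, is
the image of exactly one face of `K'` which contains `v`, and every vertex of `K` has exactly `d`
preimages. -/
structure IsCover (K K' : Finset (Finset ℕ)) (π : ℕ → ℕ) (d : ℕ) : Prop where
  cx : IsCx K'
  simp : ∀ σ ∈ K', σ.image π ∈ K ∧ Set.InjOn π (σ : Set ℕ)
  lift : ∀ v ∈ verts K', ∀ σ ∈ K, π v ∈ σ → ∃! σ' : Finset ℕ, σ' ∈ K' ∧ v ∈ σ' ∧ σ'.image π = σ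
  deg : ∀ v ∈ verts K, ((verts K').filter fun a => π a = v).card = d

/-- The preimage of the vertex set `V`. -/
def pre (K' : Finset (Finset ℕ)) (π : ℕ → ℕ) (V : Finset ℕ) : Finset ℕ :=
  (verts K').filter fun a => π a ∈ V

/-! ### Betti numbers and Euler characteristic -/

/-- real chains of `K`, written as functions on the nonempty faces -/
def Cu (K : Finset (Finset ℕ)) : Submodule ℝ (Finset ℕ → ℝ) where
  carrier := {y | ∀ u, y u ≠ 0 → u ∈ K ∧ u.Nonempty}
  add_mem' := fun {x y} hx hy u hu => by
    by_cases h : x u = 0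
    · refine hy u fun h' => hu ?_
      rw [Pi.add_apply, h, h', add_zero]
    · exact hx u h
  zero_mem' := fun u hu => absurd rfl hu
  smul_mem' := fun r x hx u hu => hx u fun h' => hu (by rw [Pi.smul_apply, h', smul_zero])

/-- the boundary operator on chains (unreduced) -/
noncomputable def bdu (K : Finset (Finset ℕ)) : (Finset ℕ → ℝ) →ₗ[ℝ] (Finset ℕ → ℝ) where
  toFun := fun y t => if t.Nonempty then ∑ a ∈ verts K \ t, RA.sg a t * y (insert a t) else 0
  map_add' := fun x y => by
    funext t
    by_cases ht : t.Nonempty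
    · simp only [if_pos ht, Pi.add_apply, mul_add, Finset.sum_add_distrib]
    · simp only [if_neg ht, Pi.add_apply, add_zero]
  map_smul' := fun r x => by
    funext t
    by_cases ht : t.Nonempty
    · simp only [if_pos ht, Pi.smul_apply, smul_eq_mul, RingHom.id_apply, Finset.mul_sum]
      exact Finset.sum_congr rfl fun a _ => by ring
    · simp only [if_neg ht, Pi.smul_apply, smul_zero]

/-- The sum of all real Betti numbers of `K`. -/
noncomputable def betti (K : Finset (Finset ℕ)) : ℕ :=
  Module.finrank ℝ (Cu K ⊓ LinearMap.ker (bdu K) : Submodule ℝ (Finset ℕ → ℝ)) -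
    Module.finrank ℝ ((Cu K).map (bdu K))

/-- the Euler characteristic of `K` -/
def chiK (K : Finset (Finset ℕ)) : ℤ := ∑ σ ∈ K.filter fun σ => σ.Nonempty, (-1) ^ (σ.card + 1)

/-! ### The manifold -/

/-- The geometric realisation of the barycentric subdivision of `K`: functions on the nonempty
faces of `K` with nonnegative values and sum `1`, whose support is a chain. -/
def Pt (K : Finset (Finset ℕ)) : Set (Finset ℕ → ℝ) :=
  {l | (∀ σ, 0 ≤ l σ) ∧ (∀ σ, l σ ≠ 0 → σ ∈ K ∧ σ.Nonempty) ∧
    (∀ σ τ, l σ ≠ 0 → l τ ≠ 0 → σ ⊆ τ ∨ τ ⊆ σ) ∧ ∑ σ ∈ K, l σ = 1}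

/-- The space obtained by the reflection trick: the pairs `(l, x)` where `l` is a point of the
geometric realisation of (the barycentric subdivision of) `K`, and `x` is a point of the cube
`[-1, 1] ^ V` (written as a function on the natural numbers with value `1` outside `V`) such that
`|x v|` is one minus the sum of the coordinates of `l` at the faces of the boundary which contain
`v`.  So `x v = 0` if and only if `l` lies in the mirror of `v`, the dual cell of `v` in the
boundary, and the space is the union of `2 ^ |V|` copies of `Pt K` glued along the mirrors. -/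
def Mf (K : Finset (Finset ℕ)) (V : Finset ℕ) : Set ((Finset ℕ → ℝ) × (ℕ → ℝ)) :=
  {p | p.1 ∈ Pt K ∧ (∀ i, |p.2 i| + ∑ σ ∈ (sub K V).filter (fun σ => i ∈ σ), p.1 σ = 1) ∧
    ∀ i, i ∉ V → p.2 i = 1}

/-- The face `{t 0, ..., t j}`. -/
def fl {n : ℕ} (t : Fin n → ℕ) (j : Fin n) : Finset ℕ :=
  (Finset.univ.filter fun i => i ≤ j).image t

/-- The point of the copy `T ⊆ V` of `Pt K` which has the barycentric coordinates `τ` in the
simplex of the barycentric subdivision with vertices `{t 0}, {t 0, t 1}, ...`. -/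
noncomputable def simPt (K : Finset (Finset ℕ)) (V T : Finset ℕ) {n : ℕ} (t : Fin (n + 1) → ℕ)
    (τ : stdSimplex ℝ (Fin (n + 1))) : (Finset ℕ → ℝ) × (ℕ → ℝ) :=
  (fun σ => ∑ j, if fl t j = σ then τ j else 0,
   fun i => cornerPt T i * (1 - ∑ j, if fl t j ∈ sub K V ∧ i ∈ fl t j then τ j else 0))

theorem continuous_simPt (K : Finset (Finset ℕ)) (V T : Finset ℕ) {n : ℕ}
    (t : Fin (n + 1) → ℕ) : Continuous (simPt K V T t) := by
  have hc : ∀ j, Continuous fun τ : stdSimplex ℝ (Fin (n + 1)) => (τ j : ℝ) := fun j =>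
    (continuous_apply j).comp continuous_subtype_val
  unfold simPt
  refine Continuous.prodMk ?_ ?_
  · refine continuous_pi fun σ => continuous_finsetSum _ fun j _ => ?_
    split_ifs
    · exact hc j
    · exact continuous_const
  · refine continuous_pi fun i => continuous_const.mul (continuous_const.sub ?_)
    refine continuous_finsetSum _ fun j _ => ?_
    split_ifs
    · exact hc j
    · exact continuous_const

open Classical in
/-- The simplex `simPt K V T t` as a singular chain of the space (zero if it is not contained in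
the space). -/
noncomputable def simCh (K : Finset (Finset ℕ)) (V T : Finset ℕ) {n : ℕ} (t : Fin (n + 1) → ℕ) :
    SChain (Mf K V) n :=
  if h : ∀ τ, simPt K V T t τ ∈ Mf K V then
    Finsupp.single ⟨fun τ => ⟨simPt K V T t τ, h τ⟩, (continuous_simPt K V T t).subtype_mk _⟩ 1
  else 0

/-- The fundamental cycle: the sum over all copies `T ⊆ V` and all ordered simplices `t` of `K` of
`(-1) ^ |T| * c t` times the simplex of the barycentric subdivision given by `t` in the copy
`T`. -/
noncomputable def fundCh (K : Finset (Finset ℕ)) (V : Finset ℕ) {n : ℕ}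
    (c : (Fin (n + 1) → ℕ) → ℤ) : SChain (Mf K V) n :=
  ∑ T ∈ V.powerset, ∑ t ∈ Fintype.piFinset (fun _ : Fin (n + 1) => verts K),
    ((-1 : ℝ) ^ T.card * (c t : ℝ)) • simCh K V T t

/-- The chains of nonempty faces of `K` (the simplices of the barycentric subdivision). -/
def flags (K : Finset (Finset ℕ)) : Finset (Finset (Finset ℕ)) :=
  (K.filter fun σ => σ.Nonempty).powerset.filter fun F =>
    F.Nonempty ∧ ∀ σ ∈ F, ∀ τ ∈ F, σ ⊆ τ ∨ τ ⊆ σ

/-- The Euler characteristic of `Mf K V`, as the alternating sum of the numbers of simplices of its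
triangulation: the simplex `F` of the barycentric subdivision of `K` lies in the mirrors of those
`v ∈ V` for which all elements of `F` are faces of the boundary which contain `v`; if there are `r`
such `v` then there are `2 ^ (|V| - r)` copies of `F`. -/
def chiM (K : Finset (Finset ℕ)) (V : Finset ℕ) : ℤ :=
  ∑ F ∈ flags K, (-1) ^ (F.card + 1) *
    2 ^ (V.card - (V.filter fun v => ∀ σ ∈ F, σ ⊆ V ∧ v ∈ σ).card)

/-! ### The main theorem -/

/-- The main theorem. -/
def S_Main : Prop :=
  ∀ (m : ℕ) (_ : 1 ≤ m) (K : Finset (Finset ℕ)) (_ : IsCx K) (V : Finset ℕ) (_ : V.Nonempty)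
    (_ : V ⊆ verts K) (_ : IsFlag (sub K V)) (_ : IsHMfd (sub K V) (m + 1))
    (o : (Fin (m + 1) → ℕ) → ℤ) (_ : IsOrient (sub K V) (m + 1) o)
    (c : (Fin (m + 2) → ℕ) → ℤ) (_ : IsRelCycle K (m + 1) o c),
    bd (fundCh K V c) = 0 ∧
    ((∀ ε : ℝ, 0 < ε → ∃ b : SChain (Mf K V) (m + 2), l1 (fundCh K V c + bd b) < ε) →
      ∀ (K' : Finset (Finset ℕ)) (π : ℕ → ℕ) (d : ℕ), 0 < d → IsCover K K' π d →
        (d : ℤ) * |chiM K V| ≤
          2 ^ V.card * ((betti K' : ℤ) + (betti (sub K' (pre K' π V)) : ℤ) + 1))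

end MP8a95ee.Ref
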