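import Pool.Agent.Work.MP_8a95ee_gt.Ref.Stmts

/-!
# C5: the fundamental chain is a cycle
-/

set_option autoImplicit false

namespace MP8a95ee.Ref.C5P

open Classical in
/-- a map as a singular chain -/
noncomputable def ch (A : Set ((Finset ℕ → ℝ) × (ℕ → ℝ))) {n : ℕ}
    (g : stdSimplex ℝ (Fin (n + 1)) → (Finset ℕ → ℝ) × (ℕ → ℝ)) : SChain A n :=
  if h : Continuous g ∧ ∀ τ, g τ ∈ A then
    Finsupp.single ⟨fun τ => ⟨g τ, h.2 τ⟩, h.1.subtype_mk _⟩ 1 else 0

theorem ch_pos {A : Set ((Finset ℕ → ℝ) × (ℕ → ℝ))} {n : ℕ}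
    {g : stdSimplex ℝ (Fin (n + 1)) → (Finset ℕ → ℝ) × (ℕ → ℝ)} (h1 : Continuous g)
    (h2 : ∀ τ, g τ ∈ A) :
    ch A g = Finsupp.single ⟨fun τ => ⟨g τ, h2 τ⟩, h1.subtype_mk _⟩ 1 := by
  unfold ch
  rw [dif_pos ⟨h1, h2⟩]

theorem simCh_eq (K : Finset (Finset ℕ)) (V T : Finset ℕ) {n : ℕ} (t : Fin (n + 1) → ℕ) :
    simCh K V T t = ch (Mf K V) (simPt K V T t) := by
  unfold simCh
  by_cases h : ∀ τ, simPt K V T t τ ∈ Mf K V
  · rw [dif_pos h, ch_pos (continuous_simPt K V T t) h]
  · rw [dif_neg h]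
    unfold ch
    rw [dif_neg fun h' => h h'.2]

theorem bd_ch {A : Set ((Finset ℕ → ℝ) × (ℕ → ℝ))} {n : ℕ}
    {g : stdSimplex ℝ (Fin (n + 1 + 1)) → (Finset ℕ → ℝ) × (ℕ → ℝ)} (h1 : Continuous g)
    (h2 : ∀ τ, g τ ∈ A) (r : ℝ) : bd (r • ch A g) = ∑ i : Fin (n + 2),
      ((-1 : ℝ) ^ (i : ℕ)) • (r • ch A fun τ => g (stdSimplex.map i.succAbove τ)) := by
  rw [ch_pos h1 h2, Finsupp.smul_single, smul_eq_mul, mul_one, B5.bd_single]
  refine Finset.sum_congr rfl fun i _ => ?_
  have h3 : Continuous fun τ => g (stdSimplex.map i.succAbove τ) :=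
    h1.comp (stdSimplex.continuous_map _)
  rw [ch_pos h3 fun t => h2 _, Finsupp.smul_single, Finsupp.smul_single, smul_eq_mul, smul_eq_mul,
    mul_one]
  rfl

theorem map_self {n : ℕ} (i : Fin (n + 2)) (τ : stdSimplex ℝ (Fin (n + 1))) :
    (stdSimplex.map i.succAbove τ : stdSimplex ℝ (Fin (n + 2))) i = 0 := by
  rw [stdSimplex.map_coe, FunOnFinite.linearMap_apply_apply]
  refine Finset.sum_eq_zero fun j hj => ?_
  exact absurd (Finset.mem_filter.1 hj).2 (Fin.succAbove_ne i j)

theorem map_succAbove {n : ℕ} (i : Fin (n + 2)) (τ : stdSimplex ℝ (Fin (n + 1)))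
    (j : Fin (n + 1)) :
    (stdSimplex.map i.succAbove τ : stdSimplex ℝ (Fin (n + 2))) (i.succAbove j) = τ j := by
  rw [stdSimplex.map_coe, FunOnFinite.linearMap_apply_apply]
  have h : (Finset.univ.filter fun a => i.succAbove a = i.succAbove j) = {j} := by
    ext a
    simp only [Finset.mem_filter, Finset.mem_univ, true_and, Finset.mem_singleton]
    exact Fin.succAbove_right_inj
  rw [h, Finset.sum_singleton]

theorem sum_map {n : ℕ} (i : Fin (n + 2)) (τ : stdSimplex ℝ (Fin (n + 1)))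
    (p : Fin (n + 2) → Prop) [DecidablePred p] :
    ∑ j, (if p j then (stdSimplex.map i.succAbove τ : stdSimplex ℝ (Fin (n + 2))) j else 0) =
      ∑ j, if p (i.succAbove j) then τ j else 0 := by
  rw [Fin.sum_univ_succAbove _ i, map_self, ite_self, zero_add]
  refine Finset.sum_congr rfl fun j _ => ?_
  rw [map_succAbove]

theorem simPt_map (K : Finset (Finset ℕ)) (V T : Finset ℕ) {n : ℕ} (t : Fin (n + 2) → ℕ)
    (i : Fin (n + 2)) (τ : stdSimplex ℝ (Fin (n + 1))) :
    simPt K V T t (stdSimplex.map i.succAbove τ) =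
      (fun σ => ∑ j, if fl t (i.succAbove j) = σ then τ j else 0,
        fun v => cornerPt T v * (1 - ∑ j,
          if fl t (i.succAbove j) ∈ sub K V ∧ v ∈ fl t (i.succAbove j) then τ j else 0)) := by
  unfold simPt
  refine Prod.ext (funext fun σ => ?_) (funext fun v => ?_)
  · exact sum_map i τ (fun j => fl t j = σ)
  · show cornerPt T v * (1 - _) = cornerPt T v * (1 - _)
    rw [sum_map i τ (fun j => fl t j ∈ sub K V ∧ v ∈ fl t j)]

theorem fl_swap {n : ℕ} (t : Fin n → ℕ) (p q j : Fin n) (hpq : (q : ℕ) = (p : ℕ) + 1)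
    (hj : j ≠ p) : fl (t ∘ Equiv.swap p q) j = fl t j := by
  have hj' : (j : ℕ) ≠ (p : ℕ) := fun h => hj (Fin.ext h)
  have key : ∀ a : Fin n, a ≤ j → Equiv.swap p q a ≤ j := by
    intro a ha
    by_cases h1 : a = p
    · rw [h1, Equiv.swap_apply_left]
      rw [h1] at ha
      rw [Fin.le_def] at ha ⊢
      omega
    · by_cases h2 : a = q
      · rw [h2, Equiv.swap_apply_right]
        rw [h2] at ha
        rw [Fin.le_def] at ha ⊢
        omega
      · rw [Equiv.swap_apply_of_ne_of_ne h1 h2]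
        exact ha
  ext x
  simp only [fl, Finset.mem_image, Finset.mem_filter, Finset.mem_univ, true_and,
    Function.comp_apply]
  constructor
  · rintro ⟨a, ha, rfl⟩
    exact ⟨Equiv.swap p q a, key a ha, rfl⟩
  · rintro ⟨a, ha, rfl⟩
    refine ⟨Equiv.swap p q a, key a ha, ?_⟩
    rw [Equiv.swap_apply_self]

theorem fl_castSucc {n : ℕ} (t : Fin (n + 1) → ℕ) (j : Fin n) :
    fl t j.castSucc = fl (fun i => t i.castSucc) j := by
  ext x
  simp only [fl, Finset.mem_image, Finset.mem_filter, Finset.mem_univ, true_and]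
  constructor
  · rintro ⟨a, ha, rfl⟩
    have hlt : (a : ℕ) < n := lt_of_le_of_lt (Fin.le_def.1 ha) j.isLt
    exact ⟨⟨a, hlt⟩, Fin.le_def.1 ha, rfl⟩
  · rintro ⟨a, ha, rfl⟩
    exact ⟨a.castSucc, Fin.castSucc_le_castSucc_iff.2 ha, rfl⟩

theorem fl_subset {n : ℕ} (t : Fin n → ℕ) (j : Fin n) : fl t j ⊆ Finset.univ.image t :=
  Finset.image_subset_image (Finset.filter_subset _ _)

/-- the faces which are not the last one -/
theorem face_mid (K : Finset (Finset ℕ)) (V T : Finset ℕ) {m : ℕ} (c : (Fin (m + 2) → ℕ) → ℤ)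
    (halt : ∀ (t : Fin (m + 2) → ℕ) (i j : Fin (m + 2)), i ≠ j → c (t ∘ Equiv.swap i j) = - c t)
    (r : ℝ) (i : Fin (m + 2)) (hi : i ≠ Fin.last (m + 1)) :
    ∑ t ∈ Fintype.piFinset (fun _ : Fin (m + 2) => verts K), (r * (c t : ℝ)) •
      ch (Mf K V) (fun τ => simPt K V T t (stdSimplex.map i.succAbove τ)) = 0 := by
  have hi' : (i : ℕ) + 1 < m + 2 := by
    have h1 := i.isLt
    have h2 : (i : ℕ) ≠ m + 1 := fun h => hi (Fin.ext h)
    omega
  set q : Fin (m + 2) := ⟨(i : ℕ) + 1, hi'⟩ with hq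
  have hne : i ≠ q := by
    intro h
    have := congrArg Fin.val h
    rw [hq] at this
    simp only at this
    omega
  have key : ∑ t ∈ Fintype.piFinset (fun _ : Fin (m + 2) => verts K), (r * (c t : ℝ)) •
      ch (Mf K V) (fun τ => simPt K V T t (stdSimplex.map i.succAbove τ)) =
      - ∑ t ∈ Fintype.piFinset (fun _ : Fin (m + 2) => verts K), (r * (c t : ℝ)) •
      ch (Mf K V) (fun τ => simPt K V T t (stdSimplex.map i.succAbove τ)) := by
    rw [← Finset.sum_neg_distrib]
    refine Finset.sum_bij' (fun s _ => s ∘ Equiv.swap i q) (fun s _ => s ∘ Equiv.swap i q)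
      ?_ ?_ ?_ ?_ ?_
    · intro s hs
      rw [Fintype.mem_piFinset] at hs ⊢
      exact fun j => hs _
    · intro s hs
      rw [Fintype.mem_piFinset] at hs ⊢
      exact fun j => hs _
    · intro s _
      funext j
      simp
    · intro s _
      funext j
      simp
    · intro s _
      have h1 : (fun τ => simPt K V T (s ∘ Equiv.swap i q) (stdSimplex.map i.succAbove τ)) =
          fun τ => simPt K V T s (stdSimplex.map i.succAbove τ) := by
        funext τ
        rw [simPt_map, simPt_map]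
        have h2 : ∀ j, fl (s ∘ Equiv.swap i q) (i.succAbove j) = fl s (i.succAbove j) :=
          fun j => fl_swap s i q _ rfl (Fin.succAbove_ne i j)
        simp only [h2]
      rw [h1, halt s i q hne, Int.cast_neg, mul_neg, neg_smul, neg_neg]
  have h2 : (2 : ℝ) • ∑ t ∈ Fintype.piFinset (fun _ : Fin (m + 2) => verts K), (r * (c t : ℝ)) •
      ch (Mf K V) (fun τ => simPt K V T t (stdSimplex.map i.succAbove τ)) = 0 := by
    rw [two_smul]
    nth_rewrite 1 [key]
    exact neg_add_cancel _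
  exact (smul_eq_zero.1 h2).resolve_left two_ne_zero

/-- the last face -/
theorem face_last (K : Finset (Finset ℕ)) (V T : Finset ℕ) {m : ℕ} (c : (Fin (m + 2) → ℕ) → ℤ)
    (o : (Fin (m + 1) → ℕ) → ℤ)
    (hb : ∀ s : Fin (m + 1) → ℕ, ∑ a ∈ verts K, c (Fin.snoc (α := fun _ => ℕ) s a) = o s)
    (r : ℝ) :
    ∑ t ∈ Fintype.piFinset (fun _ : Fin (m + 2) => verts K), (r * (c t : ℝ)) •
      ch (Mf K V) (fun τ => simPt K V T t (stdSimplex.map (Fin.last (m + 1)).succAbove τ)) =
    ∑ s ∈ Fintype.piFinset (fun _ : Fin (m + 1) => verts K), (r * (o s : ℝ)) •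
      ch (Mf K V) (simPt K V T s) := by
  rw [B5.sum_snoc]
  refine Finset.sum_congr rfl fun s _ => ?_
  have h1 : ∀ a : ℕ, (fun τ => simPt K V T (Fin.snoc (α := fun _ => ℕ) s a)
      (stdSimplex.map (Fin.last (m + 1)).succAbove τ)) = simPt K V T s := by
    intro a
    funext τ
    rw [simPt_map]
    have h2 : ∀ j : Fin (m + 1), fl (Fin.snoc (α := fun _ => ℕ) s a)
        ((Fin.last (m + 1)).succAbove j) = fl s j := by
      intro j
      rw [Fin.succAbove_last, fl_castSucc]
      congr 1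
      funext i
      exact Fin.snoc_castSucc (α := fun _ => ℕ) _ _ _
    simp only [h2]
    rfl
  have h3 : ∀ a ∈ verts K, (r * (c (Fin.snoc (α := fun _ => ℕ) s a) : ℝ)) •
      ch (Mf K V) (fun τ => simPt K V T (Fin.snoc (α := fun _ => ℕ) s a)
        (stdSimplex.map (Fin.last (m + 1)).succAbove τ)) =
      (r * (c (Fin.snoc (α := fun _ => ℕ) s a) : ℝ)) • ch (Mf K V) (simPt K V T s) := by
    intro a _
    rw [h1 a]
  rw [Finset.sum_congr rfl h3, ← Finset.sum_smul, ← Finset.mul_sum, ← hb s, Int.cast_sum]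

/-- the simplices in the mirror -/
theorem simPt_shift {K : Finset (Finset ℕ)} {V : Finset ℕ} (hK : IsCx K) (T : Finset ℕ) {m : ℕ}
    {s : Fin (m + 1) → ℕ} (hs : Finset.univ.image s ∈ sub K V) :
    simPt K V (symmDiff T {s 0}) s = simPt K V T s := by
  funext τ
  refine Prod.ext rfl (funext fun v => ?_)
  show cornerPt (symmDiff T {s 0}) v * (1 - _) = cornerPt T v * (1 - _)
  by_cases hv : v = s 0
  · have h1 : ∀ j ∈ (Finset.univ : Finset (Fin (m + 1))),
        (if fl s j ∈ sub K V ∧ v ∈ fl s j then τ j else 0) = τ j := by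
      intro j _
      rw [if_pos]
      unfold sub at hs ⊢
      rw [Finset.mem_filter] at hs ⊢
      refine ⟨⟨hK.2 _ hs.1 _ (fl_subset s j), (fl_subset s j).trans hs.2⟩, ?_⟩
      rw [hv]
      exact Finset.mem_image_of_mem _ (Finset.mem_filter.2 ⟨Finset.mem_univ _, Fin.zero_le _⟩)
    rw [Finset.sum_congr rfl h1, stdSimplex.sum_eq_one, sub_self, mul_zero, mul_zero]
  · congr 1
    unfold cornerPt
    have h2 : v ∈ symmDiff T {s 0} ↔ v ∈ T := by
      rw [Finset.mem_symmDiff, Finset.mem_singleton]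
      constructor
      · rintro (⟨h, -⟩ | ⟨h, -⟩)
        · exact h
        · exact absurd h hv
      · exact fun h => Or.inl ⟨h, hv⟩
    simp only [h2]

theorem prf (h4 : S_C4) : S_C5 := by
  intro K V hK hV m o ho c hc
  have hface : ∀ i : Fin (m + 2), ∑ T ∈ V.powerset,
      ∑ t ∈ Fintype.piFinset (fun _ : Fin (m + 2) => verts K), ((-1 : ℝ) ^ T.card * (c t : ℝ)) •
        ch (Mf K V) (fun τ => simPt K V T t (stdSimplex.map i.succAbove τ)) = 0 := by
    intro i
    by_cases hi : i = Fin.last (m + 1)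
    · subst hi
      have h1 : ∀ T ∈ V.powerset, ∑ t ∈ Fintype.piFinset (fun _ : Fin (m + 2) => verts K),
          ((-1 : ℝ) ^ T.card * (c t : ℝ)) • ch (Mf K V)
            (fun τ => simPt K V T t (stdSimplex.map (Fin.last (m + 1)).succAbove τ)) =
          ∑ s ∈ Fintype.piFinset (fun _ : Fin (m + 1) => verts K),
            (o s : ℝ) • ((-1 : ℝ) ^ T.card • ch (Mf K V) (simPt K V T s)) := by
        intro T _
        rw [face_last K V T c o hc.bdry]
        refine Finset.sum_congr rfl fun s _ => ?_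
        rw [smul_smul, mul_comm]
      rw [Finset.sum_congr rfl h1, Finset.sum_comm]
      refine Finset.sum_eq_zero fun s _ => ?_
      rw [← Finset.smul_sum]
      by_cases hs : o s = 0
      · rw [hs, Int.cast_zero, zero_smul]
      · have hs' := ho.2.1 s hs
        have hv : s 0 ∈ V := by
          have h2 := (Finset.mem_filter.1 hs').2
          exact h2 (Finset.mem_image_of_mem _ (Finset.mem_univ _))
        have h3 := B5.sum_shift V (s 0) hv (fun T => ch (Mf K V) (simPt K V T s))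
        simp only [simPt_shift hK _ hs'] at h3
        have h5 : (2 : ℝ) • ∑ T ∈ V.powerset, (-1 : ℝ) ^ T.card • ch (Mf K V) (simPt K V T s) =
            0 := by
          rw [two_smul]
          nth_rewrite 1 [h3]
          exact neg_add_cancel _
        rw [(smul_eq_zero.1 h5).resolve_left two_ne_zero, smul_zero]
    · exact Finset.sum_eq_zero fun T _ => face_mid K V T c hc.alt _ i hi
  unfold fundCh
  rw [B5.bd_sum]
  simp_rw [B5.bd_sum]
  have h1 : ∀ T ∈ V.powerset, ∀ t ∈ Fintype.piFinset (fun _ : Fin (m + 2) => verts K),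
      bd (((-1 : ℝ) ^ T.card * (c t : ℝ)) • simCh K V T t) = ∑ i : Fin (m + 2),
        ((-1 : ℝ) ^ (i : ℕ)) • (((-1 : ℝ) ^ T.card * (c t : ℝ)) •
          ch (Mf K V) fun τ => simPt K V T t (stdSimplex.map i.succAbove τ)) := by
    intro T hT t _
    by_cases ht : c t = 0
    · rw [ht, Int.cast_zero, mul_zero, zero_smul]
      simp only [zero_smul, smul_zero, Finset.sum_const_zero]
      unfold bd
      exact Finsupp.sum_zero_index
    · rw [simCh_eq]
      exact bd_ch (continuous_simPt K V T t)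
        (h4 K V T hK (Finset.mem_powerset.1 hT) _ t (hc.supp t ht)) _
  rw [Finset.sum_congr rfl fun T hT => Finset.sum_congr rfl fun t ht => h1 T hT t ht]
  rw [Finset.sum_congr rfl fun T _ => Finset.sum_comm, Finset.sum_comm]
  refine Finset.sum_eq_zero fun i _ => ?_
  simp_rw [← Finset.smul_sum]
  rw [hface i, smul_zero]

end MP8a95ee.Ref.C5P
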